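import Pool.Agent.Lib.MP_90787a_nt.RF.Engine2

set_option autoImplicit false
set_option linter.unusedSectionVars false

/-!
The main theorem on rational maps.
-/

namespace Pool.Agent.UBC90787a

open Polynomial Finset NumberField

/-- A place of potentially good reduction has weight zero. -/
lemma finWeight_of_potGoodRed {K : Type} [Field K] {v : K → ℝ} {p q : K[X]} {d : ℕ}
    (h : PotGoodRed v p q d) : finWeight v p q d = 0 := by
  apply le_antisymm _ (finWeight_nonneg v p q d)
  exact csInf_le ⟨0, fun _ h => h.1⟩ ⟨le_rfl, h⟩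

open Classical in
theorem rf_main' (D d : ℕ) (hD : 1 ≤ D) (hd2 : 2 ≤ d) (σ : ℝ) : ∃ C : ℝ,
    ∀ (K : Type) [Field K] [NumberField K], Module.finrank ℚ K = D →
      ∀ p q : K[X], IsCoprime p q → max p.natDegree q.natDegree = d →
      ∀ F : K × K → K × K,
        (∀ v : K × K, F v =
          (∑ i ∈ Finset.range (d + 1), p.coeff i * v.1 ^ i * v.2 ^ (d - i),
           ∑ i ∈ Finset.range (d + 1), q.coeff i * v.1 ^ i * v.2 ^ (d - i))) →
      ∀ S : Finset (FinitePlace K),
      (∀ U : Finset (FinitePlace K), Disjoint U S → (∀ v ∈ U, ¬ PotGoodRed v p q d) →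
        ∑ v ∈ U, finWeight v p q d ≤ σ * (1 + ∑ v ∈ S, finWeight v p q d +
          ∑ w : InfinitePlace K, (w.mult : ℝ) * archWeight w.embedding p q d)) →
      ∀ Z : Finset K,
        (∀ x ∈ Z, ∃ i j : ℕ, j < i ∧
          (F^[i] (x, 1)).1 * (F^[j] (x, 1)).2 = (F^[i] (x, 1)).2 * (F^[j] (x, 1)).1) →
      (Z.card : ℝ) ≤ C * (S.card + 1) * Real.log (S.card + 2) := by
  obtain ⟨C, hC⟩ := rf_main D d hD hd2 σ
  refine ⟨C, ?_⟩
  intro K _ _ hK p q hpq hmax F hF S hU Z hZ
  have hFeq : F = homMap p q d := by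
    funext v
    rw [hF]
    rfl
  subst hFeq
  refine hC K hK p q hpq hmax S ?_ Z hZ
  intro U hUS
  have h1 := hU (U.filter (fun v => ¬ PotGoodRed v p q d))
    (Finset.disjoint_of_subset_left (Finset.filter_subset _ _) hUS)
    (fun v hv => (Finset.mem_filter.mp hv).2)
  refine le_trans (le_of_eq ?_) h1
  rw [Finset.sum_filter]
  refine Finset.sum_congr rfl (fun v _ => ?_)
  split_ifs with h
  · exact finWeight_of_potGoodRed h
  · rfl

end Pool.Agent.UBC90787a
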