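import Pool.Agent.Lib.MP_90787a_nt.RF.Wedge

set_option autoImplicit false
set_option linter.unusedSectionVars false

/-!
Positive definite kernels on the complex projective line.
-/

namespace Pool.Agent.UBC90787a

open Finset

/-- Kernels with finite real feature maps. -/
def PK {V : Type} (K : V → V → ℝ) : Prop :=
  ∃ (ι : Type) (_ : Fintype ι) (φ : V → ι → ℝ), ∀ p q, K p q = ∑ a, φ p a * φ q a

section pk

variable {V : Type} {K K' : V → V → ℝ}

lemma PK.mul (h : PK K) (h' : PK K') : PK (fun p q => K p q * K' p q) := by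
  obtain ⟨ι, _, φ, hφ⟩ := h
  obtain ⟨ι', _, φ', hφ'⟩ := h'
  refine ⟨ι × ι', inferInstance, fun p a => φ p a.1 * φ' p a.2, ?_⟩
  intro p q
  simp only [hφ, hφ', Fintype.sum_prod_type, Finset.sum_mul_sum]
  refine Finset.sum_congr rfl (fun a _ => Finset.sum_congr rfl (fun b _ => ?_))
  ring

lemma PK.add (h : PK K) (h' : PK K') : PK (fun p q => K p q + K' p q) := by
  obtain ⟨ι, _, φ, hφ⟩ := h
  obtain ⟨ι', _, φ', hφ'⟩ := h'
  refine ⟨ι ⊕ ι', inferInstance, fun p => Sum.elim (φ p) (φ' p), ?_⟩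
  intro p q
  simp [hφ, hφ', Fintype.sum_sum_type]

lemma PK.smul (h : PK K) {r : ℝ} (hr : 0 ≤ r) : PK (fun p q => r * K p q) := by
  obtain ⟨ι, _, φ, hφ⟩ := h
  refine ⟨ι, inferInstance, fun p a => Real.sqrt r * φ p a, ?_⟩
  intro p q
  simp only [hφ, Finset.mul_sum]
  refine Finset.sum_congr rfl (fun a _ => ?_)
  have := Real.mul_self_sqrt hr
  calc r * (φ p a * φ q a) = (Real.sqrt r * Real.sqrt r) * (φ p a * φ q a) := by rw [this]
    _ = _ := by ring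

lemma PK.zero : PK (fun _ _ : V => (0 : ℝ)) :=
  ⟨Empty, inferInstance, fun _ a => a.elim, fun p q => by simp⟩

lemma PK.one : PK (fun _ _ : V => (1 : ℝ)) :=
  ⟨Unit, inferInstance, fun _ _ => 1, fun p q => by simp⟩

lemma PK.pow (h : PK K) (n : ℕ) : PK (fun p q => K p q ^ n) := by
  induction n with
  | zero => simpa using PK.one
  | succ n ih =>
    simp only [pow_succ]
    exact ih.mul h

lemma PK.sum {J : Type} (s : Finset J) {F : J → V → V → ℝ} (h : ∀ j ∈ s, PK (F j)) :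
    PK (fun p q => ∑ j ∈ s, F j p q) := by
  classical
  induction s using Finset.induction_on with
  | empty => simpa using PK.zero
  | insert a s ha ih =>
    simp only [Finset.sum_insert ha]
    exact (h a (Finset.mem_insert_self _ _)).add
      (ih (fun j hj => h j (Finset.mem_insert_of_mem hj)))

lemma sum_feature {ι I : Type} [Fintype ι] (φ : V → ι → ℝ) (s : Finset I) (P : I → V)
    (σ : I → ℝ) : ∑ i ∈ s, ∑ j ∈ s, σ i * σ j * (∑ a, φ (P i) a * φ (P j) a) =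
      ∑ a, (∑ i ∈ s, σ i * φ (P i) a) ^ 2 := by
  calc ∑ i ∈ s, ∑ j ∈ s, σ i * σ j * (∑ a, φ (P i) a * φ (P j) a)
      = ∑ i ∈ s, ∑ j ∈ s, ∑ a, (σ i * φ (P i) a) * (σ j * φ (P j) a) := by
        refine Finset.sum_congr rfl (fun i _ => Finset.sum_congr rfl (fun j _ => ?_))
        rw [Finset.mul_sum]
        exact Finset.sum_congr rfl (fun a _ => by ring)
    _ = ∑ i ∈ s, ∑ a, ∑ j ∈ s, (σ i * φ (P i) a) * (σ j * φ (P j) a) :=
        Finset.sum_congr rfl (fun i _ => Finset.sum_comm)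
    _ = ∑ a, ∑ i ∈ s, ∑ j ∈ s, (σ i * φ (P i) a) * (σ j * φ (P j) a) := Finset.sum_comm
    _ = ∑ a, (∑ i ∈ s, σ i * φ (P i) a) ^ 2 := by
        refine Finset.sum_congr rfl (fun a _ => ?_)
        rw [sq, Finset.sum_mul_sum]

lemma PK.nonneg (h : PK K) {I : Type} (s : Finset I) (P : I → V) (σ : I → ℝ) :
    0 ≤ ∑ i ∈ s, ∑ j ∈ s, σ i * σ j * K (P i) (P j) := by
  obtain ⟨ι, _, φ, hφ⟩ := h
  simp only [hφ]
  rw [sum_feature]
  positivity

lemma PK.test (h : PK K) {I : Type} (s : Finset I) (P : I → V) (σ : I → ℝ) (α : V) :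
    (∑ i ∈ s, σ i * K (P i) α) ^ 2 ≤
      K α α * ∑ i ∈ s, ∑ j ∈ s, σ i * σ j * K (P i) (P j) := by
  obtain ⟨ι, _, φ, hφ⟩ := h
  simp only [hφ]
  rw [sum_feature]
  have h1 : ∑ i ∈ s, σ i * ∑ a, φ (P i) a * φ α a = ∑ a, φ α a * (∑ i ∈ s, σ i * φ (P i) a) := by
    simp only [Finset.mul_sum]
    rw [Finset.sum_comm]
    exact Finset.sum_congr rfl (fun a _ => Finset.sum_congr rfl (fun i _ => by ring))
  rw [h1]
  have h2 := Finset.sum_mul_sq_le_sq_mul_sq univ (fun a => φ α a)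
    (fun a => ∑ i ∈ s, σ i * φ (P i) a)
  refine h2.trans (le_of_eq ?_)
  congr 1
  exact Finset.sum_congr rfl (fun a _ => by ring)

end pk

section series

/-- The partial sums of the logarithmic series. -/
lemma log_series_le {c : ℝ} (hc0 : 0 ≤ c) (hc1 : c < 1) (s : Finset ℕ) :
    ∑ m ∈ s, c ^ (m + 1) / ((m : ℝ) + 1) ≤ - Real.log (1 - c) := by
  have h := Real.hasSum_pow_div_log_of_abs_lt_one (x := c) (by rw [abs_of_nonneg hc0]; exact hc1)
  exact sum_le_hasSum s (fun i _ => by positivity) h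

/-- The tail of the logarithmic series. -/
lemma log_series_tail {c : ℝ} (hc0 : 0 ≤ c) (hc1 : c < 1) (M : ℕ) :
    - Real.log (1 - c) - ∑ m ∈ range M, c ^ (m + 1) / ((m : ℝ) + 1) ≤
      1 / (((M : ℝ) + 1) * (1 - c)) := by
  have h := Real.hasSum_pow_div_log_of_abs_lt_one (x := c) (by rw [abs_of_nonneg hc0]; exact hc1)
  have h1 := (hasSum_nat_add_iff' M).mpr h
  have h2 : HasSum (fun n : ℕ => 1 / ((M : ℝ) + 1) * c ^ n) (1 / ((M : ℝ) + 1) * (1 - c)⁻¹) :=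
    (hasSum_geometric_of_lt_one hc0 hc1).mul_left _
  have h3 := hasSum_le (fun n => ?_) h1 h2
  · refine h3.trans (le_of_eq ?_)
    rw [one_div, one_div, mul_inv]
  · have e1 : c ^ (n + M + 1) ≤ c ^ n := pow_le_pow_of_le_one hc0 hc1.le (by omega)
    have e2 : ((M : ℝ) + 1) ≤ ((n + M : ℕ) : ℝ) + 1 := by
      push_cast
      have : (0 : ℝ) ≤ n := Nat.cast_nonneg n
      linarith
    rw [one_div, ← div_eq_inv_mul]
    gcongr

lemma inv_le_log_sub (m : ℕ) (hm : 1 ≤ m) :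
    1 / ((m : ℝ) + 1) ≤ Real.log ((m : ℝ) + 1) - Real.log m := by
  have hm0 : (0 : ℝ) < m := by exact_mod_cast hm
  have h1 := Real.log_le_sub_one_of_pos (show (0 : ℝ) < (m : ℝ) / (m + 1) by positivity)
  rw [Real.log_div (by positivity) (by positivity)] at h1
  have h2 : (m : ℝ) / (m + 1) - 1 = - (1 / ((m : ℝ) + 1)) := by field_simp; ring
  linarith

lemma log_sub_le_inv (m : ℕ) :
    Real.log ((m : ℝ) + 2) - Real.log ((m : ℝ) + 1) ≤ 1 / ((m : ℝ) + 1) := by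
  have hm0 : (0 : ℝ) ≤ m := Nat.cast_nonneg m
  have h1 := Real.log_le_sub_one_of_pos (show (0 : ℝ) < ((m : ℝ) + 2) / (m + 1) by positivity)
  rw [Real.log_div (by positivity) (by positivity)] at h1
  have h2 : ((m : ℝ) + 2) / (m + 1) - 1 = 1 / ((m : ℝ) + 1) := by field_simp; ring
  linarith

lemma sum_inv_le {a b : ℕ} (ha : 1 ≤ a) (hab : a ≤ b) :
    ∑ m ∈ Ico a b, 1 / ((m : ℝ) + 1) ≤ Real.log b - Real.log a := by
  induction b, hab using Nat.le_induction with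
  | base => simp
  | succ b hb ih =>
    rw [Finset.sum_Ico_succ_top hb]
    have := inv_le_log_sub b (ha.trans hb)
    push_cast
    linarith

lemma sum_inv_ge {a b : ℕ} (hab : a ≤ b) :
    Real.log ((b : ℝ) + 1) - Real.log ((a : ℝ) + 1) ≤ ∑ m ∈ Ico a b, 1 / ((m : ℝ) + 1) := by
  induction b, hab using Nat.le_induction with
  | base => simp
  | succ b hb ih =>
    rw [Finset.sum_Ico_succ_top hb]
    have := log_sub_le_inv b
    push_cast
    have e : (b : ℝ) + 1 + 1 = b + 2 := by ring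
    rw [e]
    linarith

lemma sum_inv_range_le {M : ℕ} (hM : 1 ≤ M) :
    ∑ m ∈ range M, 1 / ((m : ℝ) + 1) ≤ 1 + Real.log M := by
  have h1 := sum_inv_le (le_refl 1) hM
  rw [Finset.range_eq_Ico, Finset.sum_eq_sum_Ico_succ_bot (by omega)]
  simp only [Nat.cast_zero, zero_add, Nat.cast_one, Real.log_one, sub_zero] at h1 ⊢
  linarith

end series

section complex

open Complex

/-- Squared euclidean length. -/
noncomputable def nn (p : ℂ × ℂ) : ℝ := normSq p.1 + normSq p.2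

/-- The hermitian product, squared. -/
noncomputable def hh (p q : ℂ × ℂ) : ℝ :=
  normSq (p.1 * (starRingEnd ℂ) q.1 + p.2 * (starRingEnd ℂ) q.2)

lemma nn_nonneg (p : ℂ × ℂ) : 0 ≤ nn p := add_nonneg (normSq_nonneg _) (normSq_nonneg _)

lemma nn_pos {p : ℂ × ℂ} (hp : p ≠ 0) : 0 < nn p := by
  unfold nn
  by_cases h : p.1 = 0
  · have h2 : p.2 ≠ 0 := fun h2 => hp (Prod.ext h h2)
    exact add_pos_of_nonneg_of_pos (normSq_nonneg _) (normSq_pos.mpr h2)
  · exact add_pos_of_pos_of_nonneg (normSq_pos.mpr h) (normSq_nonneg _)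

lemma lagrange_id (p q : ℂ × ℂ) : normSq (wd p q) + hh p q = nn p * nn q := by
  unfold hh nn wd
  simp only [normSq_apply, add_re, add_im, sub_re, sub_im, mul_re, mul_im, conj_re, conj_im]
  ring

lemma hh_nonneg (p q : ℂ × ℂ) : 0 ≤ hh p q := normSq_nonneg _

lemma hh_symm (p q : ℂ × ℂ) : hh p q = hh q p := by
  have h1 := lagrange_id p q
  have h2 := lagrange_id q p
  rw [wd_comm q p, normSq_neg] at h2
  linarith [mul_comm (nn p) (nn q)]

/-- The squared cosine. -/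
noncomputable def cc (p q : ℂ × ℂ) : ℝ := hh p q / (nn p * nn q)

lemma cc_nonneg (p q : ℂ × ℂ) : 0 ≤ cc p q :=
  div_nonneg (hh_nonneg p q) (mul_nonneg (nn_nonneg p) (nn_nonneg q))

lemma cc_le_one (p q : ℂ × ℂ) : cc p q ≤ 1 := by
  apply div_le_one_of_le₀ _ (mul_nonneg (nn_nonneg p) (nn_nonneg q))
  have := lagrange_id p q
  have := normSq_nonneg (wd p q)
  linarith

lemma cc_symm (p q : ℂ × ℂ) : cc p q = cc q p := by
  unfold cc
  rw [hh_symm, mul_comm]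

/-- The euclidean norm. -/
noncomputable def en2 (p : ℂ × ℂ) : ℝ := Real.sqrt (nn p)

lemma one_sub_cc {p q : ℂ × ℂ} (hp : p ≠ 0) (hq : q ≠ 0) :
    1 - cc p q = (‖wd p q‖ / (en2 p * en2 q)) ^ 2 := by
  have h1 := nn_pos hp
  have h2 := nn_pos hq
  have h3 := lagrange_id p q
  unfold en2 cc
  rw [div_pow, mul_pow, Real.sq_sqrt h1.le, Real.sq_sqrt h2.le, ← normSq_eq_norm_sq]
  field_simp
  linarith

/-- The Stokes parameters. -/
noncomputable def stokes (p : ℂ × ℂ) : Fin 4 → ℝ :=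
  ![(Real.sqrt 2)⁻¹ * (normSq p.1 + normSq p.2) / nn p,
    (Real.sqrt 2)⁻¹ * (normSq p.1 - normSq p.2) / nn p,
    (Real.sqrt 2)⁻¹ * (2 * (p.1 * (starRingEnd ℂ) p.2).re) / nn p,
    (Real.sqrt 2)⁻¹ * (2 * (p.1 * (starRingEnd ℂ) p.2).im) / nn p]

lemma cc_PK : PK cc := by
  refine ⟨Fin 4, inferInstance, stokes, ?_⟩
  intro p q
  have h2 : (Real.sqrt 2)⁻¹ * (Real.sqrt 2)⁻¹ = 1 / 2 := by
    rw [← mul_inv, Real.mul_self_sqrt (by norm_num)]
    norm_num
  have h1 : ∑ a, stokes p a * stokes q a = ((Real.sqrt 2)⁻¹ * (Real.sqrt 2)⁻¹) *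
      ((normSq p.1 + normSq p.2) * (normSq q.1 + normSq q.2) +
        (normSq p.1 - normSq p.2) * (normSq q.1 - normSq q.2) +
        (2 * (p.1 * (starRingEnd ℂ) p.2).re) * (2 * (q.1 * (starRingEnd ℂ) q.2).re) +
        (2 * (p.1 * (starRingEnd ℂ) p.2).im) * (2 * (q.1 * (starRingEnd ℂ) q.2).im)) /
        (nn p * nn q) := by
    rw [Fin.sum_univ_four]
    simp only [stokes, Matrix.cons_val_zero, Matrix.cons_val_one, Matrix.cons_val]
    ring
  rw [h1, h2]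
  unfold cc
  congr 1
  unfold hh
  simp only [normSq_apply, add_re, add_im, mul_re, mul_im, conj_re, conj_im]
  ring

/-- The truncated logarithmic kernel. -/
noncomputable def kerS (s : Finset ℕ) (p q : ℂ × ℂ) : ℝ :=
  1 / 2 * ∑ m ∈ s, cc p q ^ (m + 1) / ((m : ℝ) + 1)

lemma kerS_PK (s : Finset ℕ) : PK (kerS s) := by
  unfold kerS
  have h : PK (fun p q => ∑ m ∈ s, (1 / ((m : ℝ) + 1)) * cc p q ^ (m + 1)) :=
    PK.sum s (fun m _ => (cc_PK.pow (m + 1)).smul (by positivity))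
  have h2 := h.smul (r := 1 / 2) (by norm_num)
  convert h2 using 4 with p q
  refine Finset.sum_congr rfl (fun m _ => ?_)
  ring

lemma kerS_nonneg (s : Finset ℕ) (p q : ℂ × ℂ) : 0 ≤ kerS s p q := by
  unfold kerS
  have := cc_nonneg p q
  positivity

lemma kerS_symm (s : Finset ℕ) (p q : ℂ × ℂ) : kerS s p q = kerS s q p := by
  unfold kerS
  rw [cc_symm]

lemma kerS_le_of_wd (s : Finset ℕ) {p q : ℂ × ℂ} (h : wd p q ≠ 0) :
    kerS s p q ≤ - Real.log (‖wd p q‖ / (en2 p * en2 q)) := by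
  have hp := left_ne_zero h
  have hq := right_ne_zero h
  have h1 : 0 < ‖wd p q‖ / (en2 p * en2 q) := by
    have a1 := norm_pos_iff.mpr h
    have a2 : 0 < en2 p := Real.sqrt_pos.mpr (nn_pos hp)
    have a3 : 0 < en2 q := Real.sqrt_pos.mpr (nn_pos hq)
    positivity
  have h2 := one_sub_cc hp hq
  have h3 : cc p q < 1 := by
    have : 0 < (‖wd p q‖ / (en2 p * en2 q)) ^ 2 := by positivity
    linarith
  have h4 := log_series_le (cc_nonneg p q) h3 s
  rw [h2, Real.log_pow] at h4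
  unfold kerS
  push_cast at h4
  linarith

lemma kerS_range_ge {M : ℕ} {p q : ℂ × ℂ} (hp : p ≠ 0) (hq : q ≠ 0) {ε : ℝ} (hε : 0 < ε)
    (h : ε ≤ ‖wd p q‖ / (en2 p * en2 q)) :
    - Real.log (‖wd p q‖ / (en2 p * en2 q)) - 1 / 2 * (1 / (((M : ℝ) + 1) * ε ^ 2)) ≤
      kerS (range M) p q := by
  have h2 := one_sub_cc hp hq
  have h5 : ε ^ 2 ≤ (‖wd p q‖ / (en2 p * en2 q)) ^ 2 := by gcongr
  have h3 : cc p q < 1 := by
    have : 0 < ε ^ 2 := by positivity
    linarith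
  have h4 := log_series_tail (cc_nonneg p q) h3 M
  have h6 : 1 / (((M : ℝ) + 1) * (1 - cc p q)) ≤ 1 / (((M : ℝ) + 1) * ε ^ 2) := by
    rw [h2]
    gcongr
  have h7 : Real.log (1 - cc p q) = 2 * Real.log (‖wd p q‖ / (en2 p * en2 q)) := by
    rw [h2, Real.log_pow]
    norm_num
  rw [h7] at h4
  unfold kerS
  linarith

lemma kerS_Ico_far {M1 M2 : ℕ} {p q : ℂ × ℂ} (hp : p ≠ 0) (hq : q ≠ 0) {ε : ℝ} (hε : 0 < ε)
    (h : ε ≤ ‖wd p q‖ / (en2 p * en2 q)) :
    kerS (Ico M1 M2) p q ≤ 1 / 2 * (1 / (((M1 : ℝ) + 1) * ε ^ 2)) := by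
  have h2 := one_sub_cc hp hq
  have h5 : ε ^ 2 ≤ (‖wd p q‖ / (en2 p * en2 q)) ^ 2 := by gcongr
  have h3 : cc p q < 1 := by
    have : 0 < ε ^ 2 := by positivity
    linarith
  have h4 := log_series_tail (cc_nonneg p q) h3 M1
  have h6 : 1 / (((M1 : ℝ) + 1) * (1 - cc p q)) ≤ 1 / (((M1 : ℝ) + 1) * ε ^ 2) := by
    rw [h2]
    gcongr
  have h8 := log_series_le (cc_nonneg p q) h3 (range M1 ∪ Ico M1 M2)
  rw [Finset.sum_union (by
    rw [Finset.disjoint_left]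
    intro a ha hb
    rw [Finset.mem_range] at ha
    rw [Finset.mem_Ico] at hb
    omega)] at h8
  unfold kerS
  linarith

lemma kerS_le_sum (s : Finset ℕ) (p q : ℂ × ℂ) :
    kerS s p q ≤ 1 / 2 * ∑ m ∈ s, 1 / ((m : ℝ) + 1) := by
  unfold kerS
  have h1 := cc_nonneg p q
  have h2 := cc_le_one p q
  have h3 : ∑ m ∈ s, cc p q ^ (m + 1) / ((m : ℝ) + 1) ≤ ∑ m ∈ s, 1 / ((m : ℝ) + 1) := by
    apply Finset.sum_le_sum
    intro m _
    have := pow_le_one₀ (n := m + 1) h1 h2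
    gcongr
  linarith

lemma kerS_Ico_near {M1 M2 : ℕ} {p q : ℂ × ℂ} (hp : p ≠ 0) (hq : q ≠ 0) {ε : ℝ}
    (hε1 : ε ≤ 1) (h : ‖wd p q‖ / (en2 p * en2 q) ≤ ε) :
    1 / 2 * (∑ m ∈ Ico M1 M2, 1 / ((m : ℝ) + 1)) - 1 / 2 * (M2 * ε ^ 2) ≤
      kerS (Ico M1 M2) p q := by
  have h2 := one_sub_cc hp hq
  have h0 : 0 ≤ ‖wd p q‖ / (en2 p * en2 q) := by
    unfold en2
    positivity
  have h5 : (‖wd p q‖ / (en2 p * en2 q)) ^ 2 ≤ ε ^ 2 := by gcongr
  have hε0 : 0 ≤ ε := h0.trans h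
  have h6 : ∀ m ∈ Ico M1 M2, 1 / ((m : ℝ) + 1) - ε ^ 2 ≤ cc p q ^ (m + 1) / ((m : ℝ) + 1) := by
    intro m _
    have h7 := one_add_mul_le_pow (a := - ε ^ 2) (by nlinarith) (m + 1)
    have h8 : (1 + -ε ^ 2) ^ (m + 1) ≤ cc p q ^ (m + 1) := by
      apply pow_le_pow_left₀ (by nlinarith)
      linarith
    have hm : (0 : ℝ) < (m : ℝ) + 1 := by positivity
    rw [le_div_iff₀ hm]
    have e : (1 / ((m : ℝ) + 1) - ε ^ 2) * ((m : ℝ) + 1) = 1 + ((m + 1 : ℕ) : ℝ) * (-ε ^ 2) := by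
      push_cast
      field_simp
      ring
    rw [e]
    exact h7.trans h8
  have h7 := Finset.sum_le_sum h6
  rw [Finset.sum_sub_distrib, Finset.sum_const, nsmul_eq_mul, Nat.card_Ico] at h7
  have h8 : ((M2 - M1 : ℕ) : ℝ) * ε ^ 2 ≤ M2 * ε ^ 2 := by
    have : ((M2 - M1 : ℕ) : ℝ) ≤ M2 := by exact_mod_cast Nat.sub_le _ _
    gcongr
  unfold kerS
  linarith

end complex

end Pool.Agent.UBC90787a
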