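import Pool.Agent.Lib.MP_90787a_nt.RF.ArchBase
import Pool.Agent.Lib.MP_90787a_nt.RF.ArchKernel

set_option autoImplicit false
set_option linter.unusedSectionVars false

/-!
The metric properties of the field of complex numbers.
-/

namespace Pool.Agent.UBC90787a

open Finset

section

lemma en2_pos {p : ℂ × ℂ} (hp : p ≠ 0) : 0 < en2 p := Real.sqrt_pos.mpr (nn_pos hp)

lemma norm_le_en2 (p : ℂ × ℂ) : ‖p‖ ≤ en2 p := by
  unfold en2 nn
  rw [Prod.norm_def]
  apply max_le
  · apply Real.le_sqrt_of_sq_le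
    rw [← Complex.normSq_eq_norm_sq]
    have := Complex.normSq_nonneg p.2
    linarith
  · apply Real.le_sqrt_of_sq_le
    rw [← Complex.normSq_eq_norm_sq]
    have := Complex.normSq_nonneg p.1
    linarith

lemma en2_le (p : ℂ × ℂ) : en2 p ≤ Real.exp (Real.log 2) * ‖p‖ := by
  rw [Real.exp_log (by norm_num)]
  unfold en2 nn
  rw [Real.sqrt_le_left (by positivity), Complex.normSq_eq_norm_sq, Complex.normSq_eq_norm_sq]
  have h1 := norm_fst_le p
  have h2 := norm_snd_le p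
  have h3 : ‖p.1‖ ^ 2 ≤ ‖p‖ ^ 2 := by gcongr
  have h4 : ‖p.2‖ ^ 2 ≤ ‖p‖ ^ 2 := by gcongr
  have h5 : 0 ≤ ‖p‖ ^ 2 := by positivity
  linarith

lemma arch_wd_le (p q : ℂ × ℂ) : ‖wd p q‖ ≤ en2 p * en2 q := by
  unfold en2
  rw [← Real.sqrt_mul (nn_nonneg p)]
  apply Real.le_sqrt_of_sq_le
  rw [← Complex.normSq_eq_norm_sq, ← lagrange_id]
  have := hh_nonneg p q
  linarith

/-- Estimates for the test function of a disc. -/
lemma arch_test {ε1 ε2 : ℝ} (h2 : 0 < ε2) (h12 : ε2 ≤ ε1) (h1 : ε1 ≤ 1) :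
    ∃ M1 M2 : ℕ, (M2 : ℝ) ≤ (ε2 ^ 2)⁻¹ ∧ (ε1 ^ 2)⁻¹ ≤ M1 ∧
      (∀ p q, kerS (Ico M1 M2) p q ≤ Real.log (ε1 / ε2)) ∧
      (∀ p q, p ≠ 0 → q ≠ 0 → ‖wd p q‖ / (en2 p * en2 q) ≤ ε2 →
        Real.log (ε1 / ε2) - 4 * Real.log 2 ≤ kerS (Ico M1 M2) p q) := by
  have hε1 : 0 < ε1 := h2.trans_le h12
  have hlog2 := Real.log_two_gt_d9
  have l12 : 0 ≤ Real.log (ε1 / ε2) := Real.log_nonneg ((one_le_div h2).mpr h12)
  have hlog : Real.log (ε1 / ε2) = Real.log ε1 - Real.log ε2 := Real.log_div hε1.ne' h2.ne'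
  set A1 : ℝ := (ε1 ^ 2)⁻¹ with hA1
  set A2 : ℝ := (ε2 ^ 2)⁻¹ with hA2
  have hA1pos : 0 < A1 := by positivity
  have hA2pos : 0 < A2 := by positivity
  have hA11 : 1 ≤ A1 := by
    rw [hA1]
    apply one_le_inv_iff₀.mpr
    exact ⟨by positivity, by nlinarith⟩
  have hlA1 : Real.log A1 = - (2 * Real.log ε1) := by
    rw [hA1, Real.log_inv, Real.log_pow]; norm_num
  have hlA2 : Real.log A2 = - (2 * Real.log ε2) := by
    rw [hA2, Real.log_inv, Real.log_pow]; norm_num
  have hM1 : A1 ≤ (⌈A1⌉₊ : ℝ) := Nat.le_ceil _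
  have hM1' : (⌈A1⌉₊ : ℝ) < A1 + 1 := Nat.ceil_lt_add_one hA1pos.le
  have hM2 : (⌊A2⌋₊ : ℝ) ≤ A2 := Nat.floor_le hA2pos.le
  have hM2' : A2 < (⌊A2⌋₊ : ℝ) + 1 := Nat.lt_floor_add_one _
  have hM11 : 1 ≤ ⌈A1⌉₊ := by
    have : (1 : ℝ) ≤ (⌈A1⌉₊ : ℝ) := hA11.trans hM1
    exact_mod_cast this
  refine ⟨⌈A1⌉₊, ⌊A2⌋₊, hM2, hM1, ?_, ?_⟩
  · intro p q
    refine (kerS_le_sum _ p q).trans ?_
    rcases le_or_gt ⌈A1⌉₊ ⌊A2⌋₊ with h | h
    · have h3 := sum_inv_le hM11 h
      have h4 : Real.log (⌊A2⌋₊ : ℝ) ≤ Real.log A2 := by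
        apply Real.log_le_log _ hM2
        have : 1 ≤ ⌊A2⌋₊ := hM11.trans h
        exact_mod_cast this
      have h5 : Real.log A1 ≤ Real.log (⌈A1⌉₊ : ℝ) := Real.log_le_log hA1pos hM1
      rw [hlog]
      linarith
    · rw [Finset.Ico_eq_empty (by omega)]
      simpa using l12
  · intro p q hp hq hpq
    have h0 : 0 ≤ ‖wd p q‖ / (en2 p * en2 q) := by
      unfold en2
      positivity
    have h3 := kerS_Ico_near (M1 := ⌈A1⌉₊) (M2 := ⌊A2⌋₊) hp hq (h12.trans h1) hpq
    have h4 : (⌊A2⌋₊ : ℝ) * ε2 ^ 2 ≤ 1 := by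
      calc (⌊A2⌋₊ : ℝ) * ε2 ^ 2 ≤ A2 * ε2 ^ 2 := by gcongr
        _ = 1 := by rw [hA2]; field_simp
    have h6 : Real.log A2 ≤ Real.log ((⌊A2⌋₊ : ℝ) + 1) := Real.log_le_log hA2pos hM2'.le
    have h7 : Real.log ((⌈A1⌉₊ : ℝ) + 1) ≤ Real.log 3 + Real.log A1 := by
      rw [← Real.log_mul (by norm_num) hA1pos.ne']
      apply Real.log_le_log (by positivity)
      linarith
    have h8 : Real.log 3 ≤ 2 * Real.log 2 := by
      have : Real.log 3 ≤ Real.log ((2 : ℝ) ^ 2) := Real.log_le_log (by norm_num) (by norm_num)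
      rwa [Real.log_pow] at this
    rcases le_or_gt ⌈A1⌉₊ ⌊A2⌋₊ with h | h
    · have h5 := sum_inv_ge h
      rw [hlog]
      linarith
    · have h9 : 0 ≤ kerS (Ico ⌈A1⌉₊ ⌊A2⌋₊) p q := kerS_nonneg _ _ _
      have h10 : Real.log ((⌊A2⌋₊ : ℝ) + 1) ≤ Real.log ((⌈A1⌉₊ : ℝ) + 1) := by
        apply Real.log_le_log (by positivity)
        have : (⌊A2⌋₊ : ℝ) ≤ ⌈A1⌉₊ := by exact_mod_cast h.le
        linarith
      rw [hlog]
      linarith

/-- The metric properties of the field of complex numbers. -/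
noncomputable def geoArch : Geo ℂ where
  k := Real.log 2
  k_nonneg := Real.log_nonneg (by norm_num)
  add_le a b := by
    rw [Real.exp_log (by norm_num)]
    have h1 := norm_add_le a b
    have h2 := le_max_left ‖a‖ ‖b‖
    have h3 := le_max_right ‖a‖ ‖b‖
    linarith
  nrm p := en2 p
  nrm_ge := norm_le_en2
  nrm_le := en2_le
  wd_le := arch_wd_le
  generic := arch_generic
  dense a b ha hab := by
    refine ⟨(((a + b) / 2 : ℝ) : ℂ), ?_, ?_⟩
    · rw [Complex.norm_real, Real.norm_eq_abs, abs_of_pos (by linarith)]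
      linarith
    · rw [Complex.norm_real, Real.norm_eq_abs, abs_of_pos (by linarith)]
      linarith
  base := arch_base
  kernel := by
    intro ε N hε hε1 hN
    have hlog2 := Real.log_two_gt_d9
    have hN1 : (1 : ℝ) ≤ N := by exact_mod_cast hN
    have hlogN : 0 ≤ Real.log N := Real.log_nonneg hN1
    set A : ℝ := (ε ^ 2)⁻¹ with hA
    have hApos : 0 < A := by positivity
    have hA1 : 1 ≤ A := by
      rw [hA]
      apply one_le_inv_iff₀.mpr
      exact ⟨by positivity, by nlinarith⟩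
    set M : ℕ := ⌈A⌉₊ * N with hM
    have hce : A ≤ (⌈A⌉₊ : ℝ) := Nat.le_ceil _
    have hce' : (⌈A⌉₊ : ℝ) ≤ 2 * A := by
      have := Nat.ceil_lt_add_one hApos.le
      linarith
    have hMA : A * N ≤ M := by
      rw [hM]
      push_cast
      gcongr
    have hMA' : (M : ℝ) ≤ 2 * A * N := by
      rw [hM]
      push_cast
      gcongr
    have hM1 : (1 : ℝ) ≤ M := by
      calc (1 : ℝ) ≤ A * N := one_le_mul_of_one_le_of_one_le hA1 hN1
        _ ≤ M := hMA
    have hM1' : 1 ≤ M := by exact_mod_cast hM1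
    have hlA : Real.log A = - (2 * Real.log ε) := by
      rw [hA, Real.log_inv, Real.log_pow]; norm_num
    have hlogM : Real.log M ≤ Real.log 2 - 2 * Real.log ε + Real.log N := by
      have h1 := Real.log_le_log (by linarith) hMA'
      rw [Real.log_mul (by positivity) (by positivity), Real.log_mul (by norm_num) hApos.ne',
        hlA] at h1
      linarith
    refine ⟨kerS (range M), ?_, ?_, ?_, ?_, ?_, ?_⟩
    · intro p q _ _
      exact kerS_symm _ _ _
    · intro p q h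
      exact kerS_le_of_wd _ h
    · intro p q _ _
      have h1 := kerS_le_sum (range M) p q
      have h2 := sum_inv_range_le hM1'
      nlinarith
    · intro p q hp hq h
      have h1 := kerS_range_ge (M := M) hp hq hε h
      have h2 : 1 / 2 * (1 / (((M : ℝ) + 1) * ε ^ 2)) ≤ 4 * Real.log 2 / N := by
        have h3 : (N : ℝ) ≤ ((M : ℝ) + 1) * ε ^ 2 := by
          have h4 : A * ε ^ 2 = 1 := by rw [hA]; field_simp
          have h5 : A * N * ε ^ 2 ≤ ((M : ℝ) + 1) * ε ^ 2 := by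
            have : A * N ≤ (M : ℝ) + 1 := by linarith
            gcongr
          calc (N : ℝ) = (A * ε ^ 2) * N := by rw [h4, one_mul]
            _ = A * N * ε ^ 2 := by ring
            _ ≤ _ := h5
        have h4 : 1 / (((M : ℝ) + 1) * ε ^ 2) ≤ 1 / N := by gcongr
        have h5 : 1 / 2 * (1 / (N : ℝ)) ≤ 4 * Real.log 2 / N := by
          rw [mul_one_div]
          gcongr
          linarith
        linarith
      linarith
    · intro I s P σ _
      exact (kerS_PK _).nonneg s P σ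
    · intro ε1 ε2 h2 h12 h1 α hα
      have hε2 : 0 < ε2 := hε.trans_le h2
      have hε1' : 0 < ε1 := hε2.trans_le h12
      obtain ⟨M1, M2, hM2, hM1'', hup, hnear⟩ := arch_test hε2 h12 h1
      have hM2M : M2 ≤ M := by
        have h3 : (M2 : ℝ) ≤ M := by
          refine hM2.trans ?_
          have h4 : (ε2 ^ 2)⁻¹ ≤ A := by
            rw [hA]
            gcongr
          have h5 : A * 1 ≤ A * N := by gcongr
          linarith
        exact_mod_cast h3
      refine ⟨fun p => kerS (Ico M1 M2) p α, ?_, ?_, ?_, ?_⟩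
      · intro p _
        refine ⟨kerS_nonneg _ _ _, (hup p α).trans ?_⟩
        linarith
      · intro p hp h3
        exact hnear p α hp hα h3
      · intro p hp h3
        refine (kerS_Ico_far hp hα hε1' h3).trans ?_
        have h4 : 1 ≤ ((M1 : ℝ) + 1) * ε1 ^ 2 := by
          have h5 : (ε1 ^ 2)⁻¹ * ε1 ^ 2 = 1 := by field_simp
          have h6 : (ε1 ^ 2)⁻¹ * ε1 ^ 2 ≤ ((M1 : ℝ) + 1) * ε1 ^ 2 := by
            have : (ε1 ^ 2)⁻¹ ≤ (M1 : ℝ) + 1 := by linarith
            gcongr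
          linarith
        have h5 : 1 / (((M1 : ℝ) + 1) * ε1 ^ 2) ≤ 1 := by
          rw [div_le_one (by linarith)]
          exact h4
        linarith
      · intro I s P σ _
        have h3 := (kerS_PK (Ico M1 M2)).test s P σ α
        have h4 : ∑ i ∈ s, ∑ j ∈ s, σ i * σ j * kerS (Ico M1 M2) (P i) (P j) ≤
            ∑ i ∈ s, ∑ j ∈ s, σ i * σ j * kerS (range M) (P i) (P j) := by
          have h5 := (kerS_PK (range M \ Ico M1 M2)).nonneg s P σ
          have h6 : ∀ p q, kerS (range M) p q =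
              kerS (range M \ Ico M1 M2) p q + kerS (Ico M1 M2) p q := by
            intro p q
            unfold kerS
            rw [← mul_add, Finset.sum_sdiff]
            intro m hm
            rw [Finset.mem_Ico] at hm
            rw [Finset.mem_range]
            omega
          simp only [h6, mul_add, Finset.sum_add_distrib]
          linarith
        have h5 : 0 ≤ ∑ i ∈ s, ∑ j ∈ s, σ i * σ j * kerS (range M) (P i) (P j) :=
          (kerS_PK _).nonneg s P σ
        have h6 : 0 ≤ ∑ i ∈ s, ∑ j ∈ s, σ i * σ j * kerS (Ico M1 M2) (P i) (P j) :=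
          (kerS_PK _).nonneg s P σ
        have h7 := hup α α
        have h8 : 0 ≤ kerS (Ico M1 M2) α α := kerS_nonneg _ _ _
        refine h3.trans ?_
        have h9 : kerS (Ico M1 M2) α α ≤ Real.log (ε1 / ε2) + 4 * Real.log 2 := by linarith
        exact mul_le_mul h9 h4 h6 (by linarith)

end

end Pool.Agent.UBC90787a
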