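import Pool.Agent.Lib.MP_90787a_nt.RF.Wedge
import Pool.Agent.Lib.MP_90787a_nt.Energy

set_option autoImplicit false
set_option linter.unusedSectionVars false

/-!
The metric properties of algebraically closed ultrametric fields.
-/

namespace Pool.Agent.UBC90787a

open Finset

section psd

variable {V I : Type} {S : Set V} {δ : V → V → ℝ}

open Classical in
lemma sq_sum_disc_le_gen (hself : ∀ x ∈ S, δ x x = 0) (hsymm : ∀ x ∈ S, ∀ y ∈ S, δ x y = δ y x)
    (hult : ∀ x ∈ S, ∀ y ∈ S, ∀ z ∈ S, δ x z ≤ max (δ x y) (δ y z))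
    (s : Finset I) {P : I → V} (hP : ∀ i ∈ s, P i ∈ S) (σ : I → ℝ) {z : V} (hz : z ∈ S)
    {ρ : ℝ} (hρ : 0 ≤ ρ) :
    (∑ i ∈ s.filter (fun i => δ (P i) z ≤ ρ), σ i) ^ 2 ≤
      ∑ i ∈ s, ∑ j ∈ s, σ i * σ j * (if δ (P i) (P j) ≤ ρ then 1 else 0) := by
  set c : I → Finset I := fun i => s.filter (fun j => δ (P i) (P j) ≤ ρ) with hc
  have htrans : ∀ x ∈ S, ∀ y ∈ S, ∀ w ∈ S, δ x y ≤ ρ → δ y w ≤ ρ → δ x w ≤ ρ := by
    intro x hx y hy w hw h1 h2
    exact (hult x hx y hy w hw).trans (max_le h1 h2)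
  have hiff : ∀ p ∈ s, ∀ p' ∈ s, (δ (P p) (P p') ≤ ρ ↔ c p' = c p) := by
    intro p hp p' hp'
    constructor
    · intro h
      ext q
      simp only [hc, Finset.mem_filter]
      refine and_congr_right (fun hq => ?_)
      refine ⟨fun h1 => htrans _ (hP _ hp) _ (hP _ hp') _ (hP _ hq) h h1, fun h1 => ?_⟩
      refine htrans _ (hP _ hp') _ (hP _ hp) _ (hP _ hq) ?_ h1
      rw [hsymm _ (hP _ hp') _ (hP _ hp)]
      exact h
    · intro h
      have h1 : p' ∈ c p' := by
        simp only [hc, Finset.mem_filter]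
        exact ⟨hp', by rw [hself _ (hP _ hp')]; exact hρ⟩
      rw [h] at h1
      exact (Finset.mem_filter.mp h1).2
  have hsq : ∑ p ∈ s, ∑ p' ∈ s, σ p * σ p' * (if δ (P p) (P p') ≤ ρ then (1 : ℝ) else 0) =
      ∑ C ∈ s.image c, (∑ p ∈ s.filter (fun p => c p = C), σ p) ^ 2 := by
    rw [← Finset.sum_fiberwise_of_maps_to (g := c) (t := s.image c)
      (fun p hp => Finset.mem_image_of_mem c hp)]
    refine Finset.sum_congr rfl (fun C _ => ?_)
    rw [sq, Finset.sum_mul]
    refine Finset.sum_congr rfl (fun p hp => ?_)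
    obtain ⟨hpP, hpC⟩ := Finset.mem_filter.mp hp
    rw [Finset.mul_sum, Finset.sum_filter]
    refine Finset.sum_congr rfl (fun p' hp' => ?_)
    by_cases h : δ (P p) (P p') ≤ ρ
    · rw [if_pos h, if_pos (((hiff p hpP p' hp').mp h).trans hpC), mul_one]
    · rw [if_neg h, mul_zero, if_neg]
      intro h'
      exact h ((hiff p hpP p' hp').mpr (h'.trans hpC.symm))
  rw [hsq]
  rcases Finset.eq_empty_or_nonempty (s.filter (fun p => δ (P p) z ≤ ρ)) with he | ⟨p0, hp0⟩
  · rw [he, Finset.sum_empty]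
    have : (0 : ℝ) ^ 2 = 0 := by norm_num
    rw [this]
    exact Finset.sum_nonneg (fun _ _ => sq_nonneg _)
  · obtain ⟨hp0P, hp0z⟩ := Finset.mem_filter.mp hp0
    have hD : s.filter (fun p => δ (P p) z ≤ ρ) = s.filter (fun p => c p = c p0) := by
      ext q
      simp only [Finset.mem_filter]
      refine and_congr_right (fun hq => ?_)
      rw [← hiff p0 hp0P q hq]
      constructor
      · intro h
        refine htrans _ (hP _ hp0P) z hz _ (hP _ hq) hp0z ?_
        rw [hsymm _ hz _ (hP _ hq)]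
        exact h
      · intro h
        refine htrans _ (hP _ hq) _ (hP _ hp0P) z hz ?_ hp0z
        rw [hsymm _ (hP _ hq) _ (hP _ hp0P)]
        exact h
    rw [hD]
    exact Finset.single_le_sum (f := fun C => (∑ p ∈ s.filter (fun p => c p = C), σ p) ^ 2)
      (fun _ _ => sq_nonneg _) (Finset.mem_image_of_mem c hp0P)

lemma step_int (c s t : ℝ) : IntervalIntegrable
    (fun t => if c ≤ Real.exp t then (1 : ℝ) else 0) MeasureTheory.volume s t := by
  apply Monotone.intervalIntegrable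
  intro s t hst
  by_cases h : c ≤ Real.exp s
  · simp [h, h.trans (Real.exp_le_exp.mpr hst)]
  · simp only [h, if_false]
    split_ifs <;> norm_num

/-- The kernel energy as an integral. -/
lemma kernel_eq_integral (s : Finset I) (P : I → V) (σ : I → ℝ)
    (hδ1 : ∀ i ∈ s, ∀ j ∈ s, δ (P i) (P j) ≤ 1) {ε : ℝ} (hε : 0 < ε) (hε1 : ε ≤ 1) :
    ∫ t in (Real.log ε)..0, (∑ i ∈ s, ∑ j ∈ s, σ i * σ j *
      (if δ (P i) (P j) ≤ Real.exp t then (1 : ℝ) else 0)) =
    ∑ i ∈ s, ∑ j ∈ s, σ i * σ j * (- Real.log (max (δ (P i) (P j)) ε)) := by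
  rw [intervalIntegral.integral_finsetSum]
  · refine Finset.sum_congr rfl (fun p hp => ?_)
    rw [intervalIntegral.integral_finsetSum]
    · refine Finset.sum_congr rfl (fun p' hp' => ?_)
      rw [intervalIntegral.integral_const_mul, integral_step hε, zero_sub]
      apply Real.log_nonpos (le_max_of_le_right hε.le)
      exact max_le (hδ1 p hp p' hp') hε1
    · intro p' _
      exact (step_int _ _ _).const_mul _
  · intro p _
    refine intervalIntegrable_sum' _ _ _ _ (fun p' _ => ?_)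
    exact (step_int _ _ _).const_mul _

lemma kernel_nonneg (hself : ∀ x ∈ S, δ x x = 0) (hsymm : ∀ x ∈ S, ∀ y ∈ S, δ x y = δ y x)
    (hult : ∀ x ∈ S, ∀ y ∈ S, ∀ z ∈ S, δ x z ≤ max (δ x y) (δ y z))
    (s : Finset I) {P : I → V} (hP : ∀ i ∈ s, P i ∈ S) (σ : I → ℝ)
    (hδ1 : ∀ i ∈ s, ∀ j ∈ s, δ (P i) (P j) ≤ 1) {ε : ℝ} (hε : 0 < ε) (hε1 : ε ≤ 1) :
    0 ≤ ∑ i ∈ s, ∑ j ∈ s, σ i * σ j * (- Real.log (max (δ (P i) (P j)) ε)) := by
  rcases Finset.eq_empty_or_nonempty s with rfl | ⟨i0, hi0⟩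
  · simp
  rw [← kernel_eq_integral s P σ hδ1 hε hε1]
  apply intervalIntegral.integral_nonneg (Real.log_nonpos hε.le hε1)
  intro t _
  exact (sq_nonneg _).trans (sq_sum_disc_le_gen hself hsymm hult s hP σ (hP _ hi0)
    (Real.exp_pos t).le)

/-- The Cauchy–Schwarz inequality for the potential of a disc. -/
lemma kernel_test (hself : ∀ x ∈ S, δ x x = 0) (hsymm : ∀ x ∈ S, ∀ y ∈ S, δ x y = δ y x)
    (hult : ∀ x ∈ S, ∀ y ∈ S, ∀ z ∈ S, δ x z ≤ max (δ x y) (δ y z))
    (s : Finset I) {P : I → V} (hP : ∀ i ∈ s, P i ∈ S) (σ : I → ℝ)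
    (hδ1 : ∀ i ∈ s, ∀ j ∈ s, δ (P i) (P j) ≤ 1) {z : V} (hz : z ∈ S)
    {ε ε1 ε2 : ℝ} (hε : 0 < ε) (h2 : ε ≤ ε2) (h12 : ε2 ≤ ε1) (h1 : ε1 ≤ 1) :
    (∑ i ∈ s, σ i * ∫ t in (Real.log ε2)..(Real.log ε1),
      (if δ (P i) z ≤ Real.exp t then (1 : ℝ) else 0)) ^ 2 ≤
    (Real.log ε1 - Real.log ε2) *
      ∑ i ∈ s, ∑ j ∈ s, σ i * σ j * (- Real.log (max (δ (P i) (P j)) ε)) := by
  classical
  have hε2 : 0 < ε2 := hε.trans_le h2
  have hε1 : 0 < ε1 := hε2.trans_le h12
  have l1 : Real.log ε ≤ Real.log ε2 := Real.log_le_log hε h2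
  have l2 : Real.log ε2 ≤ Real.log ε1 := Real.log_le_log hε2 h12
  have l3 : Real.log ε1 ≤ 0 := Real.log_nonpos hε1.le h1
  set a := Real.log ε2 with ha
  set b := Real.log ε1 with hb
  set f : ℝ → ℝ := fun t => ∑ i ∈ s, σ i * (if δ (P i) z ≤ Real.exp t then (1 : ℝ) else 0)
    with hf
  set g : ℝ → ℝ := fun t => ∑ i ∈ s, ∑ j ∈ s, σ i * σ j *
      (if δ (P i) (P j) ≤ Real.exp t then (1 : ℝ) else 0) with hg
  have hfint : ∀ s t : ℝ, IntervalIntegrable f MeasureTheory.volume s t := by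
    intro u v
    rw [hf]
    refine intervalIntegrable_sum' _ _ _ _ (fun p _ => ?_)
    exact (step_int _ u v).const_mul _
  have hgint : ∀ s t : ℝ, IntervalIntegrable g MeasureTheory.volume s t := by
    intro u v
    rw [hg]
    refine intervalIntegrable_sum' _ _ _ _ (fun p _ => ?_)
    refine intervalIntegrable_sum' _ _ _ _ (fun p' _ => ?_)
    exact (step_int _ u v).const_mul _
  have hfg : ∀ t, (f t) ^ 2 ≤ g t := by
    intro t
    have h3 := sq_sum_disc_le_gen hself hsymm hult s hP σ hz (Real.exp_pos t).le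
    refine le_trans (le_of_eq ?_) h3
    rw [hf, Finset.sum_filter]
    congr 1
    refine Finset.sum_congr rfl (fun i _ => ?_)
    split_ifs <;> simp
  have hI : ∑ i ∈ s, σ i * ∫ t in a..b, (if δ (P i) z ≤ Real.exp t then (1 : ℝ) else 0) =
      ∫ t in a..b, f t := by
    rw [hf, intervalIntegral.integral_finsetSum]
    · refine Finset.sum_congr rfl (fun p hp => ?_)
      rw [intervalIntegral.integral_const_mul]
    · intro p _
      exact (step_int _ _ _).const_mul _
  rw [hI]
  set J : ℝ := ∫ t in a..b, f t with hJ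
  have hgab : ∫ t in a..b, g t ≤ ∫ t in (Real.log ε)..0, g t := by
    have s1 : ∫ t in (Real.log ε)..0, g t = (∫ t in (Real.log ε)..a, g t) +
        (∫ t in a..b, g t) + ∫ t in b..0, g t := by
      rw [intervalIntegral.integral_add_adjacent_intervals (hgint _ _) (hgint _ _),
        intervalIntegral.integral_add_adjacent_intervals (hgint _ _) (hgint _ _)]
    have n1 : 0 ≤ ∫ t in (Real.log ε)..a, g t :=
      intervalIntegral.integral_nonneg l1 (fun t _ => (sq_nonneg _).trans (hfg t))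
    have n2 : 0 ≤ ∫ t in b..0, g t :=
      intervalIntegral.integral_nonneg l3 (fun t _ => (sq_nonneg _).trans (hfg t))
    rw [s1]
    linarith
  rw [← kernel_eq_integral s P σ hδ1 hε (h2.trans (h12.trans h1))]
  have hcs : J ^ 2 ≤ (b - a) * ∫ t in a..b, g t := by
    rcases eq_or_lt_of_le l2 with hab | hab
    · rw [hJ, hab]
      simp
    · have h3 : ∫ t in a..b, ((2 * J / (b - a)) * f t - (J / (b - a)) ^ 2) ≤
          ∫ t in a..b, g t := by
        apply intervalIntegral.integral_mono_on l2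
        · exact ((hfint a b).const_mul _).sub (by simp)
        · exact hgint a b
        · intro t _
          refine le_trans ?_ (hfg t)
          have : (2 * J / (b - a)) = 2 * (J / (b - a)) := by ring
          rw [this]
          nlinarith [sq_nonneg (f t - J / (b - a))]
      rw [intervalIntegral.integral_sub ((hfint a b).const_mul _) (by simp),
        intervalIntegral.integral_const_mul, intervalIntegral.integral_const, smul_eq_mul,
        ← hJ] at h3
      have hba : 0 < b - a := by linarith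
      have h4 : 2 * J / (b - a) * J - (b - a) * (J / (b - a)) ^ 2 = J ^ 2 / (b - a) := by
        field_simp
        ring
      rw [h4, div_le_iff₀ hba] at h3
      linarith
  have hba : 0 ≤ b - a := by linarith
  calc J ^ 2 ≤ (b - a) * ∫ t in a..b, g t := hcs
    _ ≤ (b - a) * ∫ t in (Real.log ε)..0, g t := by gcongr

end psd

section field

variable {L : Type} [NormedField L] [IsUltrametricDist L]

lemma ultra_wd_le (p q : L × L) : ‖wd p q‖ ≤ ‖p‖ * ‖q‖ := by
  unfold wd
  rw [sub_eq_add_neg]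
  refine (IsUltrametricDist.norm_add_le_max _ _).trans ?_
  apply max_le
  · rw [norm_mul]
    exact mul_le_mul (norm_fst_le p) (norm_snd_le q) (norm_nonneg _) (norm_nonneg _)
  · rw [norm_neg, norm_mul]
    exact mul_le_mul (norm_snd_le p) (norm_fst_le q) (norm_nonneg _) (norm_nonneg _)

lemma ultra_sub_le (p q : L × L) : ‖p - q‖ ≤ max ‖p‖ ‖q‖ := by
  rw [Prod.norm_def]
  apply max_le
  · rw [Prod.fst_sub, sub_eq_add_neg]
    refine (IsUltrametricDist.norm_add_le_max _ _).trans ?_
    rw [norm_neg]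
    exact max_le_max (norm_fst_le p) (norm_fst_le q)
  · rw [Prod.snd_sub, sub_eq_add_neg]
    refine (IsUltrametricDist.norm_add_le_max _ _).trans ?_
    rw [norm_neg]
    exact max_le_max (norm_snd_le p) (norm_snd_le q)

/-- The projective distance is an ultrametric. -/
lemma ultra_dist_le {x y z : L × L} (hx : x ≠ 0) (hy : y ≠ 0) (hz : z ≠ 0) :
    ‖wd x z‖ / (‖x‖ * ‖z‖) ≤ max (‖wd x y‖ / (‖x‖ * ‖y‖)) (‖wd y z‖ / (‖y‖ * ‖z‖)) := by
  have a1 := norm_pos_iff.mpr hx
  have a2 := norm_pos_iff.mpr hy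
  have a3 := norm_pos_iff.mpr hz
  have h1 : ‖wd x z‖ * ‖y‖ ≤ max (‖wd y z‖ * ‖x‖) (‖wd y x‖ * ‖z‖) := by
    rw [← norm_smul, plucker x z y]
    refine (ultra_sub_le _ _).trans ?_
    rw [norm_smul, norm_smul]
  have h2 : ‖wd x z‖ / (‖x‖ * ‖z‖) = ‖wd x z‖ * ‖y‖ / (‖x‖ * ‖y‖ * ‖z‖) := by
    field_simp
  have h3 : ‖wd x y‖ / (‖x‖ * ‖y‖) = ‖wd y x‖ * ‖z‖ / (‖x‖ * ‖y‖ * ‖z‖) := by
    rw [wd_comm x y, norm_neg]
    field_simp
  have h4 : ‖wd y z‖ / (‖y‖ * ‖z‖) = ‖wd y z‖ * ‖x‖ / (‖x‖ * ‖y‖ * ‖z‖) := by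
    field_simp
  rw [h2, h3, h4]
  rcases le_max_iff.mp h1 with h | h
  · exact le_max_of_le_right (by gcongr)
  · exact le_max_of_le_left (by gcongr)

lemma exists_unit_far [IsAlgClosed L] (c : Finset L) (hc : ∀ x ∈ c, ‖x‖ ≤ 1) :
    ∃ t : L, ‖t‖ = 1 ∧ ∀ x ∈ c, ‖t - x‖ = 1 := by
  classical
  set P : Polynomial L := Polynomial.X * ∏ x ∈ c, (Polynomial.X - Polynomial.C x) - 1 with hP
  have hmon : (Polynomial.X * ∏ x ∈ c, (Polynomial.X - Polynomial.C x)).Monic :=
    Polynomial.monic_X.mul (Polynomial.monic_prod_of_monic _ _ (fun x _ =>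
      Polynomial.monic_X_sub_C x))
  have hdeg : 0 < (Polynomial.X * ∏ x ∈ c, (Polynomial.X - Polynomial.C x)).degree := by
    rw [Polynomial.degree_mul, Polynomial.degree_X]
    have h1 : (0 : WithBot ℕ) ≤ (∏ x ∈ c, (Polynomial.X - Polynomial.C x)).degree := by
      rw [Polynomial.zero_le_degree_iff]
      exact (Polynomial.monic_prod_of_monic _ _ (fun x _ => Polynomial.monic_X_sub_C x)).ne_zero
    calc (0 : WithBot ℕ) < 1 + 0 := by norm_num
      _ ≤ _ := by gcongr
  have hdP : P.degree ≠ 0 := by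
    rw [hP, ← Polynomial.C_1, Polynomial.degree_sub_C hdeg]
    exact hdeg.ne'
  obtain ⟨t, ht⟩ := IsAlgClosed.exists_root P hdP
  have ht' : t * ∏ x ∈ c, (t - x) = 1 := by
    rw [Polynomial.IsRoot.def, hP] at ht
    simp only [Polynomial.eval_sub, Polynomial.eval_mul, Polynomial.eval_X,
      Polynomial.eval_prod, Polynomial.eval_C, Polynomial.eval_one] at ht
    linear_combination ht
  have ht1 : ‖t‖ ≤ 1 := by
    by_contra hlt
    push Not at hlt
    have h1 : ∀ x ∈ c, ‖t - x‖ = ‖t‖ := by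
      intro x hx
      have hne : ‖t‖ ≠ ‖-x‖ := by
        rw [norm_neg]
        exact ((hc x hx).trans_lt hlt).ne'
      rw [sub_eq_add_neg, IsUltrametricDist.norm_add_eq_max_of_norm_ne_norm hne, norm_neg]
      exact max_eq_left ((hc x hx).trans hlt.le)
    have h2 : ‖t * ∏ x ∈ c, (t - x)‖ = ‖t‖ * ‖t‖ ^ c.card := by
      rw [norm_mul, norm_prod, Finset.prod_congr rfl h1, Finset.prod_const]
    rw [ht', norm_one] at h2
    have h3 : 1 ≤ ‖t‖ ^ c.card := one_le_pow₀ hlt.le
    nlinarith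
  have hle : ∀ x ∈ c, ‖t - x‖ ≤ 1 := by
    intro x hx
    rw [sub_eq_add_neg]
    refine (IsUltrametricDist.norm_add_le_max _ _).trans ?_
    rw [norm_neg]
    exact max_le ht1 (hc x hx)
  have hprod : ‖t‖ * ∏ x ∈ c, ‖t - x‖ = 1 := by
    rw [← norm_prod, ← norm_mul, ht', norm_one]
  have hp1 : ∏ x ∈ c, ‖t - x‖ ≤ 1 :=
    Finset.prod_le_one (fun x _ => norm_nonneg _) hle
  have hp0 : 0 ≤ ∏ x ∈ c, ‖t - x‖ := Finset.prod_nonneg (fun x _ => norm_nonneg _)
  have htt : ‖t‖ = 1 := by
    have := norm_nonneg t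
    nlinarith
  refine ⟨t, htt, ?_⟩
  intro x hx
  rw [htt, one_mul, ← Finset.mul_prod_erase _ _ hx] at hprod
  have h1 : ∏ y ∈ c.erase x, ‖t - y‖ ≤ 1 :=
    Finset.prod_le_one (fun x _ => norm_nonneg _) (fun y hy => hle y (Finset.mem_of_mem_erase hy))
  have h2 := hle x hx
  have h3 := norm_nonneg (t - x)
  have h4 : 0 ≤ ∏ y ∈ c.erase x, ‖t - y‖ := Finset.prod_nonneg (fun x _ => norm_nonneg _)
  nlinarith

lemma exists_units_far [IsAlgClosed L] (c : Finset L) (hc : ∀ x ∈ c, ‖x‖ ≤ 1) (T : ℕ) :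
    ∃ t : Fin T → L, (∀ j, ‖t j‖ = 1) ∧ (∀ i j, i ≠ j → ‖t i - t j‖ = 1) ∧
      ∀ x ∈ c, ∀ j, ‖t j - x‖ = 1 := by
  classical
  induction T with
  | zero =>
    exact ⟨Fin.elim0, fun j => j.elim0, fun j => j.elim0, fun _ _ j => j.elim0⟩
  | succ T ih =>
    obtain ⟨t, h1, h2, h3⟩ := ih
    obtain ⟨s, hs1, hs2⟩ := exists_unit_far (c ∪ univ.image t) (by
      intro x hx
      rcases Finset.mem_union.mp hx with hx | hx
      · exact hc x hx
      · obtain ⟨j, _, rfl⟩ := Finset.mem_image.mp hx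
        exact (h1 j).le)
    have hs3 : ∀ j, ‖s - t j‖ = 1 := fun j =>
      hs2 _ (Finset.mem_union_right _ (Finset.mem_image_of_mem _ (Finset.mem_univ j)))
    refine ⟨Fin.cons s t, ?_, ?_, ?_⟩
    · intro j
      refine Fin.cases ?_ (fun j => ?_) j
      · simpa using hs1
      · simpa using h1 j
    · intro i j
      refine Fin.cases ?_ (fun i => ?_) i
      · refine Fin.cases ?_ (fun j => ?_) j
        · intro h
          exact absurd rfl h
        · intro _
          simpa using hs3 j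
      · refine Fin.cases ?_ (fun j => ?_) j
        · intro _
          simp only [Fin.cons_succ, Fin.cons_zero]
          rw [norm_sub_rev]
          exact hs3 i
        · intro h
          simp only [Fin.cons_succ]
          exact h2 i j (fun h' => h (by rw [h']))
    · intro x hx j
      refine Fin.cases ?_ (fun j => ?_) j
      · simpa using hs2 x (Finset.mem_union_left _ hx)
      · simpa using h3 x hx j

/-- The centre attached to a vector. -/
noncomputable def ctr (z : L × L) : L := if ‖z.1‖ ≤ ‖z.2‖ then z.1 / z.2 else 0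

lemma norm_ctr_le (z : L × L) : ‖ctr z‖ ≤ 1 := by
  unfold ctr
  split_ifs with h
  · rw [norm_div]
    exact div_le_one_of_le₀ h (norm_nonneg _)
  · simp

lemma norm_wd_of_far {z : L × L} (hz : z ≠ 0) {t : L} (ht : ‖t‖ = 1)
    (htz : ‖t - ctr z‖ = 1) : ‖wd (t, 1) z‖ = ‖z‖ := by
  unfold wd
  simp only [one_mul]
  unfold ctr at htz
  split_ifs at htz with h
  · have h2 : z.2 ≠ 0 := by
      intro h0
      rw [h0, norm_zero] at h
      exact hz (Prod.ext (norm_le_zero_iff.mp h) h0)
    have e : t * z.2 - z.1 = (t - z.1 / z.2) * z.2 := by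
      field_simp
    rw [e, norm_mul, htz, one_mul, Prod.norm_def, max_eq_right h]
  · push Not at h
    have hne : ‖t * z.2‖ ≠ ‖-z.1‖ := by
      rw [norm_neg, norm_mul, ht, one_mul]
      exact h.ne
    rw [sub_eq_add_neg, IsUltrametricDist.norm_add_eq_max_of_norm_ne_norm hne, norm_neg,
      norm_mul, ht, one_mul, Prod.norm_def, max_comm]

lemma ultra_dense [IsAlgClosed L] (hnt : ∃ x : L, 1 < ‖x‖) (a b : ℝ) (ha : 0 < a) (hab : a < b) :
    ∃ e : L, a < ‖e‖ ∧ ‖e‖ < b := by
  obtain ⟨x, hx⟩ := hnt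
  have hr : 0 < Real.log ‖x‖ := Real.log_pos hx
  have hx0 : 0 < ‖x‖ := by linarith
  have h1 : Real.log a / Real.log ‖x‖ < Real.log b / Real.log ‖x‖ := by
    have := Real.log_lt_log ha hab
    gcongr
  obtain ⟨q, hq1, hq2⟩ := exists_rat_btwn h1
  have hden : 0 < q.den := q.den_pos
  obtain ⟨e, he⟩ := IsAlgClosed.exists_pow_nat_eq (x ^ q.num) hden
  have hepos : 0 < ‖e‖ := by
    rw [norm_pos_iff]
    rintro rfl
    rw [zero_pow hden.ne'] at he
    exact zpow_ne_zero _ (norm_pos_iff.mp hx0) he.symm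
  have h2 : Real.log ‖e‖ = q * Real.log ‖x‖ := by
    have h3 := congrArg (fun y => Real.log ‖y‖) he
    simp only [norm_pow, norm_zpow, Real.log_pow, Real.log_zpow] at h3
    have h4 : (q : ℝ) = q.num / q.den := by exact_mod_cast (Rat.num_div_den q).symm
    have h5 : (0 : ℝ) < q.den := by exact_mod_cast hden
    rw [h4, div_mul_eq_mul_div, eq_div_iff h5.ne', mul_comm]
    exact h3
  refine ⟨e, ?_, ?_⟩
  · rw [← Real.log_lt_log_iff ha hepos, h2]
    rwa [div_lt_iff₀ hr] at hq1
  · rw [← Real.log_lt_log_iff hepos (ha.trans hab), h2]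
    rwa [lt_div_iff₀ hr] at hq2

/-- The metric properties of algebraically closed ultrametric fields. -/
noncomputable def geoUltra (L : Type) [NormedField L] [IsUltrametricDist L] [IsAlgClosed L]
    (hnt : ∃ x : L, 1 < ‖x‖) : Geo L where
  k := 0
  k_nonneg := le_rfl
  add_le a b := by
    rw [Real.exp_zero, one_mul]
    exact IsUltrametricDist.norm_add_le_max _ _
  nrm p := ‖p‖
  nrm_ge p := le_rfl
  nrm_le p := by rw [Real.exp_zero, one_mul]
  wd_le := ultra_wd_le
  generic := by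
    classical
    intro n z hz η hη
    obtain ⟨t, ht1, ht2⟩ := exists_unit_far (univ.image (fun i => ctr (z i))) (by
      intro x hx
      obtain ⟨j, _, rfl⟩ := Finset.mem_image.mp hx
      exact norm_ctr_le _)
    have h1 : ∀ i, ‖wd (t, 1) (z i)‖ = ‖z i‖ := fun i =>
      norm_wd_of_far (hz i) ht1 (ht2 _ (Finset.mem_image_of_mem _ (Finset.mem_univ i)))
    refine ⟨(t, 1), ?_, ?_, ?_⟩
    · rw [Prod.norm_def]
      simp [ht1]
    · intro i
      rw [← norm_pos_iff, h1]
      exact norm_pos_iff.mpr (hz i)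
    · simp only [h1]
      linarith
  dense := ultra_dense hnt
  base := by
    classical
    intro T N hT x hx
    obtain ⟨t, ht1, ht2, ht3⟩ := exists_units_far (univ.image (fun i => ctr (x i))) (by
      intro y hy
      obtain ⟨j, _, rfl⟩ := Finset.mem_image.mp hy
      exact norm_ctr_le _) T
    have h1 : ∀ i j, i ≠ j → ‖wd ((t i, 1) : L × L) (t j, 1)‖ = 1 := by
      intro i j hij
      unfold wd
      simp only [mul_one, one_mul]
      exact ht2 i j hij
    refine ⟨fun j => (t j, 1), ?_, ?_, ?_, ?_, ?_⟩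
    · intro j
      rw [Prod.norm_def]
      simp [ht1]
    · intro i j hij
      rw [← norm_pos_iff, h1 i j hij]
      exact one_pos
    · intro i
      apply Finset.sum_nonneg
      intro j hj
      rw [h1 i j (Finset.ne_of_mem_erase hj).symm, Real.log_one]
    · intro i j
      simp only [mul_zero, zero_mul, neg_zero, Real.exp_zero, one_mul]
      rw [wd_comm, norm_neg, norm_wd_of_far (hx i) (ht1 j)
        (ht3 _ (Finset.mem_image_of_mem _ (Finset.mem_univ i)) j)]
    · intro s hT16 hs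
      have h2 : 1 < s.card := by omega
      obtain ⟨i, hi, j, hj, hij⟩ := Finset.one_lt_card.mp h2
      refine ⟨i, hi, j, hj, ?_⟩
      rw [h1 i j hij]
      simp
  kernel := by
    intro ε N hε hε1 hN
    set δ : L × L → L × L → ℝ := fun p q => ‖wd p q‖ / (‖p‖ * ‖q‖) with hδ
    have hδ1 : ∀ p q, δ p q ≤ 1 := by
      intro p q
      exact div_le_one_of_le₀ (ultra_wd_le p q) (by positivity)
    have hδ0 : ∀ p q, 0 ≤ δ p q := fun p q => by positivity
    have hself : ∀ x ∈ {x : L × L | x ≠ 0}, δ x x = 0 := by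
      intro x _
      simp [hδ, wd_self]
    have hsymm : ∀ x ∈ {x : L × L | x ≠ 0}, ∀ y ∈ {x : L × L | x ≠ 0}, δ x y = δ y x := by
      intro x _ y _
      simp only [hδ]
      rw [wd_comm, norm_neg, mul_comm]
    have hult : ∀ x ∈ {x : L × L | x ≠ 0}, ∀ y ∈ {x : L × L | x ≠ 0},
        ∀ z ∈ {x : L × L | x ≠ 0}, δ x z ≤ max (δ x y) (δ y z) := by
      intro x hx y hy z hz
      exact ultra_dist_le hx hy hz
    refine ⟨fun p q => - Real.log (max (δ p q) ε), ?_, ?_, ?_, ?_, ?_, ?_⟩
    · intro p q hp hq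
      show - Real.log (max (δ p q) ε) = - Real.log (max (δ q p) ε)
      rw [hsymm p hp q hq]
    · intro p q hpq
      show - Real.log (max (δ p q) ε) ≤ - Real.log (δ p q)
      have h1 : 0 < δ p q := by
        have a1 := norm_pos_iff.mpr hpq
        have a2 := norm_pos_iff.mpr (left_ne_zero hpq)
        have a3 := norm_pos_iff.mpr (right_ne_zero hpq)
        positivity
      exact neg_le_neg (Real.log_le_log h1 (le_max_left _ _))
    · intro p q _ _
      simp only [mul_zero, zero_mul, add_zero]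
      exact neg_le_neg (Real.log_le_log hε (le_max_right _ _))
    · intro p q _ _ h1
      show - Real.log (δ p q) - 4 * 0 / (N : ℝ) ≤ - Real.log (max (δ p q) ε)
      have h2 : max (δ p q) ε = δ p q := max_eq_left h1
      rw [h2]
      simp
    · intro I s P σ hP
      exact kernel_nonneg hself hsymm hult s hP σ (fun i _ j _ => hδ1 _ _) hε hε1
    · intro ε1 ε2 h2 h12 h1 α hα
      have hε2 : 0 < ε2 := hε.trans_le h2
      have hε1' : 0 < ε1 := hε2.trans_le h12
      have l2 : Real.log ε2 ≤ Real.log ε1 := Real.log_le_log hε2 h12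
      have hlog : Real.log (ε1 / ε2) = Real.log ε1 - Real.log ε2 :=
        Real.log_div hε1'.ne' hε2.ne'
      refine ⟨fun p => ∫ t in (Real.log ε2)..(Real.log ε1),
        (if δ p α ≤ Real.exp t then (1 : ℝ) else 0), ?_, ?_, ?_, ?_⟩
      · intro p _
        constructor
        · apply intervalIntegral.integral_nonneg l2
          intro t _
          split_ifs <;> norm_num
        · rw [hlog]
          have h3 : ∫ t in (Real.log ε2)..(Real.log ε1), (if δ p α ≤ Real.exp t then (1 : ℝ) else 0)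
              ≤ ∫ _t in (Real.log ε2)..(Real.log ε1), (1 : ℝ) := by
            apply intervalIntegral.integral_mono_on l2 (step_int _ _ _) (by simp)
            intro t _
            split_ifs <;> norm_num
          simpa using h3
      · intro p _ h3
        have h4 : ∫ t in (Real.log ε2)..(Real.log ε1), (if δ p α ≤ Real.exp t then (1 : ℝ) else 0)
            = ∫ _t in (Real.log ε2)..(Real.log ε1), (1 : ℝ) := by
          rw [intervalIntegral.integral_congr_Ioo_of_le l2]
          intro t ht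
          have h5 : ε2 < Real.exp t := by
            rw [← Real.exp_log hε2]
            exact Real.exp_lt_exp.mpr ht.1
          have h6 : δ p α ≤ Real.exp t := le_trans h3 h5.le
          simp [h6]
        beta_reduce
        rw [h4, hlog]
        simp
      · intro p _ h3
        have h4 : ∫ t in (Real.log ε2)..(Real.log ε1), (if δ p α ≤ Real.exp t then (1 : ℝ) else 0)
            = ∫ _t in (Real.log ε2)..(Real.log ε1), (0 : ℝ) := by
          rw [intervalIntegral.integral_congr_Ioo_of_le l2]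
          intro t ht
          have h5 : Real.exp t < ε1 := by
            rw [← Real.exp_log hε1']
            exact Real.exp_lt_exp.mpr ht.2
          have h6 : ¬ δ p α ≤ Real.exp t := not_le.mpr (lt_of_lt_of_le h5 h3)
          simp [h6]
        beta_reduce
        rw [h4]
        simp
      · intro I s P σ hP
        have h3 := kernel_test hself hsymm hult s hP σ (fun i _ j _ => hδ1 _ _) hα hε h2 h12 h1
        rw [mul_zero, add_zero, hlog]
        exact h3

end field

end Pool.Agent.UBC90787a
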