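import Pool.Agent.Lib.MP_90787a_nt.RF.Lift
import Pool.Agent.Lib.MP_90787a_nt.RF.GeoUltra
import Pool.Agent.Lib.MP_90787a_nt.RF.GeoArch
import Pool.Agent.Lib.MP_90787a_nt.Places

set_option autoImplicit false
set_option linter.unusedSectionVars false

/-!
The weights of the places and the local estimates.
-/

namespace Pool.Agent.UBC90787a

open Finset Polynomial NumberField

section basic

variable {K : Type} [Field K]

lemma finWeight_nonneg (v : K → ℝ) (p q : K[X]) (d : ℕ) : 0 ≤ finWeight v p q d :=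
  Real.sInf_nonneg (fun _ h => h.1)

lemma archWeight_nonneg (ι : K →+* ℂ) (p q : K[X]) (d : ℕ) : 0 ≤ archWeight ι p q d :=
  Real.sInf_nonneg (fun _ h => h.1)

/-- The total local energy. -/
noncomputable def totE (v : K → ℝ) (Res : K) (d : ℕ) (μ : K → K) (e : K → ℝ) (Y : Finset K) : ℝ :=
  letI := Classical.decEq K
  ∑ q ∈ Y.offDiag, prE v Res d μ e q.1 q.2

lemma totE_eq_en {L : Type} [NormedField L] {v : K → ℝ} {Res : K} {d : ℕ} {μ : K → K}
    {e : K → ℝ} {Z Y : Finset K} (hY : Y ⊆ Z) {P : K → L × L}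
    (hP : ∀ x ∈ Z, ∀ y ∈ Z, x ≠ y → wd (P x) (P y) ≠ 0 ∧
        Real.log ‖wd (P x) (P y)‖ = prE v Res d μ e x y) :
    letI := Classical.decEq K
    totE v Res d μ e Y = en P Y := by
  classical
  unfold totE en
  refine Finset.sum_congr rfl (fun q hq => ?_)
  have hq' := Finset.mem_offDiag.mp hq
  exact (hP _ (hY hq'.1) _ (hY hq'.2.1) hq'.2.2).2.symm

end basic

section local_estimates

variable {K : Type} [Field K] {p q : K[X]} {d : ℕ}

/-- The number of iterations. -/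
lemma exists_n0 (hd : 2 ≤ d) : ∃ n : ℕ, 2 ≤ n ∧ 10 ^ 7 * (d : ℝ) ^ 2 ≤ (d : ℝ) ^ n := by
  refine ⟨26, by norm_num, ?_⟩
  have hdR : (2 : ℝ) ≤ d := by exact_mod_cast hd
  have h1 : (2 : ℝ) ^ 24 ≤ (d : ℝ) ^ 24 := by gcongr
  calc 10 ^ 7 * (d : ℝ) ^ 2 ≤ 2 ^ 24 * (d : ℝ) ^ 2 := by
        have : (10 : ℝ) ^ 7 ≤ 2 ^ 24 := by norm_num
        gcongr
    _ ≤ (d : ℝ) ^ 24 * (d : ℝ) ^ 2 := by gcongr
    _ = (d : ℝ) ^ 26 := by rw [← pow_add]

/-- Local estimates for a given field. -/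
theorem local_field {L : Type} [NormedField L] [IsAlgClosed L] (G : Geo L) {ι : K →+* L}
    {v : K → ℝ} (hv : ∀ x, ‖ι x‖ = v x) (hd : 2 ≤ d) (hp : p.natDegree ≤ d)
    (hq : q.natDegree ≤ d) (hres : resultant p q d d ≠ 0) (Z : Finset K) {i j : K → ℕ} {μ : K → K}
    (hZ : ∀ x ∈ Z, PData p q d x (i x) (j x) (μ x)) {W : ℝ}
    (hW : W = sInf {ρ : ℝ | 0 ≤ ρ ∧ SizeAtMost ι p q d ρ}) {e : K → ℝ}
    (he : e = fun x => (d : ℝ) ^ i x - (d : ℝ) ^ j x) {Res : K} (hRes : Res = resultant p q d d) :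
    (∃ ρ : ℝ, 0 ≤ ρ ∧ SizeAtMost ι p q d ρ) ∧
    (∀ Y ⊆ Z, totE v Res d μ e Y ≤ 100 * d * (W + G.k) * ell Y.card) ∧
    (∀ x ∈ Z, ∀ y ∈ Z, x ≠ y → prE v Res d μ e x y ≤ 4 * d * W + (2 * d + 1) * G.k) ∧
    (0 < W → 819200 * d * G.k ≤ W → ∃ cl : K → Option (Fin (d ^ 26)), ∀ Y ⊆ Z, ∀ o,
      (∀ x ∈ Y, cl x = o) → totE v Res d μ e Y ≤
        W * (- (1 / (3276800 * d)) * (Y.card : ℝ) ^ 2 + 2 * KC d 26 * ell Y.card)) := by
  classical
  obtain ⟨γ, hγ⟩ := exists_gamma (ι := ι) (p := p) (q := q) (show 1 ≤ d by omega) hres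
  have hset := sizeSet_eq (ι := ι) (p := p) (q := q) hγ (by omega)
  have hne := sizeSet_nonempty (ι := ι) (p := p) (q := q) (d := d) γ
  have hγ' : ‖γ‖ ^ (2 * d) * ‖resultant (p.map ι) (q.map ι) d d‖ = 1 := by
    rw [resultant_map_map]
    exact hγ
  have hU := umap_of_res_smul (d := d) (by omega) ((natDegree_map_le).trans hp)
    ((natDegree_map_le).trans hq) hγ'
  set Φ := fun x => γ • homMap (p.map ι) (q.map ι) d x with hΦ
  rw [hset] at hW
  obtain ⟨P, hP1, hP2, hP3⟩ := exists_lift hv hd hγ Z hZ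
  rw [← hRes, ← he] at hP3
  have h26 : 10 ^ 7 * (d : ℝ) ^ 2 ≤ (d : ℝ) ^ 26 := by
    have hdR : (2 : ℝ) ≤ d := by exact_mod_cast hd
    have h1 : (2 : ℝ) ^ 24 ≤ (d : ℝ) ^ 24 := by gcongr
    calc 10 ^ 7 * (d : ℝ) ^ 2 ≤ 2 ^ 24 * (d : ℝ) ^ 2 := by
          have : (10 : ℝ) ^ 7 ≤ 2 ^ 24 := by norm_num
          gcongr
      _ ≤ (d : ℝ) ^ 24 * (d : ℝ) ^ 2 := by gcongr
      _ = (d : ℝ) ^ 26 := by rw [← pow_add]
  refine ⟨?_, ?_, ?_, ?_⟩
  · obtain ⟨ρ, hρ⟩ := hne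
    rw [← hset] at hρ
    exact ⟨ρ, hρ.1, hρ.2⟩
  · intro Y hY
    rw [totE_eq_en hY hP3, hW]
    exact size_baseline G hU hd hne (fun x hx => hP1 x (hY hx))
      (fun x hx y hy hxy => (hP3 x (hY hx) y (hY hy) hxy).1) (fun x hx => hP2 x (hY hx))
  · intro x hx y hy hxy
    obtain ⟨h1, h2⟩ := hP3 x hx y hy hxy
    rw [← h2, hW]
    exact size_pair G hU hd hne h1 (hP2 x hx) (hP2 y hy)
  · intro hpos hbig
    rw [hW] at hpos hbig
    obtain ⟨cl, hcl⟩ := size_gain G hU hd (n := 26) (by norm_num) h26 hne hpos hbig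
    refine ⟨fun x => cl (P x), ?_⟩
    intro Y hY o ho
    rw [totE_eq_en hY hP3, hW]
    exact hcl (fun x hx => hP1 x (hY hx))
      (fun x hx y hy hxy => (hP3 x (hY hx) y (hY hy) hxy).1) (fun x hx => hP2 x (hY hx)) o ho

end local_estimates

section finite_place

variable {K : Type} [Field K] [NumberField K] {p q : K[X]} {d : ℕ}

/-- Local estimates at a finite place. -/
theorem fin_local (v : FinitePlace K) (hd : 2 ≤ d) (hp : p.natDegree ≤ d)
    (hq : q.natDegree ≤ d) (hres : resultant p q d d ≠ 0) (Z : Finset K) {i j : K → ℕ} {μ : K → K}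
    (hZ : ∀ x ∈ Z, PData p q d x (i x) (j x) (μ x)) {e : K → ℝ}
    (he : e = fun x => (d : ℝ) ^ i x - (d : ℝ) ^ j x) {Res : K} (hRes : Res = resultant p q d d) :
    (∀ Y ⊆ Z, totE v Res d μ e Y ≤ 100 * d * finWeight v p q d * ell Y.card) ∧
    (∀ x ∈ Z, ∀ y ∈ Z, x ≠ y → prE v Res d μ e x y ≤ 4 * d * finWeight v p q d) ∧
    (0 < finWeight v p q d → ∃ cl : K → Option (Fin (d ^ 26)), ∀ Y ⊆ Z, ∀ o,
      (∀ x ∈ Y, cl x = o) → totE v Res d μ e Y ≤
        finWeight v p q d * (- (1 / (3276800 * d)) * (Y.card : ℝ) ^ 2 +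
          4 * KC d 26 * ell Y.card)) := by
  classical
  set W : ℝ := finWeight v p q d with hW
  set S : Set ℝ := {ρ : ℝ | 0 ≤ ρ ∧ SizeAtMostOver v p q d ρ} with hS
  have hW0 : 0 ≤ W := finWeight_nonneg _ _ _ _
  obtain ⟨x1, hx1⟩ := exists_one_lt v
  have hSne : S.Nonempty := by
    obtain ⟨L, _, _, _, ι, hι⟩ := exists_ultra_field v
    have hnt : ∃ x : L, 1 < ‖x‖ := ⟨ι x1, by rw [hι]; exact hx1⟩
    obtain ⟨⟨ρ, h1, h2⟩, _⟩ := local_field (geoUltra L hnt) hι hd hp hq hres Z hZ rfl he hRes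
    exact ⟨ρ, h1, L, _, inferInstance, inferInstance, ι, hι, h2⟩
  -- fields with weight close to `W`
  have key : ∀ R, W < R → ∃ W', W ≤ W' ∧ W' ≤ R ∧
      (∀ Y ⊆ Z, totE v Res d μ e Y ≤ 100 * d * (W' + 0) * ell Y.card) ∧
      (∀ x ∈ Z, ∀ y ∈ Z, x ≠ y → prE v Res d μ e x y ≤ 4 * d * W' + (2 * d + 1) * 0) ∧
      (0 < W' → 819200 * d * 0 ≤ W' → ∃ cl : K → Option (Fin (d ^ 26)), ∀ Y ⊆ Z, ∀ o,
        (∀ x ∈ Y, cl x = o) → totE v Res d μ e Y ≤
          W' * (- (1 / (3276800 * d)) * (Y.card : ℝ) ^ 2 + 2 * KC d 26 * ell Y.card)) := by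
    intro R hR
    obtain ⟨ρ, ⟨h0, L, _, _, _, ι, hι, hs⟩, h4⟩ := exists_lt_of_csInf_lt hSne hR
    have hnt : ∃ x : L, 1 < ‖x‖ := ⟨ι x1, by rw [hι]; exact hx1⟩
    obtain ⟨h1, h2⟩ := local_field (geoUltra L hnt) hι hd hp hq hres Z hZ rfl he hRes
    refine ⟨_, ?_, ?_, h2⟩
    · apply le_csInf
      · exact ⟨ρ, h0, hs⟩
      · rintro ρ' ⟨h5, h6⟩
        exact csInf_le ⟨0, fun _ h => h.1⟩ ⟨h5, L, _, inferInstance, inferInstance, ι, hι, h6⟩
    · refine le_trans ?_ h4.le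
      exact csInf_le ⟨0, fun _ h => h.1⟩ ⟨h0, hs⟩
  refine ⟨?_, ?_, ?_⟩
  · intro Y hY
    have hell := ell_nonneg Y.card
    have h1 : totE v Res d μ e Y ≤ (100 * d * ell Y.card) * W := by
      apply le_mul_of_forall_gt (by positivity)
      intro R hR
      obtain ⟨W', h1, h2, h3, _, _⟩ := key R hR
      have h4 := h3 Y hY
      have h5 : (100 * d * ell Y.card) * W' ≤ (100 * d * ell Y.card) * R := by gcongr
      linarith
    linarith
  · intro x hx y hy hxy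
    have h1 : prE v Res d μ e x y ≤ (4 * d) * W := by
      apply le_mul_of_forall_gt (by positivity)
      intro R hR
      obtain ⟨W', h1, h2, _, h3, _⟩ := key R hR
      have h4 := h3 x hx y hy hxy
      have h5 : (4 * (d : ℝ)) * W' ≤ (4 * d) * R := by gcongr
      linarith
    exact h1
  · intro hpos
    obtain ⟨W', h1, h2, _, _, h3⟩ := key (2 * W) (by linarith)
    obtain ⟨cl, hcl⟩ := h3 (hpos.trans_le h1) (by
      rw [mul_zero]
      exact hW0.trans h1)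
    refine ⟨cl, fun Y hY o ho => (hcl Y hY o ho).trans ?_⟩
    have hell := ell_nonneg Y.card
    have hKC : 0 ≤ KC d 26 := by unfold KC; positivity
    have h4 : W * (1 / (3276800 * d) * (Y.card : ℝ) ^ 2) ≤
        W' * (1 / (3276800 * d) * (Y.card : ℝ) ^ 2) := by gcongr
    have h5 : W' * (2 * KC d 26 * ell Y.card) ≤ (2 * W) * (2 * KC d 26 * ell Y.card) := by gcongr
    linarith

end finite_place

section arch_place

variable {K : Type} [Field K] {p q : K[X]} {d : ℕ}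

/-- Separated points in a bounded region. -/
lemma packing (H : ℝ) {δ : ℝ} (hδ : 0 < δ) : ∃ C : ℕ, ∀ (α : Type) (s : Finset α)
    (P : α → ℂ × ℂ), (∀ x ∈ s, ‖P x‖ ≤ H) → (∀ x ∈ s, ∀ y ∈ s, x ≠ y → δ ≤ ‖P x - P y‖) →
    s.card ≤ C := by
  classical
  have hcomp : IsCompact (Metric.closedBall (0 : ℂ × ℂ) H) := isCompact_closedBall _ _
  obtain ⟨t, htf, ht⟩ := Metric.totallyBounded_iff.mp hcomp.totallyBounded (δ / 2) (by positivity)
  refine ⟨htf.toFinset.card, ?_⟩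
  intro α s P h1 h2
  have hex : ∀ x : α, ∃ y : ℂ × ℂ, x ∈ s → y ∈ t ∧ dist (P x) y < δ / 2 := by
    intro x
    by_cases hx : x ∈ s
    · have h3 : P x ∈ Metric.closedBall (0 : ℂ × ℂ) H := by
        rw [mem_closedBall_zero_iff]
        exact h1 x hx
      obtain ⟨y, hy1, hy2⟩ := Set.mem_iUnion₂.mp (ht h3)
      exact ⟨y, fun _ => ⟨hy1, hy2⟩⟩
    · exact ⟨0, fun h => absurd h hx⟩
  choose f hf using hex
  apply Finset.card_le_card_of_injOn f
  · intro x hx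
    rw [Finset.mem_coe, Set.Finite.mem_toFinset]
    exact (hf x hx).1
  · intro x hx y hy hxy
    by_contra hne
    have h3 := h2 x hx y hy hne
    have h4 := (hf x hx).2
    have h5 := (hf y hy).2
    rw [← hxy] at h5
    have h6 : dist (P x) (P y) < δ := by
      have := dist_triangle (P x) (f x) (P y)
      rw [dist_comm (f x) (P y)] at this
      linarith
    rw [dist_eq_norm] at h6
    linarith

/-- Bounded weight and separated pairs bound the number of points. -/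
theorem arch_packing (hd : 2 ≤ d) (B B' : ℝ) : ∃ C : ℕ, ∀ {K : Type} [Field K] {p q : K[X]}
    (ι : K →+* ℂ) (v : K → ℝ) (_ : ∀ x, ‖ι x‖ = v x) (_ : p.natDegree ≤ d)
    (_ : q.natDegree ≤ d) (_ : resultant p q d d ≠ 0) (Z : Finset K) {i j : K → ℕ} {μ : K → K}
    (_ : ∀ x ∈ Z, PData p q d x (i x) (j x) (μ x)) (_ : archWeight ι p q d ≤ B)
    (_ : ∀ x ∈ Z, ∀ y ∈ Z, x ≠ y → -B' ≤ prE v (resultant p q d d) d μ
      (fun x => (d : ℝ) ^ i x - (d : ℝ) ^ j x) x y), Z.card ≤ C := by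
  set H : ℝ := 2 * d * (B + 1) + d * Real.log 2 with hH
  obtain ⟨C, hC⟩ := packing (Real.exp H) (δ := Real.exp (-B' - Real.log 2 - H)) (Real.exp_pos _)
  refine ⟨C, ?_⟩
  intro K _ p q ι v hv hp hq hres Z i j μ hZ hB hpair
  obtain ⟨γ, hγ⟩ := exists_gamma (ι := ι) (p := p) (q := q) (show 1 ≤ d by omega) hres
  have hset := sizeSet_eq (ι := ι) (p := p) (q := q) hγ (by omega)
  have hne := sizeSet_nonempty (ι := ι) (p := p) (q := q) (d := d) γ
  have hγ' : ‖γ‖ ^ (2 * d) * ‖resultant (p.map ι) (q.map ι) d d‖ = 1 := by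
    rw [resultant_map_map]
    exact hγ
  have hU := umap_of_res_smul (d := d) (by omega) ((natDegree_map_le).trans hp)
    ((natDegree_map_le).trans hq) hγ'
  obtain ⟨P, hP1, hP2, hP3⟩ := exists_lift hv hd hγ Z hZ
  unfold archWeight at hB
  rw [hset] at hB
  obtain ⟨hR0, A, hA, hBd⟩ := exists_size_of_gt (R := B + 1) hne (by linarith)
  have hk : geoArch.k = Real.log 2 := rfl
  have hlog2 : 0 < Real.log 2 := Real.log_pos (by norm_num)
  have hnorm : ∀ x ∈ Z, ‖A.symm (P x)‖ ≤ Real.exp H := by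
    intro x hx
    have h0 : A.symm (P x) ≠ 0 := by simpa using hP1 x hx
    have h1 := (hU.conj A hA).log_le_of_preper geoArch hd hR0 hBd h0
      (preper_conj A (hP2 x hx))
    rw [hk, ← hH] at h1
    rw [← Real.exp_log (norm_pos_iff.mpr h0)]
    exact Real.exp_le_exp.mpr h1
  refine hC K Z (fun x => A.symm (P x)) hnorm ?_
  intro x hx y hy hxy
  obtain ⟨h1, h2⟩ := hP3 x hx y hy hxy
  have h3 := hpair x hx y hy hxy
  rw [← h2] at h3
  set a := A.symm (P x) with ha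
  set b := A.symm (P y) with hb
  have h4 : wd a b = wd (P x) (P y) := hA.symm_wd _ _
  have h5 : wd a b = wd (a - b) b := by
    unfold wd
    simp only [Prod.fst_sub, Prod.snd_sub]
    ring
  have h6 : Real.exp (-B') ≤ ‖wd (a - b) b‖ := by
    rw [← h5, h4, ← Real.exp_log (norm_pos_iff.mpr h1)]
    exact Real.exp_le_exp.mpr h3
  have h7 := geoArch.wd_le' (a - b) b
  rw [hk] at h7
  have h8 := hnorm y hy
  rw [← hb] at h8
  have h9 : Real.exp (-B') ≤ Real.exp (Real.log 2) * ‖a - b‖ * Real.exp H := by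
    calc Real.exp (-B') ≤ ‖wd (a - b) b‖ := h6
      _ ≤ Real.exp (Real.log 2) * ‖a - b‖ * ‖b‖ := h7
      _ ≤ _ := by gcongr
  have h10 : Real.exp (-B' - Real.log 2 - H) =
      Real.exp (-B') * (Real.exp (Real.log 2) * Real.exp H)⁻¹ := by
    rw [← Real.exp_add, ← Real.exp_neg, ← Real.exp_add]
    congr 1
    ring
  rw [h10, ← div_eq_mul_inv, div_le_iff₀ (by positivity)]
  calc Real.exp (-B') ≤ Real.exp (Real.log 2) * ‖a - b‖ * Real.exp H := h9
    _ = _ := by ring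

/-- Local estimates at an archimedean place. -/
theorem arch_local {ι : K →+* ℂ} {v : K → ℝ} (hv : ∀ x, ‖ι x‖ = v x) (hd : 2 ≤ d)
    (hp : p.natDegree ≤ d) (hq : q.natDegree ≤ d) (hres : resultant p q d d ≠ 0) (Z : Finset K)
    {i j : K → ℕ} {μ : K → K} (hZ : ∀ x ∈ Z, PData p q d x (i x) (j x) (μ x)) {e : K → ℝ}
    (he : e = fun x => (d : ℝ) ^ i x - (d : ℝ) ^ j x) {Res : K} (hRes : Res = resultant p q d d) :
    (∀ Y ⊆ Z, totE v Res d μ e Y ≤ 100 * d * (archWeight ι p q d + Real.log 2) * ell Y.card) ∧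
    (∀ x ∈ Z, ∀ y ∈ Z, x ≠ y → prE v Res d μ e x y ≤
      4 * d * archWeight ι p q d + (2 * d + 1) * Real.log 2) ∧
    (0 < archWeight ι p q d → 819200 * d * Real.log 2 ≤ archWeight ι p q d →
      ∃ cl : K → Option (Fin (d ^ 26)), ∀ Y ⊆ Z, ∀ o,
      (∀ x ∈ Y, cl x = o) → totE v Res d μ e Y ≤
        archWeight ι p q d * (- (1 / (3276800 * d)) * (Y.card : ℝ) ^ 2 +
          2 * KC d 26 * ell Y.card)) :=
  (local_field geoArch hv hd hp hq hres Z hZ rfl he hRes).2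

end arch_place

end Pool.Agent.UBC90787a
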