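import Mathlib

set_option autoImplicit false

/-!
Definitions used in the statement of the theorem on rational maps: the homogeneous forms of two
polynomials, their size in suitable coordinates, and the weights of the places.
-/

namespace Pool.Agent.UBC90787a

open Finset Polynomial NumberField

/-- The value at `(x, y)` of the homogeneous form `∑ p_i X ^ i Y ^ (d - i)` of degree `d`
attached to the polynomial `p`. -/
def homog {L : Type*} [CommSemiring L] (p : L[X]) (d : ℕ) (x : L × L) : L :=
  ∑ i ∈ range (d + 1), p.coeff i * x.1 ^ i * x.2 ^ (d - i)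

/-- Let `F = (P, Q)` be the pair of forms of degree `d` attached to `p` and `q`, over a normed
field `L` via `ι : K → L`. `SizeAtMost ι p q d ρ` means that for some matrix
`A = (a, b; c, e)` of determinant one over `L` and some scalar `γ` such that the
pair of forms `γ • F` has resultant of absolute value one, the conjugate
`γ • A⁻¹ (F (A (x, y)))` has norm at most `exp ρ * ‖(x, y)‖ ^ d` at all vectors `(x, y)`,
for the maximum norm. -/
def SizeAtMost {K L : Type} [Field K] [NormedField L] (ι : K →+* L) (p q : K[X]) (d : ℕ)
    (ρ : ℝ) : Prop :=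
  ∃ a b c e γ : L, a * e - b * c = 1 ∧ ‖γ‖ ^ (2 * d) * ‖ι (resultant p q d d)‖ = 1 ∧
    ∀ x y P Q : L, P = homog (p.map ι) d (a * x + b * y, c * x + e * y) →
      Q = homog (q.map ι) d (a * x + b * y, c * x + e * y) →
      max ‖γ * (e * P - b * Q)‖ ‖γ * (a * Q - c * P)‖ ≤ Real.exp ρ * max ‖x‖ ‖y‖ ^ d

/-- The size of the map `[P : Q]` is at most `exp ρ` in suitable coordinates over some
algebraically closed ultrametric normed field extending `(K, v)`. -/
def SizeAtMostOver {K : Type} [Field K] (v : K → ℝ) (p q : K[X]) (d : ℕ) (ρ : ℝ) : Prop :=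
  ∃ (L : Type) (_ : NormedField L) (_ : IsUltrametricDist L) (_ : IsAlgClosed L) (ι : K →+* L),
    (∀ x, ‖ι x‖ = v x) ∧ SizeAtMost ι p q d ρ

/-- Potentially good reduction at the finite place `v`: in suitable coordinates over an
algebraically closed extension the map is given by two forms which are bounded by one on the
unit ball and whose resultant has absolute value one. -/
def PotGoodRed {K : Type} [Field K] (v : K → ℝ) (p q : K[X]) (d : ℕ) : Prop :=
  SizeAtMostOver v p q d 0

/-- The weight of a finite place: the infimum of the `ρ ≥ 0` such that the size of the map is at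
most `exp ρ` in suitable coordinates. It is `1 / (2 d)` times the valuation (with the
normalisation of `v`) of the minimal resultant over algebraically closed extensions. -/
noncomputable def finWeight {K : Type} [Field K] (v : K → ℝ) (p q : K[X]) (d : ℕ) : ℝ :=
  sInf {ρ : ℝ | 0 ≤ ρ ∧ SizeAtMostOver v p q d ρ}

/-- The weight of a complex embedding. -/
noncomputable def archWeight {K : Type} [Field K] (ι : K →+* ℂ) (p q : K[X]) (d : ℕ) : ℝ :=
  sInf {ρ : ℝ | 0 ≤ ρ ∧ SizeAtMost ι p q d ρ}

end Pool.Agent.UBC90787a
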