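import Pool.Agent.Lib.MP_90787a_nt.RF.UMap
import Pool.Agent.Lib.MP_90787a_nt.RF.RFDefs

set_option autoImplicit false
set_option linter.unusedSectionVars false

/-!
The map of the plane given by two polynomials of unit resultant.
-/

namespace Pool.Agent.UBC90787a

open Finset Polynomial

/-- The map of the plane attached to two polynomials. -/
def homMap {L : Type*} [CommSemiring L] (p q : L[X]) (d : ℕ) (x : L × L) : L × L :=
  (homog p d x, homog q d x)

section algebra

variable {L : Type*} [Field L] {d : ℕ}

lemma homog_smul (p : L[X]) (t : L) (x : L × L) : homog p d (t • x) = t ^ d * homog p d x := by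
  unfold homog
  rw [Finset.mul_sum]
  refine Finset.sum_congr rfl (fun i hi => ?_)
  have hi' : i ≤ d := by
    have := Finset.mem_range.mp hi
    omega
  simp only [Prod.smul_fst, Prod.smul_snd, smul_eq_mul, mul_pow]
  have h : t ^ d = t ^ i * t ^ (d - i) := by rw [← pow_add]; congr 1; omega
  rw [h]
  ring

lemma homog_C_mul (c : L) (p : L[X]) (x : L × L) : homog (C c * p) d x = c * homog p d x := by
  unfold homog
  rw [Finset.mul_sum]
  refine Finset.sum_congr rfl (fun i _ => ?_)
  rw [coeff_C_mul]
  ring

lemma homog_sub (p q : L[X]) (x : L × L) : homog (p - q) d x = homog p d x - homog q d x := by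
  unfold homog
  rw [← Finset.sum_sub_distrib]
  refine Finset.sum_congr rfl (fun i _ => ?_)
  rw [coeff_sub]
  ring

lemma homog_of_ne {p : L[X]} (hp : p.natDegree ≤ d) {x : L × L} (hx : x.2 ≠ 0) :
    homog p d x = x.2 ^ d * p.eval (x.1 / x.2) := by
  unfold homog
  rw [eval_eq_sum_range' (Nat.lt_succ_of_le hp), Finset.mul_sum]
  refine Finset.sum_congr rfl (fun i hi => ?_)
  have hi' : i ≤ d := by
    have := Finset.mem_range.mp hi
    omega
  have h : x.2 ^ d = x.2 ^ i * x.2 ^ (d - i) := by rw [← pow_add]; congr 1; omega
  rw [h, div_pow]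
  field_simp

lemma homog_one {p : L[X]} (hp : p.natDegree ≤ d) (r : L) : homog p d (r, 1) = p.eval r := by
  rw [homog_of_ne hp (by simp)]
  simp

lemma homog_infty (p : L[X]) (y : L) : homog p d (y, 0) = p.coeff d * y ^ d := by
  unfold homog
  rw [Finset.sum_eq_single d]
  · simp
  · intro i hi hne
    have hi' : i ≤ d := by
      have := Finset.mem_range.mp hi
      omega
    have : d - i ≠ 0 := by omega
    simp [this]
  · intro h
    exact absurd (Finset.mem_range.mpr (Nat.lt_succ_self d)) h

lemma homog_eq_prod [IsAlgClosed L] {g : L[X]} (hg : g.natDegree ≤ d) (x : L × L) :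
    homog g d x = g.leadingCoeff * (g.roots.map (fun r => x.1 - r * x.2)).prod *
      x.2 ^ (d - g.natDegree) := by
  have hsp : g.Splits := IsAlgClosed.splits g
  have hcard : Multiset.card g.roots = g.natDegree := (splits_iff_card_roots.mp hsp)
  by_cases hx : x.2 = 0
  · have hx' : x = (x.1, 0) := Prod.ext rfl hx
    rw [hx', homog_infty]
    simp only [mul_zero, sub_zero, Multiset.map_const', Multiset.prod_replicate, hcard]
    rcases eq_or_lt_of_le hg with h | h
    · rw [leadingCoeff, h, Nat.sub_self, pow_zero, mul_one]
    · rw [coeff_eq_zero_of_natDegree_lt h, zero_mul, zero_pow (by omega), mul_zero]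
  · rw [homog_of_ne hg hx]
    conv_lhs => rw [hsp.eq_prod_roots]
    rw [eval_mul, eval_C, eval_multiset_prod, Multiset.map_map]
    have h1 : (g.roots.map (fun r => x.1 - r * x.2)).prod =
        x.2 ^ g.natDegree * (g.roots.map ((eval (x.1 / x.2)) ∘ fun a => X - C a)).prod := by
      rw [← hcard, ← Multiset.prod_replicate, ← Multiset.map_const', ← Multiset.prod_map_mul]
      congr 1
      refine Multiset.map_congr rfl (fun r _ => ?_)
      simp only [Function.comp_apply, eval_sub, eval_X, eval_C]
      field_simp
    rw [h1]
    have h2 : x.2 ^ d = x.2 ^ g.natDegree * x.2 ^ (d - g.natDegree) := by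
      rw [← pow_add]; congr 1; omega
    rw [h2]
    ring

lemma exists_fin_of_multiset {α : Type*} (s : Multiset α) (d : ℕ)
    (h : Multiset.card s = d) : ∃ f : Fin d → α, univ.val.map f = s := by
  subst h
  obtain ⟨l, hl⟩ := Quot.exists_rep s
  change (l : Multiset α) = s at hl
  subst hl
  rw [Multiset.coe_card]
  refine ⟨l.get, ?_⟩
  rw [Fin.univ_val_map, List.ofFn_get]

end algebra

section resultants

variable {L : Type} [NormedField L] [IsAlgClosed L] {d : ℕ}

theorem umap_of_res {p q : L[X]} (hd : 1 ≤ d) (hp : p.natDegree ≤ d) (hq : q.natDegree ≤ d)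
    (hres : ‖resultant p q d d‖ = 1) : UMap (homMap p q d) d := by
  refine ⟨?_, ?_⟩
  · intro t x
    unfold homMap
    rw [homog_smul, homog_smul]
    rfl
  · intro u hu
    -- the polynomial and its partner
    obtain ⟨g, h, hg, hh, hgx, hres', ht⟩ : ∃ g h : L[X], g.natDegree ≤ d ∧ h.natDegree ≤ d ∧
        (∀ x, wd (homMap p q d x) u = homog g d x) ∧ ‖resultant g h d d‖ = 1 ∧
        (∀ x, homog g d x = 0 → homMap p q d x = homog h d x • u) := by
      by_cases hu2 : u.2 = 0
      · have hu1 : u.1 ≠ 0 := fun h1 => hu (Prod.ext h1 hu2)
        refine ⟨C (-u.1) * q, C (u.1)⁻¹ * p, (natDegree_C_mul_le _ _).trans hq,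
          (natDegree_C_mul_le _ _).trans hp, ?_, ?_, ?_⟩
        · intro x
          rw [homog_C_mul]
          simp only [homMap, wd, hu2]
          ring
        · rw [resultant_C_mul_left, resultant_C_mul_right, resultant_comm]
          simp only [norm_mul, norm_pow, norm_neg, norm_inv, norm_one, one_pow, one_mul]
          rw [hres, mul_one, ← mul_pow, mul_inv_cancel₀ (norm_ne_zero_iff.mpr hu1), one_pow]
        · intro x hx
          rw [homog_C_mul] at hx
          have hq0 : homog q d x = 0 := by
            rcases mul_eq_zero.mp hx with h | h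
            · exact absurd (neg_eq_zero.mp h) hu1
            · exact h
          ext
          · simp only [homMap, Prod.smul_fst, smul_eq_mul, homog_C_mul]
            field_simp
          · simp only [homMap, Prod.smul_snd, smul_eq_mul, hu2, mul_zero, hq0]
      · refine ⟨C u.2 * p - C u.1 * q, C (u.2)⁻¹ * q,
          (natDegree_sub_le _ _).trans (max_le ((natDegree_C_mul_le _ _).trans hp)
            ((natDegree_C_mul_le _ _).trans hq)),
          (natDegree_C_mul_le _ _).trans hq, ?_, ?_, ?_⟩
        · intro x
          rw [homog_sub, homog_C_mul, homog_C_mul]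
          simp only [homMap, wd]
          ring
        · have e1 : C u.2 * p - C u.1 * q = C u.2 * p + q * C (-u.1) := by
            rw [map_neg]; ring
          rw [resultant_C_mul_right, e1,
            resultant_add_mul_left _ _ _ _ _ (by rw [natDegree_C, zero_add]) hq,
            resultant_C_mul_left]
          simp only [norm_mul, norm_pow, norm_inv]
          rw [hres, mul_one, ← mul_pow, inv_mul_cancel₀ (norm_ne_zero_iff.mpr hu2), one_pow]
        · intro x hx
          rw [homog_sub, homog_C_mul, homog_C_mul] at hx
          ext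
          · simp only [homMap, Prod.smul_fst, smul_eq_mul, homog_C_mul]
            field_simp
            linear_combination hx
          · simp only [homMap, Prod.smul_snd, smul_eq_mul, homog_C_mul]
            field_simp
    have hg0 : g ≠ 0 := by
      rintro rfl
      rw [resultant_zero_left, zero_pow (by omega), zero_mul, norm_zero] at hres'
      exact zero_ne_one hres'
    have hsp : g.Splits := IsAlgClosed.splits g
    have hcard : Multiset.card g.roots = g.natDegree := (splits_iff_card_roots.mp hsp)
    -- the roots
    obtain ⟨r, hr⟩ := exists_fin_of_multiset (g.roots.map (fun r => ((r, 1) : L × L)) +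
      Multiset.replicate (d - g.natDegree) ((1, 0) : L × L)) d (by
        rw [Multiset.card_add, Multiset.card_map, hcard, Multiset.card_replicate]
        omega)
    have hprod : ∀ F : L × L → L, ∏ i, F (r i) = (g.roots.map (fun a => F (a, 1))).prod *
        F (1, 0) ^ (d - g.natDegree) := by
      intro F
      rw [Finset.prod_eq_multiset_prod]
      have e0 : Multiset.map (fun i => F (r i)) univ.val =
          Multiset.map F (Multiset.map r univ.val) := by
        rw [Multiset.map_map]
        rfl
      rw [e0, hr, Multiset.map_add,
        Multiset.prod_add, Multiset.map_map, Multiset.map_replicate, Multiset.prod_replicate]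
      rfl
    have hmem : ∀ i, r i ∈ g.roots.map (fun r => ((r, 1) : L × L)) +
        Multiset.replicate (d - g.natDegree) ((1, 0) : L × L) := by
      intro i
      rw [← hr]
      exact Multiset.mem_map_of_mem r (Finset.mem_univ i)
    have hroot : ∀ i, homog g d (r i) = 0 := by
      intro i
      rcases Multiset.mem_add.mp (hmem i) with h1 | h1
      · obtain ⟨a, ha, hra⟩ := Multiset.mem_map.mp h1
        rw [← hra, homog_one hg]
        exact (mem_roots hg0).mp ha
      · have h2 := Multiset.eq_of_mem_replicate h1
        have h3 : d - g.natDegree ≠ 0 := by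
          intro h0
          rw [h0] at h1
          simp at h1
        rw [h2, homog_infty, coeff_eq_zero_of_natDegree_lt (by omega), zero_mul]
    -- the product of the values
    have hval : ‖g.leadingCoeff‖ ^ d * ∏ i, ‖homog h d (r i)‖ = 1 := by
      have e1 : resultant g h d d = (-1) ^ (d * (d - g.natDegree)) *
          h.coeff d ^ (d - g.natDegree) * resultant g h g.natDegree d := by
        have := resultant_add_left_deg g h g.natDegree d (d - g.natDegree) le_rfl
        rwa [Nat.add_sub_cancel' hg] at this
      rw [resultant_eq_prod_eval g h d hh hsp] at e1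
      have e2 := hprod (fun x => homog h d x)
      simp only [homog_one hh, homog_infty, one_pow, mul_one] at e2
      rw [← norm_prod, e2]
      rw [← hres', e1]
      simp only [norm_mul, norm_pow, norm_neg, norm_one, one_pow, one_mul]
      ring
    have hlc : 0 < ‖g.leadingCoeff‖ := norm_pos_iff.mpr (leadingCoeff_ne_zero.mpr hg0)
    have ht0 : ∀ i, homog h d (r i) ≠ 0 := by
      intro i h0
      rw [Finset.prod_eq_zero (Finset.mem_univ i) (by rw [h0, norm_zero]), mul_zero] at hval
      exact zero_ne_one hval
    choose s hs using fun i => IsAlgClosed.exists_pow_nat_eq ((homog h d (r i))⁻¹)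
      (show 0 < d by omega)
    have hsprod : ∏ i, ‖s i‖ = ‖g.leadingCoeff‖ := by
      have h1 : (∏ i, ‖s i‖) ^ d = ‖g.leadingCoeff‖ ^ d := by
        rw [← Finset.prod_pow]
        have h2 : ∀ i, ‖s i‖ ^ d = ‖homog h d (r i)‖⁻¹ := by
          intro i
          rw [← norm_pow, hs, norm_inv]
        simp only [h2]
        rw [Finset.prod_inv_distrib]
        have h3 : ∏ i, ‖homog h d (r i)‖ ≠ 0 :=
          Finset.prod_ne_zero_iff.mpr (fun i _ => norm_ne_zero_iff.mpr (ht0 i))
        field_simp
        linarith
      exact (pow_left_inj₀ (Finset.prod_nonneg (fun _ _ => norm_nonneg _)) hlc.le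
        (by omega)).mp h1
    refine ⟨fun i => s i • r i, ?_, ?_⟩
    · intro i
      have h1 := ht _ (hroot i)
      have h2 : homMap p q d (s i • r i) = s i ^ d • homMap p q d (r i) := by
        unfold homMap
        rw [homog_smul, homog_smul]
        rfl
      rw [h2, h1, smul_smul, hs, inv_mul_cancel₀ (ht0 i), one_smul]
    · intro x
      rw [hgx, homog_eq_prod hg]
      simp only [wd_smul_right, norm_mul]
      rw [Finset.prod_mul_distrib, hsprod, ← norm_prod]
      have e1 := hprod (fun y => wd x y)
      rw [e1]
      simp only [wd, mul_one, mul_zero, zero_sub, norm_mul, norm_pow, norm_neg]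
      have e2 : (fun r => x.1 - r * x.2) = (fun a => x.1 - x.2 * a) := by
        funext r
        ring
      rw [e2, mul_assoc]

/-- The map of the plane with a scalar normalising the resultant. -/
theorem umap_of_res_smul {p q : L[X]} (hd : 1 ≤ d) (hp : p.natDegree ≤ d) (hq : q.natDegree ≤ d)
    {γ : L} (hres : ‖γ‖ ^ (2 * d) * ‖resultant p q d d‖ = 1) :
    UMap (fun x => γ • homMap p q d x) d := by
  have h1 : (fun x => γ • homMap p q d x) = homMap (C γ * p) (C γ * q) d := by
    funext x
    unfold homMap
    rw [homog_C_mul, homog_C_mul]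
    rfl
  rw [h1]
  refine umap_of_res hd ((natDegree_C_mul_le _ _).trans hp) ((natDegree_C_mul_le _ _).trans hq) ?_
  rw [resultant_C_mul_left, resultant_C_mul_right, norm_mul, norm_mul, norm_pow, ← mul_assoc,
    ← pow_add, ← two_mul]
  exact hres

end resultants

end Pool.Agent.UBC90787a
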