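import Pool.Agent.Lib.MP_90787a_nt.RF.LocalSize
import Pool.Agent.Lib.MP_90787a_nt.RF.FromRes

set_option autoImplicit false
set_option linter.unusedSectionVars false

/-!
Preperiodic lifts of preperiodic points.
-/

namespace Pool.Agent.UBC90787a

open Finset Polynomial

section sl2

variable {L : Type} [Field L]

/-- The linear map with given matrix. -/
def sl2 (a b c e : L) (h : a * e - b * c = 1) : (L × L) ≃ₗ[L] (L × L) where
  toFun x := (a * x.1 + b * x.2, c * x.1 + e * x.2)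
  map_add' x y := by
    ext
    · simp only [Prod.fst_add, Prod.snd_add]; ring
    · simp only [Prod.fst_add, Prod.snd_add]; ring
  map_smul' t x := by
    ext
    · simp only [Prod.smul_fst, Prod.smul_snd, smul_eq_mul, RingHom.id_apply]; ring
    · simp only [Prod.smul_fst, Prod.smul_snd, smul_eq_mul, RingHom.id_apply]; ring
  invFun y := (e * y.1 - b * y.2, a * y.2 - c * y.1)
  left_inv x := by
    ext
    · simp only
      linear_combination x.1 * h
    · simp only
      linear_combination x.2 * h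
  right_inv x := by
    ext
    · simp only
      linear_combination x.1 * h
    · simp only
      linear_combination x.2 * h

lemma sl2_apply (a b c e : L) (h : a * e - b * c = 1) (x : L × L) :
    sl2 a b c e h x = (a * x.1 + b * x.2, c * x.1 + e * x.2) := rfl

lemma sl2_symm_apply (a b c e : L) (h : a * e - b * c = 1) (y : L × L) :
    (sl2 a b c e h).symm y = (e * y.1 - b * y.2, a * y.2 - c * y.1) := rfl

lemma sl2_SLin (a b c e : L) (h : a * e - b * c = 1) : SLin (sl2 a b c e h) := by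
  intro x y
  rw [sl2_apply, sl2_apply]
  unfold wd
  simp only
  linear_combination (x.1 * y.2 - x.2 * y.1) * h

lemma exists_entries {A : (L × L) ≃ₗ[L] (L × L)} (hA : SLin A) :
    ∃ (a b c e : L) (h : a * e - b * c = 1), A = sl2 a b c e h := by
  have h1 : (A (1, 0)).1 * (A (0, 1)).2 - (A (0, 1)).1 * (A (1, 0)).2 = 1 := by
    have h2 := hA (1, 0) (0, 1)
    unfold wd at h2
    simp only [mul_one, mul_zero, sub_zero] at h2
    linear_combination h2
  refine ⟨(A (1, 0)).1, (A (0, 1)).1, (A (1, 0)).2, (A (0, 1)).2, h1, ?_⟩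
  refine LinearEquiv.ext (fun x => ?_)
  have h2 : x = x.1 • ((1, 0) : L × L) + x.2 • ((0, 1) : L × L) := by
    ext <;> simp
  have h3 : A x = x.1 • A (1, 0) + x.2 • A (0, 1) := by
    conv_lhs => rw [h2]
    rw [map_add, map_smul, map_smul]
  rw [h3, sl2_apply]
  ext
  · simp only [Prod.fst_add, Prod.smul_fst, smul_eq_mul]; ring
  · simp only [Prod.snd_add, Prod.smul_snd, smul_eq_mul]; ring

end sl2

section size

variable {K L : Type} [Field K] [NormedField L] {ι : K →+* L} {p q : K[X]} {d : ℕ}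

lemma sizeSet_eq {γ : L} (hγ : ‖γ‖ ^ (2 * d) * ‖ι (resultant p q d d)‖ = 1) (hd : 1 ≤ d) :
    {ρ : ℝ | 0 ≤ ρ ∧ SizeAtMost ι p q d ρ} =
      SizeSet (fun x => γ • homMap (p.map ι) (q.map ι) d x) d := by
  ext ρ
  constructor
  · rintro ⟨h0, a, b, c, e, γ', h, hγ', hb⟩
    refine ⟨h0, sl2 a b c e h, sl2_SLin a b c e h, ?_⟩
    have hγγ : ‖γ‖ = ‖γ'‖ := by
      have hR : 0 < ‖ι (resultant p q d d)‖ := by
        by_contra hcon
        have : ‖ι (resultant p q d d)‖ = 0 := le_antisymm (not_lt.mp hcon) (norm_nonneg _)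
        rw [this, mul_zero] at hγ
        exact zero_ne_one hγ
      have h1 : ‖γ‖ ^ (2 * d) = ‖γ'‖ ^ (2 * d) := mul_right_cancel₀ hR.ne' (hγ.trans hγ'.symm)
      exact (pow_left_inj₀ (norm_nonneg _) (norm_nonneg _) (by omega)).mp h1
    intro x
    have h1 := hb x.1 x.2 _ _ rfl rfl
    beta_reduce
    rw [sl2_symm_apply, sl2_apply, Prod.norm_def (x := x)]
    refine le_trans (le_of_eq ?_) h1
    rw [Prod.norm_def]
    simp only [Prod.smul_fst, Prod.smul_snd, smul_eq_mul, homMap]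
    congr 1
    · rw [norm_mul γ', ← hγγ, ← norm_mul]
      congr 1
      ring
    · rw [norm_mul γ', ← hγγ, ← norm_mul]
      congr 1
      ring
  · rintro ⟨h0, A, hA, hb⟩
    obtain ⟨a, b, c, e, h, rfl⟩ := exists_entries hA
    refine ⟨h0, a, b, c, e, γ, h, hγ, ?_⟩
    rintro x y P Q rfl rfl
    have h1 := hb (x, y)
    simp only at h1
    rw [sl2_symm_apply, sl2_apply, Prod.norm_def (x := (x, y))] at h1
    refine le_trans (le_of_eq ?_) h1
    rw [Prod.norm_def]
    simp only [Prod.smul_fst, Prod.smul_snd, smul_eq_mul, homMap]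
    congr 1
    · congr 1
      ring
    · congr 1
      ring

lemma exists_bd_homMap (p q : L[X]) (γ : L) :
    ∃ R : ℝ, 0 ≤ R ∧ Bd (fun x => γ • homMap p q d x) d R := by
  have key : ∀ p : L[X], ∀ x : L × L,
      ‖homog p d x‖ ≤ (∑ i ∈ range (d + 1), ‖p.coeff i‖) * ‖x‖ ^ d := by
    intro p x
    unfold homog
    rw [Finset.sum_mul]
    refine (norm_sum_le _ _).trans (Finset.sum_le_sum (fun i hi => ?_))
    have hi' : i ≤ d := by
      have := Finset.mem_range.mp hi
      omega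
    rw [norm_mul, norm_mul, norm_pow, norm_pow]
    have h1 := norm_fst_le x
    have h2 := norm_snd_le x
    calc ‖p.coeff i‖ * ‖x.1‖ ^ i * ‖x.2‖ ^ (d - i) ≤ ‖p.coeff i‖ * ‖x‖ ^ i * ‖x‖ ^ (d - i) := by
          gcongr
      _ = ‖p.coeff i‖ * ‖x‖ ^ d := by
          rw [mul_assoc, ← pow_add]
          congr 2
          omega
  set Sp : ℝ := ∑ i ∈ range (d + 1), ‖p.coeff i‖ with hSp
  set Sq : ℝ := ∑ i ∈ range (d + 1), ‖q.coeff i‖ with hSq
  have hSp0 : 0 ≤ Sp := Finset.sum_nonneg (fun _ _ => norm_nonneg _)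
  have hSq0 : 0 ≤ Sq := Finset.sum_nonneg (fun _ _ => norm_nonneg _)
  have hpos : 1 ≤ ‖γ‖ * (Sp + Sq) + 1 := by
    have : 0 ≤ ‖γ‖ * (Sp + Sq) := by positivity
    linarith
  refine ⟨Real.log (‖γ‖ * (Sp + Sq) + 1), Real.log_nonneg hpos, ?_⟩
  intro x
  rw [Real.exp_log (by linarith), norm_smul]
  have h1 : ‖homMap p q d x‖ ≤ (Sp + Sq) * ‖x‖ ^ d := by
    unfold homMap
    rw [Prod.norm_def]
    have h2 : 0 ≤ ‖x‖ ^ d := by positivity
    apply max_le
    · refine (key p x).trans ?_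
      have : Sp ≤ Sp + Sq := by linarith
      gcongr
    · refine (key q x).trans ?_
      have : Sq ≤ Sp + Sq := by linarith
      gcongr
  calc ‖γ‖ * ‖homMap p q d x‖ ≤ ‖γ‖ * ((Sp + Sq) * ‖x‖ ^ d) := by gcongr
    _ ≤ (‖γ‖ * (Sp + Sq) + 1) * ‖x‖ ^ d := by
        have h2 : 0 ≤ ‖x‖ ^ d := by positivity
        nlinarith

lemma sizeSet_nonempty (γ : L) :
    (SizeSet (fun x => γ • homMap (p.map ι) (q.map ι) d x) d).Nonempty := by
  obtain ⟨R, hR, hB⟩ := exists_bd_homMap (d := d) (p.map ι) (q.map ι) γ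
  exact ⟨R, hR, LinearEquiv.refl L (L × L), fun x y => rfl, hB⟩

lemma exists_gamma [IsAlgClosed L] (hd : 1 ≤ d) (hres : resultant p q d d ≠ 0) :
    ∃ γ : L, ‖γ‖ ^ (2 * d) * ‖ι (resultant p q d d)‖ = 1 := by
  have h0 : ι (resultant p q d d) ≠ 0 := by
    rw [Ne, map_eq_zero]
    exact hres
  obtain ⟨γ, hγ⟩ := IsAlgClosed.exists_pow_nat_eq (ι (resultant p q d d))⁻¹
    (show 0 < 2 * d by omega)
  refine ⟨γ, ?_⟩
  rw [← norm_pow, hγ, norm_inv, inv_mul_cancel₀ (norm_ne_zero_iff.mpr h0)]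

end size

section lift

variable {K L : Type} [Field K] [NormedField L] [IsAlgClosed L] {ι : K →+* L} {p q : K[X]} {d : ℕ}

lemma homog_map (x : K × K) : homog (p.map ι) d (ι x.1, ι x.2) = ι (homog p d x) := by
  unfold homog
  rw [map_sum]
  refine Finset.sum_congr rfl (fun i _ => ?_)
  rw [coeff_map]
  simp

lemma homMap_map (x : K × K) : homMap (p.map ι) (q.map ι) d (ι x.1, ι x.2) =
    (ι (homMap p q d x).1, ι (homMap p q d x).2) := by
  unfold homMap
  rw [homog_map, homog_map]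

lemma homMap_iter_map (n : ℕ) (x : K × K) :
    (homMap (p.map ι) (q.map ι) d)^[n] (ι x.1, ι x.2) =
      (ι ((homMap p q d)^[n] x).1, ι ((homMap p q d)^[n] x).2) := by
  induction n with
  | zero => simp
  | succ n ih =>
    rw [Function.iterate_succ_apply', ih, homMap_map, Function.iterate_succ_apply']

lemma iter_hom {M : Type} [Field M] {F : M × M → M × M}
    (hF : ∀ (t : M) (x : M × M), F (t • x) = t ^ d • F x) (n : ℕ) (t : M) (x : M × M) :
    F^[n] (t • x) = t ^ (d ^ n) • F^[n] x := by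
  induction n with
  | zero => simp
  | succ n ih =>
    rw [Function.iterate_succ_apply', ih, hF, Function.iterate_succ_apply', ← pow_mul, pow_succ]

lemma homMap_hom {M : Type} [Field M] (p q : M[X]) (t : M) (x : M × M) :
    homMap p q d (t • x) = t ^ d • homMap p q d x := by
  unfold homMap
  rw [homog_smul, homog_smul]
  rfl

/-- The local energy of a pair of points. -/
noncomputable def prE (v : K → ℝ) (Res : K) (d : ℕ) (μ : K → K) (e : K → ℝ) (x y : K) : ℝ :=
  Real.log (v (x - y)) - Real.log (v (μ x)) / e x - Real.log (v (μ y)) / e y +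
    Real.log (v Res) / (d * (d - 1))

/-- The data attached to a preperiodic point. -/
def PData (p q : K[X]) (d : ℕ) (x : K) (i j : ℕ) (μ : K) : Prop :=
  j < i ∧ μ ≠ 0 ∧ (homMap p q d)^[i] (x, 1) = μ • (homMap p q d)^[j] (x, 1)

/-- Preperiodic lifts. -/
theorem exists_lift {v : K → ℝ} (hv : ∀ x, ‖ι x‖ = v x) (hd : 2 ≤ d) {γ : L}
    (hγ : ‖γ‖ ^ (2 * d) * ‖ι (resultant p q d d)‖ = 1) (Z : Finset K) {i j : K → ℕ} {μ : K → K}
    (hZ : ∀ x ∈ Z, PData p q d x (i x) (j x) (μ x)) :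
    ∃ P : K → L × L, (∀ x ∈ Z, P x ≠ 0) ∧
      (∀ x ∈ Z, Preper (fun y => γ • homMap (p.map ι) (q.map ι) d y) (P x)) ∧
      ∀ x ∈ Z, ∀ y ∈ Z, x ≠ y → wd (P x) (P y) ≠ 0 ∧
        Real.log ‖wd (P x) (P y)‖ =
          prE v (resultant p q d d) d μ (fun x => (d : ℝ) ^ i x - (d : ℝ) ^ j x) x y := by
  set FL := homMap (p.map ι) (q.map ι) d with hFL
  have hFLh : ∀ (t : L) (x : L × L), FL (t • x) = t ^ d • FL x := homMap_hom _ _
  have hR : 0 < ‖ι (resultant p q d d)‖ := by
    by_contra hcon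
    have : ‖ι (resultant p q d d)‖ = 0 := le_antisymm (not_lt.mp hcon) (norm_nonneg _)
    rw [this, mul_zero] at hγ
    exact zero_ne_one hγ
  have hγ0 : 0 < ‖γ‖ := by
    by_contra hcon
    have : ‖γ‖ = 0 := le_antisymm (not_lt.mp hcon) (norm_nonneg _)
    rw [this, zero_pow (by omega), zero_mul] at hγ
    exact zero_ne_one hγ
  have hγne : γ ≠ 0 := norm_pos_iff.mp hγ0
  obtain ⟨τ, hτ⟩ := IsAlgClosed.exists_pow_nat_eq γ⁻¹ (show 0 < d - 1 by omega)
  have hτ0 : τ ≠ 0 := by
    rintro rfl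
    rw [zero_pow (by omega)] at hτ
    exact inv_ne_zero hγne hτ.symm
  have hτd : γ * τ ^ d = τ := by
    have h1 : τ ^ d = τ ^ (d - 1) * τ := by rw [← pow_succ]; congr 1; omega
    rw [h1, hτ, ← mul_assoc, mul_inv_cancel₀ hγne, one_mul]
  have hpow : ∀ x, j x < i x → 0 < d ^ i x - d ^ j x := by
    intro x h
    have : d ^ j x < d ^ i x := Nat.pow_lt_pow_right (by omega) h
    omega
  have hex : ∀ x, ∃ t : L, x ∈ Z → t ^ (d ^ i x - d ^ j x) = (ι (μ x))⁻¹ := by
    intro x
    by_cases hx : x ∈ Z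
    · obtain ⟨t, ht⟩ := IsAlgClosed.exists_pow_nat_eq (ι (μ x))⁻¹ (hpow x (hZ x hx).1)
      exact ⟨t, fun _ => ht⟩
    · exact ⟨0, fun h => absurd h hx⟩
  choose t ht using hex
  have hμ0 : ∀ x ∈ Z, ι (μ x) ≠ 0 := by
    intro x hx
    rw [Ne, map_eq_zero]
    exact (hZ x hx).2.1
  have ht0 : ∀ x ∈ Z, t x ≠ 0 := by
    intro x hx h0
    have h1 := ht x hx
    rw [h0, zero_pow (hpow x (hZ x hx).1).ne'] at h1
    exact inv_ne_zero (hμ0 x hx) h1.symm
  have hlogτ : 2 * Real.log ‖τ‖ = Real.log ‖ι (resultant p q d d)‖ / (d * (d - 1)) := by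
    have hdR : (2 : ℝ) ≤ d := by exact_mod_cast hd
    have h1 : ((d : ℝ) - 1) * Real.log ‖τ‖ = - Real.log ‖γ‖ := by
      have h2 := congrArg (fun z : L => Real.log ‖z‖) hτ
      simp only [norm_pow, norm_inv, Real.log_pow, Real.log_inv] at h2
      rwa [Nat.cast_sub (by omega), Nat.cast_one] at h2
    have h2 : 2 * d * Real.log ‖γ‖ + Real.log ‖ι (resultant p q d d)‖ = 0 := by
      have h3 := congrArg Real.log hγ
      rw [Real.log_mul (by positivity) hR.ne', Real.log_pow, Real.log_one] at h3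
      push_cast at h3
      exact h3
    have hd1 : (d : ℝ) - 1 ≠ 0 := by linarith
    have hd0 : (d : ℝ) ≠ 0 := by linarith
    rw [eq_div_iff (mul_ne_zero hd0 hd1)]
    have : 2 * Real.log ‖τ‖ * (d * (d - 1)) = 2 * d * (((d : ℝ) - 1) * Real.log ‖τ‖) := by ring
    rw [this, h1]
    linarith
  have hlogt : ∀ x ∈ Z, Real.log ‖t x‖ = - (Real.log (v (μ x)) /
      ((d : ℝ) ^ i x - (d : ℝ) ^ j x)) := by
    intro x hx
    have h2 := congrArg (fun z : L => Real.log ‖z‖) (ht x hx)
    simp only [norm_pow, norm_inv, Real.log_pow, Real.log_inv, hv] at h2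
    have h3 : ((d ^ i x - d ^ j x : ℕ) : ℝ) = (d : ℝ) ^ i x - (d : ℝ) ^ j x := by
      rw [Nat.cast_sub (by have := hpow x (hZ x hx).1; omega)]
      push_cast
      rfl
    rw [h3] at h2
    have h4 : (0 : ℝ) < (d : ℝ) ^ i x - (d : ℝ) ^ j x := by
      rw [← h3]
      exact_mod_cast hpow x (hZ x hx).1
    rw [← neg_div, eq_div_iff h4.ne', mul_comm]
    exact h2
  refine ⟨fun x => (τ * t x) • (ι x, 1), ?_, ?_, ?_⟩
  · intro x hx h0
    have h1 := congrArg Prod.snd h0
    simp only [Prod.smul_snd, smul_eq_mul, mul_one, Prod.snd_zero] at h1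
    exact mul_ne_zero hτ0 (ht0 x hx) h1
  · intro x hx
    obtain ⟨hji, hμ, hF⟩ := hZ x hx
    have hΦτ : ∀ (n : ℕ) (w : L × L), (fun y => γ • FL y)^[n] (τ • w) = τ • FL^[n] w := by
      intro n
      induction n with
      | zero => intro w; rfl
      | succ n ih =>
        intro w
        rw [Function.iterate_succ_apply', ih, Function.iterate_succ_apply', hFLh,
          smul_smul, hτd]
    refine ⟨i x, j x, hji, ?_⟩
    beta_reduce
    rw [mul_smul, hΦτ, hΦτ, iter_hom hFLh, iter_hom hFLh]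
    congr 1
    have h1 := homMap_iter_map (ι := ι) (p := p) (q := q) (d := d) (j x) ((x, 1) : K × K)
    have h2 := homMap_iter_map (ι := ι) (p := p) (q := q) (d := d) (i x) ((x, 1) : K × K)
    simp only [map_one] at h1 h2
    rw [← hFL] at h1 h2
    rw [h1, h2, hF]
    have h3 : t x ^ (d ^ i x) * ι (μ x) = t x ^ (d ^ j x) := by
      have h4 : t x ^ (d ^ i x) = t x ^ (d ^ j x) * t x ^ (d ^ i x - d ^ j x) := by
        rw [← pow_add]
        congr 1
        have := hpow x hji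
        omega
      rw [h4, ht x hx, mul_assoc, inv_mul_cancel₀ (hμ0 x hx), mul_one]
    ext
    · simp only [Prod.smul_fst, smul_eq_mul, map_mul]
      rw [← mul_assoc, h3]
    · simp only [Prod.smul_snd, smul_eq_mul, map_mul]
      rw [← mul_assoc, h3]
  · intro x hx y hy hxy
    have h1 : wd ((τ * t x) • ((ι x, 1) : L × L)) ((τ * t y) • ((ι y, 1) : L × L)) =
        τ ^ 2 * t x * t y * ι (x - y) := by
      rw [wd_smul_left, wd_smul_right]
      unfold wd
      rw [map_sub]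
      ring
    have hxy0 : ι (x - y) ≠ 0 := by
      rw [Ne, map_eq_zero]
      exact sub_ne_zero.mpr hxy
    have a1 := ht0 x hx
    have a2 := ht0 y hy
    rw [h1]
    refine ⟨by positivity, ?_⟩
    rw [norm_mul, norm_mul, norm_mul, norm_pow,
      Real.log_mul (by positivity) (norm_ne_zero_iff.mpr hxy0),
      Real.log_mul (by positivity) (norm_ne_zero_iff.mpr a2),
      Real.log_mul (by positivity) (norm_ne_zero_iff.mpr a1), Real.log_pow, hlogt x hx,
      hlogt y hy, hv]
    unfold prE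
    push_cast
    rw [hlogτ, hv]
    ring

end lift

end Pool.Agent.UBC90787a
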