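import Pool.Agent.Lib.MP_90787a_nt.RF.Wedge

set_option autoImplicit false
set_option linter.unusedSectionVars false

/-!
Base points on the unit circle and generic points for linear forms.
-/

namespace Pool.Agent.UBC90787a

open Finset

section circle

/-- Points of the unit circle. -/
noncomputable def cpt (n m : ℕ) : ℂ := Complex.exp (Complex.I * ((2 * Real.pi * m / n : ℝ) : ℂ))

lemma norm_cpt (n m : ℕ) : ‖cpt n m‖ = 1 := by
  unfold cpt
  rw [mul_comm]
  exact Complex.norm_exp_ofReal_mul_I _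

lemma cpt_add (n a b : ℕ) : cpt n (a + b) = cpt n a * cpt n b := by
  unfold cpt
  rw [← Complex.exp_add]
  congr 1
  push_cast
  ring

lemma norm_cpt_sub {n a b : ℕ} (hn : 0 < n) (hab : a ≤ b) (hb : b ≤ a + n) :
    4 * ((min (b - a) (n - (b - a)) : ℕ) : ℝ) / n ≤ ‖cpt n b - cpt n a‖ := by
  obtain ⟨k, rfl⟩ := Nat.exists_eq_add_of_le hab
  have hk : k ≤ n := by omega
  rw [cpt_add, Nat.add_sub_cancel_left]
  have h1 : cpt n a * cpt n k - cpt n a = cpt n a * (cpt n k - 1) := by ring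
  have hn0 : (0 : ℝ) < n := by exact_mod_cast hn
  have hpi := Real.pi_pos
  rw [h1, norm_mul, norm_cpt, one_mul]
  unfold cpt
  rw [Complex.norm_exp_I_mul_ofReal_sub_one, norm_mul, Real.norm_ofNat,
    show 2 * Real.pi * (k : ℝ) / n / 2 = Real.pi * k / n by ring]
  have h2 : 2 * ((min k (n - k) : ℕ) : ℝ) / n ≤ Real.sin (Real.pi * k / n) := by
    rcases le_or_gt (Real.pi * k / n) (Real.pi / 2) with h | h
    · have h3 := Real.mul_le_sin (x := Real.pi * k / n) (by positivity) h
      refine le_trans ?_ h3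
      have h4 : 2 / Real.pi * (Real.pi * k / n) = 2 * k / n := by field_simp
      rw [h4]
      have : ((min k (n - k) : ℕ) : ℝ) ≤ k := by exact_mod_cast Nat.min_le_left _ _
      gcongr
    · have hnk : ((n - k : ℕ) : ℝ) = n - k := Nat.cast_sub hk
      have h5 : Real.pi - Real.pi * k / n = Real.pi * ((n - k : ℕ) : ℝ) / n := by
        rw [hnk]
        field_simp
      have h3 := Real.mul_le_sin (x := Real.pi * ((n - k : ℕ) : ℝ) / n) (by positivity) (by
        rw [← h5]
        linarith)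
      rw [← Real.sin_pi_sub, h5]
      refine le_trans ?_ h3
      have h4 : 2 / Real.pi * (Real.pi * ((n - k : ℕ) : ℝ) / n) = 2 * ((n - k : ℕ) : ℝ) / n := by
        field_simp
      rw [h4]
      have : ((min k (n - k) : ℕ) : ℝ) ≤ ((n - k : ℕ) : ℝ) := by
        exact_mod_cast Nat.min_le_right _ _
      gcongr
  have h3 := Real.le_norm_self (Real.sin (Real.pi * k / n))
  calc 4 * ((min k (n - k) : ℕ) : ℝ) / n = 2 * (2 * ((min k (n - k) : ℕ) : ℝ) / n) := by ring
    _ ≤ 2 * ‖Real.sin (Real.pi * k / n)‖ := by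
        have := h2.trans h3
        linarith

lemma norm_cpt_sub' {n a b : ℕ} (ha : a < n) (hb : b < n) (hab : a ≠ b) :
    4 / (n : ℝ) ≤ ‖cpt n a - cpt n b‖ := by
  have hn : 0 < n := by omega
  have hn0 : (0 : ℝ) < n := by exact_mod_cast hn
  rcases lt_or_gt_of_ne hab with h | h
  · rw [norm_sub_rev]
    refine le_trans ?_ (norm_cpt_sub hn h.le (by omega))
    have h1 : 1 ≤ min (b - a) (n - (b - a)) := by omega
    have h2 : (1 : ℝ) ≤ ((min (b - a) (n - (b - a)) : ℕ) : ℝ) := by exact_mod_cast h1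
    have : 4 * 1 / (n : ℝ) ≤ 4 * ((min (b - a) (n - (b - a)) : ℕ) : ℝ) / n := by gcongr
    simpa using this
  · refine le_trans ?_ (norm_cpt_sub hn h.le (by omega))
    have h1 : 1 ≤ min (a - b) (n - (a - b)) := by omega
    have h2 : (1 : ℝ) ≤ ((min (a - b) (n - (a - b)) : ℕ) : ℝ) := by exact_mod_cast h1
    have : 4 * 1 / (n : ℝ) ≤ 4 * ((min (a - b) (n - (a - b)) : ℕ) : ℝ) / n := by gcongr
    simpa using this

lemma cpt_mul_eq (T N j : ℕ) (hT : 0 < T) : cpt (T * (N + 1)) ((N + 1) * j) = cpt T j := by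
  unfold cpt
  congr 3
  have hT0 : (T : ℝ) ≠ 0 := by exact_mod_cast hT.ne'
  push_cast
  field_simp

lemma cpt_spread {T : ℕ} (hT : 16 ≤ T) {s : Finset (Fin T)} (hs : T < 8 * s.card) :
    ∃ i ∈ s, ∃ j ∈ s, 1 / 16 ≤ ‖cpt T i - cpt T j‖ := by
  have hne : s.Nonempty := by
    rw [← Finset.card_pos]
    omega
  obtain ⟨i, hi, hmin⟩ : ∃ i ∈ s, ∀ j ∈ s, i ≤ j := ⟨s.min' hne, s.min'_mem hne,
    fun j hj => s.min'_le j hj⟩
  by_contra hcon
  push Not at hcon
  have h1 : ∀ j ∈ s, 64 * min ((j : ℕ) - i) (T - ((j : ℕ) - i)) < T := by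
    intro j hj
    have h2 := hcon i hi j hj
    rw [norm_sub_rev] at h2
    have h3 := norm_cpt_sub (n := T) (a := i) (b := j) (by omega) (hmin j hj)
      (by have := j.2; omega)
    have hT0 : (0 : ℝ) < T := by exact_mod_cast (by omega : 0 < T)
    have h4 := lt_of_le_of_lt h3 h2
    rw [div_lt_iff₀ hT0] at h4
    have h5 : (64 : ℝ) * ((min ((j : ℕ) - i) (T - ((j : ℕ) - i)) : ℕ) : ℝ) < T := by linarith
    exact_mod_cast h5
  have h2 : s.card ≤ (range ((T + 63) / 64) ∪ Ico (T - (T - 1) / 64) T).card := by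
    apply Finset.card_le_card_of_injOn (fun j : Fin T => (j : ℕ) - i)
    · intro j hj
      have h3 := h1 j hj
      have h4 := j.2
      have h5 : (i : ℕ) ≤ j := hmin j hj
      simp only [Finset.coe_union, Finset.coe_range, Finset.coe_Ico, Set.mem_union, Set.mem_Iio,
        Set.mem_Ico]
      omega
    · intro a ha b hb hab
      have h3 : (i : ℕ) ≤ a := hmin a ha
      have h4 : (i : ℕ) ≤ b := hmin b hb
      simp only at hab
      apply Fin.ext
      omega
  have h3 := Finset.card_union_le (range ((T + 63) / 64)) (Ico (T - (T - 1) / 64) T)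
  rw [Finset.card_range, Nat.card_Ico] at h3
  omega

lemma cpt_one_pow (T j : ℕ) (_hT : 0 < T) :
    cpt T j = (Complex.exp (2 * Real.pi * Complex.I / T)) ^ j := by
  unfold cpt
  rw [← Complex.exp_nat_mul]
  congr 1
  push_cast
  ring

lemma prod_cpt {T : ℕ} (hT : 0 < T) (i : Fin T) :
    ∏ j ∈ univ.erase i, ‖cpt T i - cpt T j‖ = T := by
  classical
  set ζ : ℂ := Complex.exp (2 * Real.pi * Complex.I / T) with hζ
  have hprim : IsPrimitiveRoot ζ T := Complex.isPrimitiveRoot_exp T hT.ne'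
  have hinj : Function.Injective (fun j : Fin T => ζ ^ (j : ℕ)) := by
    intro a b hab
    exact Fin.ext (hprim.pow_inj a.2 b.2 hab)
  have himg : univ.image (fun j : Fin T => ζ ^ (j : ℕ)) = Polynomial.nthRootsFinset T (1 : ℂ) := by
    apply Finset.eq_of_subset_of_card_le
    · intro x hx
      obtain ⟨j, _, rfl⟩ := Finset.mem_image.mp hx
      rw [Polynomial.mem_nthRootsFinset hT]
      rw [← pow_mul, mul_comm, pow_mul, hprim.pow_eq_one, one_pow]
    · rw [hprim.card_nthRootsFinset, Finset.card_image_of_injective _ hinj, Finset.card_univ,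
        Fintype.card_fin]
  have hnod : Lagrange.nodal univ (fun j : Fin T => ζ ^ (j : ℕ)) = Polynomial.X ^ T - 1 := by
    rw [Polynomial.X_pow_sub_one_eq_prod hT hprim, ← himg, Lagrange.nodal_eq,
      Finset.prod_image (fun a _ b _ h => hinj h)]
  have h1 := Lagrange.eval_nodal_derivative_eval_node_eq (s := univ)
    (v := fun j : Fin T => ζ ^ (j : ℕ)) (Finset.mem_univ i)
  rw [hnod, Lagrange.eval_nodal] at h1
  simp only [Polynomial.derivative_sub, Polynomial.derivative_X_pow, Polynomial.derivative_one,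
    sub_zero, Polynomial.eval_mul, Polynomial.eval_pow, Polynomial.eval_X,
    Polynomial.eval_C] at h1
  have h2 := congrArg (fun z : ℂ => ‖z‖) h1
  simp only [norm_mul, norm_prod, norm_pow] at h2
  have hζ1 : ‖ζ‖ = 1 := hprim.norm'_eq_one hT.ne'
  rw [hζ1, one_pow, one_pow, mul_one] at h2
  simp only [cpt_one_pow _ _ hT, ← hζ]
  rw [← h2]
  simp

/-- Base vectors on the unit circle. -/
lemma arch_base (T N : ℕ) (hT : 1 ≤ T) (x : Fin N → ℂ × ℂ) (hx : ∀ i, x i ≠ 0) :
    ∃ u : Fin T → ℂ × ℂ, (∀ j, ‖u j‖ = 1) ∧ (∀ i j, i ≠ j → wd (u i) (u j) ≠ 0) ∧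
      (∀ i, 0 ≤ ∑ j ∈ univ.erase i, Real.log ‖wd (u i) (u j)‖) ∧
      (∀ i j, Real.exp (-(8 * Real.log 2 * (1 + Real.log T + Real.log (N + 1)))) * ‖x i‖ ≤
        ‖wd (x i) (u j)‖) ∧
      (∀ s : Finset (Fin T), 16 ≤ T → T < 8 * s.card → ∃ i ∈ s, ∃ j ∈ s,
        Real.exp (-(4 * Real.log 2)) ≤ ‖wd (u i) (u j)‖) := by
  classical
  set n : ℕ := T * (N + 1) with hn
  have hn0 : 0 < n := Nat.mul_pos hT (Nat.succ_pos N)
  have hnR : (0 : ℝ) < n := by exact_mod_cast hn0
  have hn1 : (1 : ℝ) ≤ n := by exact_mod_cast hn0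
  set δ : ℝ := Real.exp (-(8 * Real.log 2 * (1 + Real.log T + Real.log (N + 1)))) with hδ
  have hδ0 : 0 < δ := Real.exp_pos _
  have hlog2 := Real.log_two_gt_d9
  have hlogn : Real.log T + Real.log ((N : ℝ) + 1) = Real.log n := by
    rw [hn, Nat.cast_mul, Real.log_mul]
    · push_cast
      rfl
    · have : (0 : ℝ) < T := by exact_mod_cast hT
      exact this.ne'
    · positivity
  have hlogn0 : 0 ≤ Real.log n := Real.log_nonneg hn1
  have hδn : δ ≤ 1 / n := by
    rw [hδ, one_div, ← Real.exp_log (inv_pos.mpr hnR), Real.log_inv]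
    apply Real.exp_le_exp.mpr
    have : Real.log n ≤ 8 * Real.log 2 * (1 + Real.log T + Real.log (N + 1)) := by
      rw [add_assoc, hlogn]
      nlinarith
    linarith
  have hδ2 : δ < 1 / 2 := by
    rw [hδ, one_div, ← Real.exp_log (show (0 : ℝ) < (2 : ℝ)⁻¹ by norm_num), Real.log_inv]
    apply Real.exp_lt_exp.mpr
    have : Real.log 2 < 8 * Real.log 2 * (1 + Real.log T + Real.log (N + 1)) := by
      rw [add_assoc, hlogn]
      nlinarith
    linarith
  -- vectors
  set w : ℕ → ℕ → ℂ × ℂ := fun r j => (cpt n ((N + 1) * j + r), 1) with hw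
  have hgood : ∃ r : Fin (N + 1), ∀ i : Fin N, ∀ j : Fin T, δ * ‖x i‖ ≤ ‖wd (x i) (w r j)‖ := by
    by_contra hcon
    push Not at hcon
    have h1 : (univ : Finset (Fin (N + 1))) ⊆ (univ : Finset (Fin N)).biUnion
        (fun i => univ.filter (fun r : Fin (N + 1) => ∃ j : Fin T,
          ‖wd (x i) (w r j)‖ < δ * ‖x i‖)) := by
      intro r _
      obtain ⟨i, j, hij⟩ := hcon r
      exact Finset.mem_biUnion.mpr ⟨i, Finset.mem_univ i, Finset.mem_filter.mpr
        ⟨Finset.mem_univ r, j, hij⟩⟩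
    have h2 : ∀ i ∈ (univ : Finset (Fin N)), (univ.filter (fun r : Fin (N + 1) => ∃ j : Fin T,
          ‖wd (x i) (w r j)‖ < δ * ‖x i‖)).card ≤ 1 := by
      intro i _
      rw [Finset.card_le_one]
      intro r hr r' hr'
      obtain ⟨j, hj⟩ := (Finset.mem_filter.mp hr).2
      obtain ⟨j', hj'⟩ := (Finset.mem_filter.mp hr').2
      by_contra hne
      have hm : (N + 1) * (j : ℕ) + r < n := by
        have a1 := j.2
        have a2 := r.2
        calc (N + 1) * (j : ℕ) + r < (N + 1) * (j : ℕ) + (N + 1) := by omega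
          _ = (N + 1) * (j + 1) := by ring
          _ ≤ (N + 1) * T := Nat.mul_le_mul_left _ (by omega)
          _ = n := by rw [hn]; ring
      have hm' : (N + 1) * (j' : ℕ) + r' < n := by
        have a1 := j'.2
        have a2 := r'.2
        calc (N + 1) * (j' : ℕ) + r' < (N + 1) * (j' : ℕ) + (N + 1) := by omega
          _ = (N + 1) * (j' + 1) := by ring
          _ ≤ (N + 1) * T := Nat.mul_le_mul_left _ (by omega)
          _ = n := by rw [hn]; ring
      have hmne : (N + 1) * (j : ℕ) + r ≠ (N + 1) * (j' : ℕ) + r' := by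
        intro h
        apply hne
        have h3 := congrArg (fun y => y % (N + 1)) h
        simp only [Nat.mul_add_mod] at h3
        rw [Nat.mod_eq_of_lt r.2, Nat.mod_eq_of_lt r'.2] at h3
        exact Fin.ext h3
      have h3 := norm_cpt_sub' hm hm' hmne
      have e1 : ∀ q : ℕ, ‖wd (x i) ((cpt n q, 1) : ℂ × ℂ)‖ = ‖(x i).1 - (x i).2 * cpt n q‖ := by
        intro q
        unfold wd
        rw [mul_one]
      simp only [hw, e1] at hj hj'
      have hxpos : 0 < ‖x i‖ := norm_pos_iff.mpr (hx i)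
      have h4 : ‖(x i).2‖ * ‖cpt n ((N + 1) * (j : ℕ) + r) - cpt n ((N + 1) * (j' : ℕ) + r')‖ <
          2 * (δ * ‖x i‖) := by
        rw [← norm_mul]
        have e2 : (x i).2 * (cpt n ((N + 1) * (j : ℕ) + r) - cpt n ((N + 1) * (j' : ℕ) + r')) =
            ((x i).1 - (x i).2 * cpt n ((N + 1) * (j' : ℕ) + r')) -
            ((x i).1 - (x i).2 * cpt n ((N + 1) * (j : ℕ) + r)) := by ring
        rw [e2]
        refine (norm_sub_le _ _).trans_lt ?_
        linarith
      have h5 : ‖x i‖ * (1 - δ) ≤ ‖(x i).2‖ := by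
        rw [Prod.norm_def] at hj ⊢
        rcases max_choice ‖(x i).1‖ ‖(x i).2‖ with h | h
        · rw [h] at hj ⊢
          have h6 : ‖(x i).1‖ ≤ ‖(x i).1 - (x i).2 * cpt n ((N + 1) * (j : ℕ) + r)‖ +
              ‖(x i).2 * cpt n ((N + 1) * (j : ℕ) + r)‖ := by
            have := norm_add_le ((x i).1 - (x i).2 * cpt n ((N + 1) * (j : ℕ) + r))
              ((x i).2 * cpt n ((N + 1) * (j : ℕ) + r))
            simpa using this
          rw [norm_mul, norm_cpt, mul_one] at h6
          linarith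
        · rw [h]
          have : 0 ≤ ‖(x i).2‖ := norm_nonneg _
          nlinarith
      have h6 : ‖x i‖ / 2 ≤ ‖(x i).2‖ := by nlinarith
      have h7 : ‖x i‖ / 2 * (4 / n) ≤ ‖(x i).2‖ *
          ‖cpt n ((N + 1) * (j : ℕ) + r) - cpt n ((N + 1) * (j' : ℕ) + r')‖ := by gcongr
      have h8 : 2 * (δ * ‖x i‖) ≤ ‖x i‖ / 2 * (4 / n) := by
        calc 2 * (δ * ‖x i‖) ≤ 2 * (1 / n * ‖x i‖) := by gcongr
          _ = ‖x i‖ / 2 * (4 / n) := by ring
      linarith
    have h3 := (Finset.card_le_card h1).trans (Finset.card_biUnion_le_card_mul _ _ 1 h2)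
    rw [Finset.card_univ, Fintype.card_fin, Finset.card_univ, Fintype.card_fin] at h3
    omega
  obtain ⟨r, hr⟩ := hgood
  have hwd : ∀ i j : Fin T, ‖wd (w r i) (w r j)‖ = ‖cpt T i - cpt T j‖ := by
    intro i j
    simp only [hw, wd, cpt_add, cpt_mul_eq T N _ hT, hn]
    rw [mul_one, one_mul, ← sub_mul, norm_mul, norm_cpt, mul_one]
  have hT0 : (0 : ℝ) < T := by exact_mod_cast hT
  have hne : ∀ i j : Fin T, i ≠ j → 0 < ‖cpt T i - cpt T j‖ := by
    intro i j hij
    refine lt_of_lt_of_le ?_ (norm_cpt_sub' i.2 j.2 (fun h => hij (Fin.ext h)))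
    positivity
  refine ⟨fun j => w r j, ?_, ?_, ?_, hr, ?_⟩
  · intro j
    rw [Prod.norm_def]
    simp [hw, norm_cpt]
  · intro i j hij
    rw [← norm_pos_iff, hwd]
    exact hne i j hij
  · intro i
    simp only [hwd]
    rw [← Real.log_prod (fun j hj => (hne i j (Finset.ne_of_mem_erase hj).symm).ne'),
      prod_cpt hT i]
    exact Real.log_natCast_nonneg T
  · intro s hT16 hs
    obtain ⟨i, hi, j, hj, hij⟩ := cpt_spread hT16 hs
    refine ⟨i, hi, j, hj, ?_⟩
    rw [hwd]
    refine le_trans (le_of_eq ?_) hij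
    rw [show -(4 * Real.log 2) = ((4 : ℕ) : ℝ) * (- Real.log 2) by push_cast; ring,
      Real.exp_nat_mul, Real.exp_neg, Real.exp_log (by norm_num)]
    norm_num

end circle

section mahler

open Polynomial Filter MeasureTheory Set in
/-- The Mahler measure is bounded by the values on the unit circle. -/
theorem mahlerMeasure_le_of_circle {p : ℂ[X]} (hp : p ≠ 0) {B : ℝ} (hB : 0 < B)
    (h : ∀ z : ℂ, ‖z‖ = 1 → ‖p.eval z‖ ≤ B) : p.mahlerMeasure ≤ B := by
  rw [show B = Real.exp (Real.circleAverage (fun _ ↦ Real.log B) 0 1)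
    by simp [Real.circleAverage_def, mul_assoc, Real.exp_log hB], mahlerMeasure_def_of_ne_zero hp,
    Real.circleAverage_def, smul_eq_mul]
  gcongr
  apply intervalIntegral.integral_mono_ae_restrict (by positivity)
    p.intervalIntegrable_mahlerMeasure (by simp)
  rw [EventuallyLE, eventually_iff_exists_mem]
  use {x : ℝ | eval (circleMap 0 1 x) p ≠ 0}
  constructor
  · rw [mem_ae_iff, compl_def, Measure.restrict_apply' (by simp)]
    apply (Finite.of_sdiff _ <| finite_singleton (2 * Real.pi)).measure_zero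
    simp only [ne_eq, mem_ofPred_eq, Decidable.not_not, inter_sdiff_assoc, Icc_sdiff_right]
    rw [ofPred_inter_eq_sep]
    apply Finite.of_finite_image (f := circleMap 0 1) ((Multiset.finite_toSet p.roots).subset _)
      <| fun _ h _ k l ↦ injOn_circleMap_of_abs_sub_le' one_ne_zero (by linarith) h.1 k.1 l
    simp [hp]
  · intro y hy
    gcongr
    exact h _ (by simp)

open Polynomial in
/-- Generic points for linear forms. -/
lemma arch_generic (n : ℕ) (z : Fin n → ℂ × ℂ) (hz : ∀ i, z i ≠ 0) (η : ℝ) (hη : 0 < η) :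
    ∃ x : ℂ × ℂ, ‖x‖ = 1 ∧ (∀ i, wd x (z i) ≠ 0) ∧
      ∑ i, Real.log ‖z i‖ - η ≤ ∑ i, Real.log ‖wd x (z i)‖ := by
  set F : Fin n → ℂ[X] := fun i => C (z i).2 * X - C (z i).1 with hF
  have hFe : ∀ i (t : ℂ), (F i).eval t = wd ((t, 1) : ℂ × ℂ) (z i) := by
    intro i t
    simp only [hF, eval_sub, eval_mul, eval_C, eval_X, wd]
    ring
  have hF0 : ∀ i, F i ≠ 0 := by
    intro i h0
    have h1 := congrArg (fun q => coeff q 1) h0
    have h2 := congrArg (fun q => coeff q 0) h0
    simp [hF] at h1 h2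
    exact hz i (Prod.ext h2 h1)
  have hM : ∀ i, (F i).mahlerMeasure = ‖z i‖ := by
    intro i
    rw [Prod.norm_def]
    by_cases h : (z i).2 = 0
    · simp only [hF, h, C_0, zero_mul, zero_sub, ← C_neg]
      rw [mahlerMeasure_const, norm_neg, norm_zero, max_eq_left (norm_nonneg _)]
    · simp only [hF, sub_eq_add_neg, ← C_neg]
      rw [mahlerMeasure_C_mul_X_add_C h, norm_neg, max_comm]
  have hprod : (∏ i, F i).mahlerMeasure = ∏ i, ‖z i‖ := by
    have := prod_mahlerMeasure_eq_mahlerMeasure_prod (univ.val.map F)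
    rw [Finset.prod_eq_multiset_prod, this, Multiset.map_map, Finset.prod_eq_multiset_prod]
    congr 1
    exact Multiset.map_congr rfl (fun i _ => hM i)
  have hP0 : ∏ i, F i ≠ 0 := Finset.prod_ne_zero_iff.mpr (fun i _ => hF0 i)
  set B0 : ℝ := ∏ i, ‖z i‖ with hB0
  have hB0pos : 0 < B0 := Finset.prod_pos (fun i _ => norm_pos_iff.mpr (hz i))
  by_contra hcon
  push Not at hcon
  have hle : (∏ i, F i).mahlerMeasure ≤ B0 * Real.exp (-η) := by
    apply mahlerMeasure_le_of_circle hP0 (by positivity)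
    intro t ht
    rw [eval_prod, norm_prod]
    simp only [hFe]
    by_cases h : ∀ i, wd ((t, 1) : ℂ × ℂ) (z i) ≠ 0
    · have h1 := hcon (t, 1) (by rw [Prod.norm_def]; simp [ht]) h
      have h2 : 0 < ∏ i, ‖wd ((t, 1) : ℂ × ℂ) (z i)‖ :=
        Finset.prod_pos (fun i _ => norm_pos_iff.mpr (h i))
      rw [← Real.log_prod (fun i _ => (norm_pos_iff.mpr (h i)).ne'),
        ← Real.log_prod (fun i _ => (norm_pos_iff.mpr (hz i)).ne'), ← hB0] at h1
      rw [← Real.log_le_log_iff h2 (by positivity), Real.log_mul hB0pos.ne' (Real.exp_pos _).ne',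
        Real.log_exp]
      linarith
    · push Not at h
      obtain ⟨i, hi⟩ := h
      rw [Finset.prod_eq_zero (Finset.mem_univ i) (by rw [hi, norm_zero])]
      positivity
  rw [hprod] at hle
  have h1 : Real.exp (-η) < 1 := by rw [Real.exp_lt_one_iff]; linarith
  nlinarith

end mahler

end Pool.Agent.UBC90787a
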