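import Pool.Agent.Lib.MP_90787a_nt.RF.Master

set_option autoImplicit false
set_option linter.unusedSectionVars false

/-!
The basic upper bound for the energy of preperiodic vectors.
-/

namespace Pool.Agent.UBC90787a

open Finset

section expand

variable {V : Type} {I : Type} {T D : ℕ}

lemma quad_expand (Y : Finset I) (p : I → V) (z : Fin T → Fin D → V) {K : V → V → ℝ}
    (hK : ∀ i ∈ Y, ∀ k l, K (z k l) (p i) = K (p i) (z k l)) (a b : ℝ) :
    ∑ i ∈ Y.disjSum (univ : Finset (Fin T × Fin D)), ∑ j ∈ Y.disjSum univ,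
      (Sum.elim (fun _ => a) (fun _ => b) i : ℝ) * (Sum.elim (fun _ => a) (fun _ => b) j : ℝ) *
        K (Sum.elim p (fun kl : Fin T × Fin D => z kl.1 kl.2) i)
          (Sum.elim p (fun kl : Fin T × Fin D => z kl.1 kl.2) j) =
    a ^ 2 * (∑ i ∈ Y, ∑ j ∈ Y, K (p i) (p j)) +
      2 * (a * b) * (∑ i ∈ Y, ∑ k, ∑ l, K (p i) (z k l)) +
      b ^ 2 * (∑ k, ∑ l, ∑ k', ∑ l', K (z k l) (z k' l')) := by
  rw [Finset.sum_disjSum]
  simp only [Finset.sum_disjSum, Sum.elim_inl, Sum.elim_inr]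
  have e1 : ∀ i, ∑ x : Fin T × Fin D, a * b * K (p i) (z x.1 x.2) =
      a * b * ∑ k, ∑ l, K (p i) (z k l) := by
    intro i
    rw [← Finset.mul_sum, Fintype.sum_prod_type]
  have e2 : ∑ x : Fin T × Fin D, ∑ i ∈ Y, b * a * K (z x.1 x.2) (p i) =
      a * b * ∑ i ∈ Y, ∑ k, ∑ l, K (p i) (z k l) := by
    rw [Finset.sum_comm, Finset.mul_sum]
    refine Finset.sum_congr rfl (fun i hi => ?_)
    rw [← Finset.mul_sum, Fintype.sum_prod_type]
    simp only [hK i hi]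
    ring
  have e3 : ∑ x : Fin T × Fin D, ∑ y : Fin T × Fin D, b * b * K (z x.1 x.2) (z y.1 y.2) =
      b ^ 2 * ∑ k, ∑ l, ∑ k', ∑ l', K (z k l) (z k' l') := by
    simp only [← Finset.mul_sum, Fintype.sum_prod_type]
    ring
  simp only [Finset.sum_add_distrib]
  rw [e2, e3]
  simp only [e1, ← Finset.mul_sum]
  ring

lemma lin_expand (Y : Finset I) (p : I → V) (z : Fin T → Fin D → V) (U : V → ℝ) (a b : ℝ) :
    ∑ i ∈ Y.disjSum (univ : Finset (Fin T × Fin D)),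
      (Sum.elim (fun _ => a) (fun _ => b) i : ℝ) *
        U (Sum.elim p (fun kl : Fin T × Fin D => z kl.1 kl.2) i) =
    a * (∑ i ∈ Y, U (p i)) + b * (∑ k, ∑ l, U (z k l)) := by
  rw [Finset.sum_disjSum]
  simp only [Sum.elim_inl, Sum.elim_inr]
  rw [← Finset.mul_sum, ← Finset.mul_sum, Fintype.sum_prod_type]

end expand

section baseline

variable {L : Type} [NormedField L] (G : Geo L) {Φ : L × L → L × L} {d : ℕ}

lemma clog_le {d N : ℕ} (hd : 2 ≤ d) (hN : 1 ≤ N) :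
    (Nat.clog d N : ℝ) ≤ 2 * (1 + Real.log N) := by
  have h1 : Nat.clog d N ≤ Nat.clog 2 N := Nat.clog_anti_left (by norm_num) hd
  have h2 : Nat.clog 2 N ≤ Nat.log 2 N + 1 := by
    rw [Nat.clog_le_iff_le_pow (by norm_num)]
    exact (Nat.lt_pow_succ_log_self (by norm_num) N).le
  have h3 : (Nat.log 2 N : ℝ) * Real.log 2 ≤ Real.log N := by
    rw [← Real.log_pow]
    apply Real.log_le_log (by positivity)
    exact_mod_cast Nat.pow_log_le_self 2 (by omega)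
  have h4 : (Nat.clog d N : ℝ) ≤ Nat.log 2 N + 1 := by exact_mod_cast h1.trans h2
  have h5 := Real.log_two_gt_d9
  have h6 : (0 : ℝ) ≤ Nat.log 2 N := Nat.cast_nonneg _
  nlinarith

/-- A configuration of base vectors and their preimages, separated from the given vectors. -/
lemma exists_config (h : UMap Φ d) (hd : 2 ≤ d) {R : ℝ} (hR : 0 ≤ R) (hB : Bd Φ d R)
    {I : Type} {Y : Finset I} {p : I → L × L}
    (hp : ∀ i ∈ Y, p i ≠ 0) (n T : ℕ) (hT : 1 ≤ T) :
    ∃ (u : Fin T → L × L) (z : Fin T → Fin (d ^ n) → L × L),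
      (∀ j, ‖u j‖ = 1) ∧ (∀ i j, i ≠ j → wd (u i) (u j) ≠ 0) ∧
      (∀ i, 0 ≤ ∑ j ∈ univ.erase i, Real.log ‖wd (u i) (u j)‖) ∧
      (∀ s : Finset (Fin T), 16 ≤ T → T < 8 * s.card → ∃ i ∈ s, ∃ j ∈ s,
        Real.exp (-(4 * G.k)) ≤ ‖wd (u i) (u j)‖) ∧
      (∀ k l, Φ^[n] (z k l) = u k) ∧
      (∀ k x, ‖wd (Φ^[n] x) (u k)‖ = ∏ l, ‖wd x (z k l)‖) ∧
      ∀ i ∈ Y, ∀ k l, Real.exp (-(8 * G.k * (1 + Real.log T + Real.log (Y.card + 1)) +
        n * (d * G.k + R + (2 * d * R + d * G.k)) + 2 * G.k)) ≤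
          ‖wd (p i) (z k l)‖ / (G.nrm (p i) * G.nrm (z k l)) := by
  have hd1 : 1 ≤ d := by omega
  have hin : UMap (Φ^[n]) (d ^ n) := h.iter hd1 n
  have hM1 : 1 ≤ d ^ n := Nat.one_le_pow _ _ (by omega)
  have hk := G.k_nonneg
  obtain ⟨u, hu1, hu2, hu3, hu4, hu5⟩ := G.base T Y.card hT
    (fun j => Φ^[n] (p ((Y.equivFin).symm j))) (fun j =>
      hin.ne_zero hM1 (hp _ ((Y.equivFin).symm j).2))
  have hu0 : ∀ j, u j ≠ 0 := fun j => by rw [← norm_pos_iff, hu1]; exact one_pos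
  choose z hz1 hz2 using fun j => hin.pre (u j) (hu0 j)
  refine ⟨u, z, hu1, hu2, hu3, hu5, hz1, hz2, ?_⟩
  intro i hi k l
  have hz0 : z k l ≠ 0 := hin.pre_ne_zero hM1 (hu0 k) (hz1 k l)
  have hpi := hp i hi
  have h1 := hu4 (Y.equivFin ⟨i, hi⟩) k
  simp only [Equiv.symm_apply_apply] at h1
  have hΦ : Φ^[n] (p i) ≠ 0 := hin.ne_zero hM1 hpi
  have h2 : Real.exp (-(8 * G.k * (1 + Real.log T + Real.log (Y.card + 1)))) ≤
      dl (Φ^[n] (p i)) (Φ^[n] (z k l)) := by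
    unfold dl
    rw [hz1, hu1, mul_one, le_div_iff₀ (norm_pos_iff.mpr hΦ)]
    exact h1
  have h3 := h2.trans (h.dl_iter_le G hd1 hR hB n hpi hz0)
  have h4 : dl (p i) (z k l) ≤
      Real.exp (2 * G.k) * (‖wd (p i) (z k l)‖ / (G.nrm (p i) * G.nrm (z k l))) := by
    have a1 := norm_pos_iff.mpr hpi
    have a2 := norm_pos_iff.mpr hz0
    have a3 := G.nrm_pos hpi
    have a4 := G.nrm_pos hz0
    have a5 := G.nrm_le (p i)
    have a6 := G.nrm_le (z k l)
    unfold dl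
    rw [mul_div_assoc', div_le_div_iff₀ (by positivity) (by positivity)]
    calc ‖wd (p i) (z k l)‖ * (G.nrm (p i) * G.nrm (z k l))
        ≤ ‖wd (p i) (z k l)‖ * ((Real.exp G.k * ‖p i‖) * (Real.exp G.k * ‖z k l‖)) := by gcongr
      _ = Real.exp (2 * G.k) * ‖wd (p i) (z k l)‖ * (‖p i‖ * ‖z k l‖) := by
          rw [two_mul, Real.exp_add]
          ring
  set W : ℝ := ‖wd (p i) (z k l)‖ / (G.nrm (p i) * G.nrm (z k l)) with hW
  have h5 : Real.exp (-(8 * G.k * (1 + Real.log T + Real.log (Y.card + 1)))) ≤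
      W * Real.exp (2 * G.k + n * (d * G.k + R + (2 * d * R + d * G.k))) := by
    refine h3.trans ?_
    rw [Real.exp_add]
    calc dl (p i) (z k l) * Real.exp (n * (d * G.k + R + (2 * d * R + d * G.k)))
        ≤ (Real.exp (2 * G.k) * W) * Real.exp (n * (d * G.k + R + (2 * d * R + d * G.k))) := by
          gcongr
      _ = _ := by ring
  have h6 : Real.exp (-(8 * G.k * (1 + Real.log T + Real.log (Y.card + 1)) +
        n * (d * G.k + R + (2 * d * R + d * G.k)) + 2 * G.k)) =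
      Real.exp (-(8 * G.k * (1 + Real.log T + Real.log (Y.card + 1)))) *
        (Real.exp (2 * G.k + n * (d * G.k + R + (2 * d * R + d * G.k))))⁻¹ := by
    rw [← Real.exp_neg, ← Real.exp_add]
    congr 1
    ring
  rw [h6, ← div_eq_mul_inv, div_le_iff₀ (Real.exp_pos _)]
  exact h5

theorem rf_baseline (h : UMap Φ d) (hd : 2 ≤ d) {R : ℝ} (hR : 0 ≤ R) (hB : Bd Φ d R)
    {I : Type} [DecidableEq I] {Y : Finset I} {p : I → L × L}
    (hp : ∀ i ∈ Y, p i ≠ 0) (hpp : ∀ i ∈ Y, ∀ j ∈ Y, i ≠ j → wd (p i) (p j) ≠ 0)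
    (hpre : ∀ i ∈ Y, Preper Φ (p i)) :
    en p Y ≤ 100 * d * (R + G.k) * (Y.card * (1 + Real.log Y.card)) := by
  classical
  have hk := G.k_nonneg
  have hdR : (2 : ℝ) ≤ d := by exact_mod_cast hd
  rcases Finset.eq_empty_or_nonempty Y with rfl | hY
  · simp [en]
  have hN1' : 1 ≤ Y.card := hY.card_pos
  have hN1 : (1 : ℝ) ≤ Y.card := by exact_mod_cast hN1'
  have hlog : 0 ≤ Real.log Y.card := Real.log_nonneg hN1
  set n : ℕ := Nat.clog d Y.card with hn
  obtain ⟨u, z, hu1, hu2, hu3, _, hz1, hz2, hsep⟩ := exists_config G h hd hR hB hp n Y.card hN1'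
  set c1 : ℝ := d * G.k + R + (2 * d * R + d * G.k) with hc1
  have hc1n : 0 ≤ c1 := by positivity
  set g : ℝ := 8 * G.k * (1 + Real.log Y.card + Real.log (Y.card + 1)) with hg
  have hlog1 : Real.log (Y.card + 1) ≤ 1 + Real.log Y.card := by
    have h1 : Real.log ((Y.card : ℝ) + 1) ≤ Real.log (2 * Y.card) :=
      Real.log_le_log (by positivity) (by linarith)
    rw [Real.log_mul (by norm_num) (by positivity)] at h1
    have h2 := Real.log_two_lt_d9
    linarith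
  have hlog1n : 0 ≤ Real.log ((Y.card : ℝ) + 1) := Real.log_nonneg (by linarith)
  have hgn : 0 ≤ g := by positivity
  set ε : ℝ := Real.exp (-(g + n * c1 + 2 * G.k)) with hε
  have hε0 : 0 < ε := Real.exp_pos _
  have hε1 : ε ≤ 1 := by
    rw [hε, Real.exp_le_one_iff]
    have : 0 ≤ g + n * c1 + 2 * G.k := by positivity
    linarith
  obtain ⟨ker, k0, k1, k2, k3, k4, _⟩ := G.kernel ε Y.card hε0 hε1 hN1'
  have hd1 : 1 ≤ d := by omega
  have hin : UMap (Φ^[n]) (d ^ n) := h.iter hd1 n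
  have hM1 : 1 ≤ d ^ n := Nat.one_le_pow _ _ (by omega)
  have hu0 : ∀ j, u j ≠ 0 := fun j => by rw [← norm_pos_iff, hu1]; exact one_pos
  have hz0 : ∀ k l, z k l ≠ 0 := fun k l => hin.pre_ne_zero hM1 (hu0 k) (hz1 k l)
  have hmaster := master G h hd hR hB hY hp hpp hpre hN1' hu1 hu2 hu3 hz1 hz2 hε0 k1 k2 k3 hsep
  have hpos := k4 (I ⊕ (Fin Y.card × Fin (d ^ n))) (Y.disjSum univ)
    (Sum.elim p (fun kl : Fin Y.card × Fin (d ^ n) => z kl.1 kl.2))
    (Sum.elim (fun _ => 1 / (Y.card : ℝ)) (fun _ => - (1 / (Y.card * (d : ℝ) ^ n)))) (by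
      intro i hi
      rcases i with i | i
      · exact hp i (by simpa using hi)
      · exact hz0 _ _)
  rw [quad_expand Y p z (K := ker) (fun i hi k l => k0 _ _ (hz0 k l) (hp i hi))] at hpos
  have hM0 : (0 : ℝ) < (d : ℝ) ^ n := by positivity
  have hN0 : (0 : ℝ) < Y.card := by linarith
  have hMN : (Y.card : ℝ) ≤ (d : ℝ) ^ n := by
    exact_mod_cast Nat.le_pow_clog (by omega) Y.card
  have hpos' : 0 ≤ (∑ i ∈ Y, ∑ j ∈ Y, ker (p i) (p j)) / (Y.card : ℝ) ^ 2 -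
      2 * (∑ i ∈ Y, ∑ k, ∑ l, ker (p i) (z k l)) / (Y.card * (Y.card * (d : ℝ) ^ n)) +
      (∑ k, ∑ l, ∑ k', ∑ l', ker (z k l) (z k' l')) / (Y.card * (d : ℝ) ^ n) ^ 2 := by
    refine hpos.trans (le_of_eq ?_)
    field_simp
    ring
  have h1 := hpos'.trans hmaster
  set N : ℝ := (Y.card : ℝ) with hNdef
  set E : ℝ := - Real.log ε + 4 * G.k * (1 + Real.log N) with hE
  have hEv : E = g + n * c1 + 2 * G.k + 4 * G.k * (1 + Real.log N) := by
    rw [hE, hε, Real.log_exp]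
    ring
  set C0 : ℝ := G.k + (2 * d * R + d * G.k) with hC0
  have hC0n : 0 ≤ C0 := by positivity
  have h2 : 2 * C0 / (d : ℝ) ^ n ≤ 2 * C0 / N := by gcongr
  have h3 : en p Y / N ^ 2 ≤ (2 * E + 4 * R + 8 * G.k + 2 * C0) / N := by
    have e1 : (2 * E + 4 * R + 8 * G.k + 2 * C0) / N =
        (E + 2 * R) / N + (E + 2 * R) / N + 2 * (4 * G.k / N) + 2 * C0 / N := by ring
    rw [e1]
    have e2 : - en p Y / N ^ 2 = - (en p Y / N ^ 2) := by ring
    rw [e2] at h1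
    linarith
  have h4 : en p Y ≤ N * (2 * E + 4 * R + 8 * G.k + 2 * C0) := by
    rw [div_le_div_iff₀ (by positivity) hN0] at h3
    have h5 : N * en p Y ≤ N * (N * (2 * E + 4 * R + 8 * G.k + 2 * C0)) := by
      calc N * en p Y = en p Y * N := mul_comm _ _
        _ ≤ (2 * E + 4 * R + 8 * G.k + 2 * C0) * N ^ 2 := h3
        _ = _ := by ring
    exact le_of_mul_le_mul_left h5 hN0
  refine h4.trans ?_
  have hncl : (n : ℝ) ≤ 2 * (1 + Real.log N) := clog_le hd hN1'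
  have hg2 : g ≤ 16 * G.k * (1 + Real.log N) := by
    rw [hg]
    have : 8 * G.k * (1 + Real.log N + Real.log (N + 1)) ≤
        8 * G.k * (2 * (1 + Real.log N)) := by
      gcongr
      linarith
    linarith
  have hnc : n * c1 ≤ 2 * (1 + Real.log N) * c1 := by gcongr
  have h5 : 2 * E + 4 * R + 8 * G.k + 2 * C0 ≤ 100 * d * (R + G.k) * (1 + Real.log N) := by
    rw [hEv]
    have a1 : R ≤ R * (1 + Real.log N) := by nlinarith
    have a2 : G.k ≤ G.k * (1 + Real.log N) := by nlinarith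
    have a3 : C0 ≤ C0 * (1 + Real.log N) := by nlinarith
    have a4 : 2 * (g + n * c1 + 2 * G.k + 4 * G.k * (1 + Real.log N)) + 4 * R + 8 * G.k +
        2 * C0 ≤ (44 * G.k + 4 * c1 + 4 * R + 8 * G.k + 2 * C0) * (1 + Real.log N) := by
      linarith
    refine a4.trans ?_
    have a5 : 44 * G.k + 4 * c1 + 4 * R + 8 * G.k + 2 * C0 ≤ 100 * d * (R + G.k) := by
      rw [hc1, hC0]
      nlinarith
    gcongr
  calc N * (2 * E + 4 * R + 8 * G.k + 2 * C0) ≤
        N * (100 * d * (R + G.k) * (1 + Real.log N)) := by gcongr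
    _ = _ := by ring

end baseline

end Pool.Agent.UBC90787a
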