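import Pool.Agent.Lib.MP_90787a_nt.Core

set_option autoImplicit false
set_option linter.unusedSectionVars false

/-!
The numerical core of the argument for rational maps.
-/

namespace Pool.Agent.UBC90787a

open Finset

open Classical in
/-- The largest class of a partition. -/
lemma exists_class {α β : Type} [Fintype β] (X : Finset α) (hX : X.Nonempty) (cl : α → β) :
    ∃ o : β, ∃ Y ⊆ X, (∀ x ∈ Y, cl x = o) ∧ 1 ≤ Y.card ∧ X.card ≤ Fintype.card β * Y.card := by
  obtain ⟨x0, hx0⟩ := hX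
  have hne : (univ : Finset β).Nonempty := ⟨cl x0, Finset.mem_univ _⟩
  obtain ⟨o, _, ho⟩ := Finset.exists_max_image univ
    (fun b => (X.filter (fun x => cl x = b)).card) hne
  refine ⟨o, X.filter (fun x => cl x = o), Finset.filter_subset _ _,
    fun x hx => (Finset.mem_filter.mp hx).2, ?_, ?_⟩
  · have h1 : 1 ≤ (X.filter (fun x => cl x = cl x0)).card := by
      rw [Nat.one_le_iff_ne_zero, Finset.card_ne_zero]
      exact ⟨x0, Finset.mem_filter.mpr ⟨hx0, rfl⟩⟩
    exact h1.trans (ho _ (Finset.mem_univ _))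
  · have h1 : X.card = ∑ b : β, (X.filter (fun x => cl x = b)).card :=
      Finset.card_eq_sum_card_fiberwise (fun x _ => Finset.mem_univ _)
    rw [h1, ← Finset.card_univ, ← smul_eq_mul]
    exact Finset.sum_le_card_nsmul _ _ _ (fun b hb => ho b hb)

open Classical in
/-- The numerical core of the argument. -/
theorem core2 {β : Type} [Fintype β] {D : ℝ} (hD : 1 ≤ D) {δ c κ Λ : ℝ} (hδ : 0 < δ)
    (hc : 0 ≤ c) (hκ : 0 ≤ κ) (hΛ : 1 ≤ Λ) : ∃ M0 : ℝ, 1 ≤ M0 ∧
    ∀ {α ι J : Type} [Fintype ι] (X : Finset α) (_ : X.Nonempty) (mult : ι → ℝ)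
      (_ : ∀ w, 1 ≤ mult w) (_ : ∑ w, mult w = D) (Ew : ι → Finset α → ℝ)
      (Ev : J → Finset α → ℝ) (lamw : ι → ℝ) (lam : J → ℝ) (S U : Finset J)
      (_ : ∀ Y ⊆ X, 0 ≤ ∑ w, mult w * Ew w Y + ∑ v ∈ S, Ev v Y + ∑ v ∈ U, Ev v Y)
      (_ : ∀ w, 0 ≤ lamw w)
      (_ : ∀ w, ∀ Y ⊆ X, Ew w Y ≤ (c * lamw w + c) * ell Y.card)
      (_ : ∀ w, Λ ≤ lamw w → ∃ cl : α → β, ∀ Y ⊆ X, ∀ o, (∀ x ∈ Y, cl x = o) →
        Ew w Y ≤ lamw w * (- δ * (Y.card : ℝ) ^ 2 + c * ell Y.card))
      (_ : ∀ v, 0 ≤ lam v)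
      (_ : ∀ v ∈ S, ∀ Y ⊆ X, Ev v Y ≤ c * lam v * ell Y.card)
      (_ : ∀ v ∈ S, 0 < lam v → ∃ cl : α → β, ∀ Y ⊆ X, ∀ o, (∀ x ∈ Y, cl x = o) →
        Ev v Y ≤ lam v * (- δ * (Y.card : ℝ) ^ 2 + c * ell Y.card))
      (_ : ∀ v ∈ U, ∀ Y ⊆ X, Ev v Y ≤ c * lam v * ell Y.card)
      (_ : ∑ v ∈ U, lam v ≤ κ * (1 + ∑ v ∈ S, lam v + ∑ w, mult w * lamw w))
      (_ : 1 ≤ ∑ v ∈ S, lam v ∨ 2 * D * Λ ≤ ∑ w, mult w * lamw w),
      ∃ n : ℕ, 1 ≤ n ∧ X.card ≤ Fintype.card β * n ∧
        (n : ℝ) ≤ (M0 * (S.card + 1)) * (1 + Real.log n) := by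
  set c2 : ℝ := 2 * D * Λ + 1 with hc2
  have hc2pos : 0 ≤ c2 := by positivity
  set B1 : ℝ := c * (2 + D + 3 * κ) with hB1
  set B2 : ℝ := c * (c2 + D + 2 + κ * (2 + c2)) with hB2
  have hB1n : 0 ≤ B1 := by positivity
  have hB2n : 0 ≤ B2 := by positivity
  refine ⟨1 + D / δ * B1 + 2 / δ * B2, by
    have h1 : 0 ≤ D / δ * B1 := by positivity
    have h2 : 0 ≤ 2 / δ * B2 := by positivity
    linarith, ?_⟩
  intro α ι J _ X hX mult hm1 hmD Ew Ev lamw lam S U hsum hw0 hwb hwg hv0 hSb hSg hUb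
    hUs hnt
  set HS : ℝ := ∑ v ∈ S, lam v with hHS
  set Ha : ℝ := ∑ w, mult w * lamw w with hHa
  set k : ℝ := (S.card : ℝ) with hk
  have hk0 : 0 ≤ k := Nat.cast_nonneg _
  have hHSn : 0 ≤ HS := Finset.sum_nonneg (fun v _ => hv0 v)
  have hHan : 0 ≤ Ha := Finset.sum_nonneg (fun w _ => by
    have := hm1 w
    have := hw0 w
    positivity)
  have hDL : 1 ≤ D * Λ := one_le_mul_of_one_le_of_one_le hD hΛ
  -- general bounds
  have bW : ∀ Y ⊆ X, ∑ w, mult w * Ew w Y ≤ (c * Ha + c * D) * ell Y.card := by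
    intro Y hY
    calc ∑ w, mult w * Ew w Y ≤ ∑ w, mult w * ((c * lamw w + c) * ell Y.card) := by
          apply Finset.sum_le_sum
          intro w _
          have := hm1 w
          have := hwb w Y hY
          gcongr
      _ = (c * Ha + c * D) * ell Y.card := by
          rw [hHa, ← hmD, Finset.mul_sum, Finset.mul_sum, ← Finset.sum_add_distrib,
            Finset.sum_mul]
          refine Finset.sum_congr rfl (fun w _ => ?_)
          ring
  have bS : ∀ Y ⊆ X, ∑ v ∈ S, Ev v Y ≤ c * HS * ell Y.card := by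
    intro Y hY
    calc ∑ v ∈ S, Ev v Y ≤ ∑ v ∈ S, c * lam v * ell Y.card :=
          Finset.sum_le_sum (fun v hv => hSb v hv Y hY)
      _ = c * HS * ell Y.card := by rw [hHS, Finset.mul_sum, Finset.sum_mul]
  have bU : ∀ Y ⊆ X, ∑ v ∈ U, Ev v Y ≤ c * (κ * (1 + HS + Ha)) * ell Y.card := by
    intro Y hY
    calc ∑ v ∈ U, Ev v Y ≤ ∑ v ∈ U, c * lam v * ell Y.card :=
          Finset.sum_le_sum (fun v hv => hUb v hv Y hY)
      _ = c * (∑ v ∈ U, lam v) * ell Y.card := by rw [Finset.mul_sum, Finset.sum_mul]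
      _ ≤ c * (κ * (1 + HS + Ha)) * ell Y.card := by
          have := ell_nonneg Y.card
          gcongr
  by_cases hA : 2 * D * Λ ≤ Ha ∧ HS ≤ (k + 1) * Ha
  · -- the archimedean places dominate
    obtain ⟨hA1, hA2⟩ := hA
    have hHa1 : 1 ≤ Ha := by linarith
    obtain ⟨w0, hw0'⟩ : ∃ w0, Ha / D ≤ lamw w0 := by
      by_contra hcon
      push Not at hcon
      have hne : (Finset.univ : Finset ι).Nonempty := by
        rw [Finset.nonempty_iff_ne_empty]
        intro h0
        rw [h0, Finset.sum_empty] at hmD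
        linarith
      have h1 : Ha < ∑ w, mult w * (Ha / D) := by
        rw [hHa]
        apply Finset.sum_lt_sum_of_nonempty hne
        intro w _
        have := hm1 w
        have := hcon w
        gcongr
      rw [← Finset.sum_mul, hmD, mul_div_cancel₀ _ (by linarith : D ≠ 0)] at h1
      exact lt_irrefl _ h1
    have hbig : Λ ≤ lamw w0 := by
      refine le_trans ?_ hw0'
      rw [le_div_iff₀ (by linarith)]
      have : 0 ≤ Λ * D := by positivity
      linarith
    obtain ⟨cl, hgain⟩ := hwg w0 hbig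
    obtain ⟨o, Y, hYX, hYo, hY1, hY2⟩ := exists_class X hX cl
    refine ⟨Y.card, hY1, hY2, ?_⟩
    set n : ℝ := (Y.card : ℝ) with hn
    have hell := le_ell Y.card
    have helln := ell_nonneg Y.card
    have hn0 : 0 ≤ n := Nat.cast_nonneg _
    have bW' : ∑ w, mult w * Ew w Y ≤ (c * Ha + c * D) * ell Y.card - δ * (Ha / D) * n ^ 2 := by
      rw [← Finset.add_sum_erase _ _ (Finset.mem_univ w0)]
      have e1 : mult w0 * Ew w0 Y ≤ mult w0 * ((c * lamw w0 + c) * ell Y.card) -
          δ * (Ha / D) * n ^ 2 := by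
        have h1 := hgain Y hYX o hYo
        have h2 : Ew w0 Y ≤ (c * lamw w0 + c) * ell Y.card - δ * lamw w0 * n ^ 2 := by
          refine h1.trans ?_
          have : 0 ≤ c * ell Y.card := by positivity
          linarith
        have h3 := hm1 w0
        have h4 : mult w0 * Ew w0 Y ≤ mult w0 * ((c * lamw w0 + c) * ell Y.card -
            δ * lamw w0 * n ^ 2) := by gcongr
        have h5 : 1 * (δ * (Ha / D) * n ^ 2) ≤ mult w0 * (δ * lamw w0 * n ^ 2) := by gcongr
        linarith
      have e2 : ∑ w ∈ Finset.univ.erase w0, mult w * Ew w Y ≤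
          ∑ w ∈ Finset.univ.erase w0, mult w * ((c * lamw w + c) * ell Y.card) := by
        apply Finset.sum_le_sum
        intro w _
        have := hm1 w
        have := hwb w Y hYX
        gcongr
      have e3 : mult w0 * ((c * lamw w0 + c) * ell Y.card) +
          ∑ w ∈ Finset.univ.erase w0, mult w * ((c * lamw w + c) * ell Y.card) =
          (c * Ha + c * D) * ell Y.card := by
        rw [Finset.add_sum_erase _ (fun w => mult w * ((c * lamw w + c) * ell Y.card))
          (Finset.mem_univ w0)]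
        rw [hHa, ← hmD, Finset.mul_sum, Finset.mul_sum, ← Finset.sum_add_distrib,
          Finset.sum_mul]
        refine Finset.sum_congr rfl (fun w _ => ?_)
        ring
      linarith
    have htot := hsum Y hYX
    have key : δ * (Ha / D) * n ^ 2 ≤ (B1 * (k + 1) * Ha) * ell Y.card := by
      have h1 : δ * (Ha / D) * n ^ 2 ≤ ((c * Ha + c * D) + c * HS +
          c * (κ * (1 + HS + Ha))) * ell Y.card := by
        have a1 := bS Y hYX
        have a3 := bU Y hYX
        linarith
      refine h1.trans ?_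
      have h2 : (c * Ha + c * D) + c * HS + c * (κ * (1 + HS + Ha)) ≤
          B1 * (k + 1) * Ha := by
        have h3 : (Ha + D) + HS + κ * (1 + HS + Ha) ≤
            (2 + D + 3 * κ) * (k + 1) * Ha := by
          have h4 : D ≤ D * ((k + 1) * Ha) := by
            have : 1 ≤ (k + 1) * Ha := one_le_mul_of_one_le_of_one_le (by linarith) hHa1
            have : 0 ≤ D := by linarith
            nlinarith
          have h5 : Ha ≤ (k + 1) * Ha := by nlinarith
          have h6 : 1 ≤ (k + 1) * Ha := by linarith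
          have h7 : κ * (1 + HS + Ha) ≤ κ * (3 * ((k + 1) * Ha)) := by
            have : 1 + HS + Ha ≤ 3 * ((k + 1) * Ha) := by linarith
            gcongr
          calc (Ha + D) + HS + κ * (1 + HS + Ha)
              ≤ ((k + 1) * Ha + D * ((k + 1) * Ha)) + (k + 1) * Ha +
                κ * (3 * ((k + 1) * Ha)) := by linarith
            _ = (2 + D + 3 * κ) * (k + 1) * Ha := by ring
        calc (c * Ha + c * D) + c * HS + c * (κ * (1 + HS + Ha))
            = c * ((Ha + D) + HS + κ * (1 + HS + Ha)) := by ring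
          _ ≤ c * ((2 + D + 3 * κ) * (k + 1) * Ha) := by gcongr
          _ = B1 * (k + 1) * Ha := by rw [hB1]; ring
      gcongr
    refine solve_core hY1 (a := δ * (Ha / D)) (by positivity) key ?_
    have hb2 : 0 ≤ 2 / δ * B2 := by positivity
    calc B1 * (k + 1) * Ha = δ * (Ha / D) * ((D / δ * B1) * (k + 1)) := by
          field_simp
      _ ≤ δ * (Ha / D) * ((1 + D / δ * B1 + 2 / δ * B2) * (k + 1)) := by
          have : D / δ * B1 ≤ 1 + D / δ * B1 + 2 / δ * B2 := by linarith
          gcongr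
  · -- the finite places dominate
    have hHS1 : 1 ≤ HS := by
      rcases hnt with hnt | hnt
      · exact hnt
      · rw [not_and_or] at hA
        rcases hA with hA | hA
        · exact absurd hnt hA
        · push Not at hA
          have : Ha ≤ (k + 1) * Ha := by nlinarith
          linarith
    have hHaf : Ha ≤ c2 * HS := by
      rw [not_and_or] at hA
      rcases hA with hA | hA
      · push Not at hA
        have h1 : 2 * D * Λ * 1 ≤ 2 * D * Λ * HS := by gcongr
        rw [hc2, add_mul]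
        linarith
      · push Not at hA
        have h1 : Ha ≤ (k + 1) * Ha := by nlinarith
        have h2 : 0 ≤ 2 * D * Λ * HS := by positivity
        rw [hc2, add_mul]
        linarith
    have hDf : D ≤ D * HS := by nlinarith
    have htotal : (c * Ha + c * D) + 2 * (c * HS) + c * (κ * (1 + HS + Ha)) ≤ B2 * HS := by
      have h3 : (Ha + D) + 2 * HS + κ * (1 + HS + Ha) ≤
          (c2 + D + 2 + κ * (2 + c2)) * HS := by
        have h4 : κ * (1 + HS + Ha) ≤ κ * ((2 + c2) * HS) := by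
          have : 1 + HS + Ha ≤ (2 + c2) * HS := by linarith
          gcongr
        calc (Ha + D) + 2 * HS + κ * (1 + HS + Ha) ≤ (c2 * HS + D * HS) + 2 * HS +
              κ * ((2 + c2) * HS) := by linarith
          _ = (c2 + D + 2 + κ * (2 + c2)) * HS := by ring
      calc (c * Ha + c * D) + 2 * (c * HS) + c * (κ * (1 + HS + Ha))
          = c * ((Ha + D) + 2 * HS + κ * (1 + HS + Ha)) := by ring
        _ ≤ c * ((c2 + D + 2 + κ * (2 + c2)) * HS) := by gcongr
        _ = B2 * HS := by rw [hB2]; ring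
    -- one place of `S` dominates
    obtain ⟨v0, hv0S, hv0'⟩ : ∃ v0 ∈ S, HS / (k + 1) < lam v0 := by
      by_contra hcon
      push Not at hcon
      have h1 : HS ≤ ∑ _v ∈ S, HS / (k + 1) := Finset.sum_le_sum hcon
      rw [Finset.sum_const, nsmul_eq_mul, ← hk] at h1
      have h2 : k * (HS / (k + 1)) < HS := by
        rw [mul_div_assoc', div_lt_iff₀ (by positivity)]
        nlinarith
      linarith
    have hv0pos : 0 < lam v0 := lt_of_le_of_lt (by positivity) hv0'
    obtain ⟨cl, hgain⟩ := hSg v0 hv0S hv0pos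
    obtain ⟨o, Y, hYX, hYo, hY1, hY2⟩ := exists_class X hX cl
    refine ⟨Y.card, hY1, hY2, ?_⟩
    set n : ℝ := (Y.card : ℝ) with hn
    have hell := le_ell Y.card
    have helln := ell_nonneg Y.card
    have hn0 : 0 ≤ n := Nat.cast_nonneg _
    have htot := hsum Y hYX
    have bS' : ∑ v ∈ S, Ev v Y ≤ 2 * (c * HS * ell Y.card) -
        δ * (HS / (k + 1)) * n ^ 2 := by
      rw [← Finset.add_sum_erase _ _ hv0S]
      have e1 := hgain Y hYX o hYo
      have e2 : ∑ v ∈ S.erase v0, Ev v Y ≤ ∑ v ∈ S.erase v0, c * lam v * ell Y.card :=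
        Finset.sum_le_sum (fun v hv => hSb v (Finset.mem_of_mem_erase hv) Y hYX)
      have e3 : ∑ v ∈ S.erase v0, c * lam v * ell Y.card ≤ ∑ v ∈ S, c * lam v * ell Y.card := by
        apply Finset.sum_le_sum_of_subset_of_nonneg (Finset.erase_subset _ _)
        intro v _ _
        have := hv0 v
        positivity
      have e4 : ∑ v ∈ S, c * lam v * ell Y.card = c * HS * ell Y.card := by
        rw [hHS, Finset.mul_sum, Finset.sum_mul]
      have e5 : lam v0 * (c * ell Y.card) ≤ HS * (c * ell Y.card) := by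
        have : lam v0 ≤ HS := Finset.single_le_sum (fun v _ => hv0 v) hv0S
        gcongr
      have e6 : δ * (HS / (k + 1)) * n ^ 2 ≤ δ * lam v0 * n ^ 2 := by gcongr
      linarith
    have key : δ * (HS / (k + 1)) * n ^ 2 ≤ (B2 * HS) * ell Y.card := by
      have a0 := bW Y hYX
      have a3 := bU Y hYX
      have a5 : ((c * Ha + c * D) + 2 * (c * HS) + c * (κ * (1 + HS + Ha))) * ell Y.card ≤
          B2 * HS * ell Y.card := by gcongr
      linarith
    refine solve_core hY1 (a := δ * (HS / (k + 1))) (by positivity) key ?_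
    have hb1 : 0 ≤ D / δ * B1 := by positivity
    calc B2 * HS = δ * (HS / (k + 1)) * ((1 / δ * B2) * (k + 1)) := by
          field_simp
      _ ≤ δ * (HS / (k + 1)) * ((1 + D / δ * B1 + 2 / δ * B2) * (k + 1)) := by
          have h1 : 1 / δ * B2 ≤ 2 / δ * B2 := by
            have : 1 / δ ≤ 2 / δ := by gcongr; norm_num
            gcongr
          have : 1 / δ * B2 ≤ 1 + D / δ * B1 + 2 / δ * B2 := by linarith
          gcongr

/-- From the implicit inequality to the bound `(k + 1) log (k + 2)`. -/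
lemma final_bound2 {M0 : ℝ} (hM0 : 1 ≤ M0) (m : ℕ) : ∃ C : ℝ, 0 ≤ C ∧ ∀ (k n N : ℕ), 1 ≤ n →
    N ≤ m * n → (n : ℝ) ≤ (M0 * (k + 1)) * (1 + Real.log n) →
    (N : ℝ) ≤ C * (k + 1) * Real.log (k + 2) := by
  have hl2 : 0 < Real.log 2 := Real.log_pos (by norm_num)
  have hlM : 0 ≤ Real.log (2 * M0) := Real.log_nonneg (by linarith)
  refine ⟨m * (2 * M0 * (Real.log (2 * M0) / Real.log 2 + 1)), by positivity, ?_⟩
  intro k n N hn hN h
  have hk : (0 : ℝ) ≤ k := Nat.cast_nonneg k
  have hn0 : (0 : ℝ) < n := by exact_mod_cast hn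
  have hM : 1 ≤ M0 * ((k : ℝ) + 1) := one_le_mul_of_one_le_of_one_le hM0 (by linarith)
  have h1 := le_of_le_mul_one_add_log hM hn0 h
  have h2 : (N : ℝ) ≤ m * n := by exact_mod_cast hN
  have h3 : Real.log (2 * (M0 * ((k : ℝ) + 1))) ≤
      (Real.log (2 * M0) / Real.log 2 + 1) * Real.log (k + 2) := by
    have e1 : Real.log (2 * (M0 * ((k : ℝ) + 1))) = Real.log (2 * M0) + Real.log (k + 1) := by
      rw [← mul_assoc, Real.log_mul (by positivity) (by positivity)]
    have e2 : Real.log 2 ≤ Real.log (k + 2) := Real.log_le_log (by norm_num) (by linarith)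
    have e3 : Real.log ((k : ℝ) + 1) ≤ Real.log (k + 2) :=
      Real.log_le_log (by positivity) (by linarith)
    have e4 : Real.log (2 * M0) ≤ Real.log (2 * M0) / Real.log 2 * Real.log (k + 2) := by
      calc Real.log (2 * M0) = Real.log (2 * M0) / Real.log 2 * Real.log 2 := by field_simp
        _ ≤ _ := by gcongr
    rw [e1, add_mul, one_mul]
    linarith
  calc (N : ℝ) ≤ m * n := h2
    _ ≤ m * (2 * (M0 * (k + 1)) * Real.log (2 * (M0 * (k + 1)))) := by gcongr
    _ ≤ m * (2 * (M0 * (k + 1)) * ((Real.log (2 * M0) / Real.log 2 + 1) *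
        Real.log (k + 2))) := by gcongr
    _ = _ := by ring

end Pool.Agent.UBC90787a
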