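import Pool.Agent.Lib.MP_90787a_nt.RF.Weights
import Pool.Agent.Lib.MP_90787a_nt.RF.Core2

set_option autoImplicit false
set_option linter.unusedSectionVars false

/-!
The global argument for rational maps.
-/

namespace Pool.Agent.UBC90787a

open Polynomial Finset NumberField

section prelim

variable {K : Type} [Field K] [NumberField K] {p q : K[X]} {d : ℕ}

lemma resultant_ne (hd : 2 ≤ d) (hpq : IsCoprime p q) (hmax : max p.natDegree q.natDegree = d) :
    resultant p q d d ≠ 0 := by
  have hp : p.natDegree ≤ d := by rw [← hmax]; exact le_max_left _ _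
  have hq : q.natDegree ≤ d := by rw [← hmax]; exact le_max_right _ _
  have key : ∀ p q : K[X], IsCoprime p q → q.natDegree ≤ d → p.natDegree = d →
      resultant p q d d ≠ 0 := by
    intro p q hpq hq hpd
    have hp0 : p ≠ 0 := by
      rintro rfl
      rw [natDegree_zero] at hpd
      omega
    have h1 := resultant_add_right_deg p q d q.natDegree (d - q.natDegree) le_rfl
    rw [Nat.add_sub_cancel' hq] at h1
    rw [h1]
    apply mul_ne_zero
    · apply pow_ne_zero
      rw [← hpd]
      exact leadingCoeff_ne_zero.mpr hp0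
    · have h2 := resultant_ne_zero p q hpq
      rwa [hpd] at h2
  rcases max_choice p.natDegree q.natDegree with h | h
  · exact key p q hpq hq (by rw [← h, hmax])
  · rw [resultant_comm]
    apply mul_ne_zero
    · exact pow_ne_zero _ (neg_ne_zero.mpr one_ne_zero)
    · exact key q p hpq.symm hp (by rw [← h, hmax])

lemma homMap_ne_zero (hd : 2 ≤ d) (hp : p.natDegree ≤ d) (hq : q.natDegree ≤ d)
    (hres : resultant p q d d ≠ 0) {x : K × K} (hx : x ≠ 0) : homMap p q d x ≠ 0 := by
  obtain ⟨w⟩ : Nonempty (InfinitePlace K) := inferInstance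
  set ι := w.embedding with hι
  obtain ⟨γ, hγ⟩ := exists_gamma (ι := ι) (p := p) (q := q) (show 1 ≤ d by omega) hres
  have hγ' : ‖γ‖ ^ (2 * d) * ‖resultant (p.map ι) (q.map ι) d d‖ = 1 := by
    rw [resultant_map_map]
    exact hγ
  have hU := umap_of_res_smul (d := d) (by omega) ((natDegree_map_le).trans hp)
    ((natDegree_map_le).trans hq) hγ'
  intro h0
  have hx' : ((ι x.1, ι x.2) : ℂ × ℂ) ≠ 0 := by
    intro h1
    apply hx
    have h2 := congrArg Prod.fst h1
    have h3 := congrArg Prod.snd h1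
    simp only [Prod.fst_zero, Prod.snd_zero, map_eq_zero] at h2 h3
    exact Prod.ext h2 h3
  apply hU.ne_zero (by omega) hx'
  rw [homMap_map, h0]
  simp

lemma exists_pdata (hd : 2 ≤ d) (hp : p.natDegree ≤ d) (hq : q.natDegree ≤ d)
    (hres : resultant p q d d ≠ 0) {x : K} (h : ∃ i j : ℕ, j < i ∧
      ((homMap p q d)^[i] (x, 1)).1 * ((homMap p q d)^[j] (x, 1)).2 =
        ((homMap p q d)^[i] (x, 1)).2 * ((homMap p q d)^[j] (x, 1)).1) :
    ∃ i j : ℕ, ∃ μ : K, PData p q d x i j μ := by
  obtain ⟨i, j, hji, hF⟩ := h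
  have hne : ∀ n : ℕ, (homMap p q d)^[n] ((x, 1) : K × K) ≠ 0 := by
    intro n
    induction n with
    | zero =>
      intro h0
      have := congrArg Prod.snd h0
      simp at this
    | succ n ih =>
      rw [Function.iterate_succ_apply']
      exact homMap_ne_zero hd hp hq hres ih
  have hwd : wd ((homMap p q d)^[j] ((x, 1) : K × K)) ((homMap p q d)^[i] (x, 1)) = 0 := by
    unfold wd
    linear_combination - hF
  obtain ⟨μ, hμ⟩ := exists_smul_of_wd_eq_zero (hne j) hwd
  refine ⟨i, j, μ, hji, ?_, hμ⟩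
  rintro rfl
  rw [zero_smul] at hμ
  exact hne i hμ

/-- The product formula for pairs. -/
lemma sum_prE_eq_zero {Res : K} (hRes : Res ≠ 0) {μ : K → K} {e : K → ℝ} {x y : K}
    (hxy : x ≠ y) (hμx : μ x ≠ 0) (hμy : μ y ≠ 0) (F : Finset (FinitePlace K))
    (h1 : ∀ v, v ∉ F → v Res = 1) (h2 : ∀ v, v ∉ F → v (x - y) = 1)
    (h3 : ∀ v, v ∉ F → v (μ x) = 1) (h4 : ∀ v, v ∉ F → v (μ y) = 1) :
    ∑ w : InfinitePlace K, (w.mult : ℝ) * prE w Res d μ e x y + ∑ v ∈ F, prE v Res d μ e x y
      = 0 := by
  have a1 := sum_log_eq_zero hRes F h1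
  have a2 := sum_log_eq_zero (sub_ne_zero.mpr hxy) F h2
  have a3 := sum_log_eq_zero hμx F h3
  have a4 := sum_log_eq_zero hμy F h4
  unfold prE
  simp only [mul_add, mul_sub, Finset.sum_add_distrib, Finset.sum_sub_distrib, ← mul_div_assoc,
    ← Finset.sum_div]
  have e1 : ∀ r a b : ℝ, a + b = 0 → a / r + b / r = 0 := by
    intro r a b h
    rw [← add_div, h, zero_div]
  have b1 := e1 (d * ((d : ℝ) - 1)) _ _ a1
  have b3 := e1 (e x) _ _ a3
  have b4 := e1 (e y) _ _ a4
  simp only [mul_sub] at b1
  linarith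

end prelim

open Classical in
theorem rf_main (D d : ℕ) (hD : 1 ≤ D) (hd2 : 2 ≤ d) (σ : ℝ) : ∃ C : ℝ,
    ∀ (K : Type) [Field K] [NumberField K], Module.finrank ℚ K = D →
      ∀ p q : K[X], IsCoprime p q → max p.natDegree q.natDegree = d →
      ∀ S : Finset (FinitePlace K),
      (∀ U : Finset (FinitePlace K), Disjoint U S →
        ∑ v ∈ U, finWeight v p q d ≤ σ * (1 + ∑ v ∈ S, finWeight v p q d +
          ∑ w : InfinitePlace K, (w.mult : ℝ) * archWeight w.embedding p q d)) →
      ∀ Z : Finset K, (∀ x ∈ Z, ∃ i j : ℕ, j < i ∧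
        ((homMap p q d)^[i] (x, 1)).1 * ((homMap p q d)^[j] (x, 1)).2 =
          ((homMap p q d)^[i] (x, 1)).2 * ((homMap p q d)^[j] (x, 1)).1) →
      (Z.card : ℝ) ≤ C * (S.card + 1) * Real.log (S.card + 2) := by
  have hdR : (2 : ℝ) ≤ d := by exact_mod_cast hd2
  have hDR : (1 : ℝ) ≤ D := by exact_mod_cast hD
  have hd0 : (0 : ℝ) < d := by linarith
  have hl2 : 0 < Real.log 2 := Real.log_pos (by norm_num)
  have hl21 : Real.log 2 < 1 := by
    have := Real.log_two_lt_d9
    linarith
  have hKC : 0 ≤ KC d 26 := by unfold KC; positivity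
  set δ : ℝ := 1 / (3276800 * d) with hδ
  have hδpos : 0 < δ := by positivity
  set c : ℝ := 100 * d + 4 * KC d 26 with hc
  have hc0 : 0 ≤ c := by positivity
  have hc1 : 100 * d ≤ c := by linarith
  have hc2 : 4 * KC d 26 ≤ c := by
    have : (0 : ℝ) ≤ 100 * d := by positivity
    linarith
  set Λ : ℝ := 819200 * d with hΛ
  have hΛ1 : 1 ≤ Λ := by linarith
  set κ : ℝ := |σ| with hκ
  have hκ0 : 0 ≤ κ := abs_nonneg σ
  obtain ⟨M0, hM0, hcore⟩ := core2 (β := Option (Fin (d ^ 26))) (D := D) hDR (δ := δ) (c := c)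
    (κ := κ) (Λ := Λ) hδpos hc0 hκ0 hΛ1
  obtain ⟨C1, hC1, hfin1⟩ := final_bound2 hM0 (Fintype.card (Option (Fin (d ^ 26))))
  set B0 : ℝ := κ * (2 + 2 * D * Λ) with hB0
  have hB0n : 0 ≤ B0 := by positivity
  set B' : ℝ := 4 * d * (1 + B0) + 4 * d * (2 * D * Λ) + (2 * d + 1) * D with hB'
  have hB'n : 0 ≤ B' := by positivity
  obtain ⟨C3, hC3⟩ := arch_packing hd2 (2 * D * Λ) B'
  refine ⟨C1 + C3 / Real.log 2, ?_⟩
  intro K _ _ hKD p q hpq hmax S hU Z hZ
  have hp : p.natDegree ≤ d := by rw [← hmax]; exact le_max_left _ _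
  have hq : q.natDegree ≤ d := by rw [← hmax]; exact le_max_right _ _
  have hres := resultant_ne hd2 hpq hmax
  have hmono : 1 * Real.log 2 ≤ ((S.card : ℝ) + 1) * Real.log (S.card + 2) := by
    have h1 : (0 : ℝ) ≤ S.card := Nat.cast_nonneg _
    have h2 : Real.log 2 ≤ Real.log (S.card + 2) := Real.log_le_log (by norm_num) (by linarith)
    have h3 : (1 : ℝ) ≤ S.card + 1 := by linarith
    gcongr
  have hmono' : 0 ≤ ((S.card : ℝ) + 1) * Real.log (S.card + 2) := by linarith
  rcases Finset.eq_empty_or_nonempty Z with rfl | hZne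
  · rw [Finset.card_empty, Nat.cast_zero, mul_assoc]
    have : 0 ≤ C1 + C3 / Real.log 2 := by positivity
    positivity
  -- the data of the points
  have hex : ∀ x : K, ∃ i j : ℕ, ∃ μ : K, x ∈ Z → PData p q d x i j μ := by
    intro x
    by_cases hx : x ∈ Z
    · obtain ⟨i, j, μ, h⟩ := exists_pdata hd2 hp hq hres (hZ x hx)
      exact ⟨i, j, μ, fun _ => h⟩
    · exact ⟨0, 0, 0, fun h => absurd h hx⟩
  choose i j μ hdata using hex
  set e : K → ℝ := fun x => (d : ℝ) ^ i x - (d : ℝ) ^ j x with he
  set Res : K := resultant p q d d with hRes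
  have hvw : ∀ (w : InfinitePlace K) (x : K), ‖w.embedding x‖ = w x :=
    fun w x => InfinitePlace.norm_embedding_eq w x
  have hfl := fun v : FinitePlace K => fin_local v hd2 hp hq hres Z (i := i) (j := j) (μ := μ)
    hdata he hRes
  have hal := fun w : InfinitePlace K => arch_local (hvw w) hd2 hp hq hres Z (i := i) (j := j)
    (μ := μ) hdata he hRes
  set lam : FinitePlace K → ℝ := fun v => finWeight v p q d with hlam
  set lamw : InfinitePlace K → ℝ := fun w => archWeight w.embedding p q d with hlamw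
  have hlam0 : ∀ v, 0 ≤ lam v := fun v => finWeight_nonneg _ _ _ _
  have hlamw0 : ∀ w, 0 ≤ lamw w := fun w => archWeight_nonneg _ _ _ _
  have hmult1 : ∀ w : InfinitePlace K, (1 : ℝ) ≤ w.mult := fun w => by
    exact_mod_cast InfinitePlace.mult_pos
  have hmultD : ∑ w : InfinitePlace K, (w.mult : ℝ) = D := by
    rw [← hKD, ← InfinitePlace.sum_mult_eq (K := K), Nat.cast_sum]
  set HS : ℝ := ∑ v ∈ S, lam v with hHS
  set Ha : ℝ := ∑ w : InfinitePlace K, (w.mult : ℝ) * lamw w with hHa
  have hHSn : 0 ≤ HS := Finset.sum_nonneg (fun v _ => hlam0 v)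
  have hHan : 0 ≤ Ha := Finset.sum_nonneg (fun w _ => by
    have := hmult1 w
    have := hlamw0 w
    positivity)
  have hUlam : ∀ U : Finset (FinitePlace K), Disjoint U S →
      ∑ v ∈ U, lam v ≤ κ * (1 + HS + Ha) := by
    intro U hUS
    refine (hU U hUS).trans ?_
    have h4 := le_abs_self σ
    gcongr
  -- the support
  obtain ⟨F0, hF0⟩ := exists_finset_places (K := K)
    (insert Res (Z.image μ ∪ (Z ×ˢ Z).image (fun p => p.1 - p.2)))
  have hF0R : ∀ v, v ∉ F0 → v Res = 1 := fun v hv =>
    hF0 v hv _ (Finset.mem_insert_self _ _) hres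
  have hF0μ : ∀ v, v ∉ F0 → ∀ x ∈ Z, v (μ x) = 1 := by
    intro v hv x hx
    refine hF0 v hv _ (Finset.mem_insert_of_mem (Finset.mem_union_left _ ?_)) (hdata x hx).2.1
    exact Finset.mem_image_of_mem _ hx
  have hF0X : ∀ v, v ∉ F0 → ∀ x ∈ Z, ∀ y ∈ Z, x ≠ y → v (x - y) = 1 := by
    intro v hv x hx y hy hxy
    refine hF0 v hv _ (Finset.mem_insert_of_mem (Finset.mem_union_right _ ?_))
      (sub_ne_zero.mpr hxy)
    exact Finset.mem_image.mpr ⟨(x, y), Finset.mem_product.mpr ⟨hx, hy⟩, rfl⟩
  have hpair : ∀ F : Finset (FinitePlace K), F0 ⊆ F → ∀ x ∈ Z, ∀ y ∈ Z, x ≠ y →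
      ∑ w : InfinitePlace K, (w.mult : ℝ) * prE w Res d μ e x y + ∑ v ∈ F, prE v Res d μ e x y
        = 0 := by
    intro F hF x hx y hy hxy
    exact sum_prE_eq_zero hres hxy (hdata x hx).2.1 (hdata y hy).2.1 F
      (fun v hv => hF0R v (fun h => hv (hF h))) (fun v hv => hF0X v (fun h => hv (hF h)) x hx y hy hxy)
      (fun v hv => hF0μ v (fun h => hv (hF h)) x hx) (fun v hv => hF0μ v (fun h => hv (hF h)) y hy)
  have hzero : ∀ F : Finset (FinitePlace K), F0 ⊆ F → ∀ Y ⊆ Z,
      ∑ w : InfinitePlace K, (w.mult : ℝ) * totE w Res d μ e Y +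
      ∑ v ∈ F, totE v Res d μ e Y = 0 := by
    intro F hF Y hY
    have h1 : ∑ w : InfinitePlace K, (w.mult : ℝ) * totE w Res d μ e Y +
      ∑ v ∈ F, totE v Res d μ e Y = ∑ r ∈ Y.offDiag,
        (∑ w : InfinitePlace K, (w.mult : ℝ) * prE w Res d μ e r.1 r.2 +
          ∑ v ∈ F, prE v Res d μ e r.1 r.2) := by
      rw [Finset.sum_add_distrib]
      congr 1
      · rw [Finset.sum_comm]
        refine Finset.sum_congr rfl (fun w _ => ?_)
        rw [← Finset.mul_sum]
        rfl
      · rw [Finset.sum_comm]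
        refine Finset.sum_congr rfl (fun v _ => ?_)
        rfl
    rw [h1]
    apply Finset.sum_eq_zero
    intro r hr
    have hr' := Finset.mem_offDiag.mp hr
    exact hpair F hF _ (hY hr'.1) _ (hY hr'.2.1) hr'.2.2
  by_cases hnt : 1 ≤ HS ∨ 2 * (D : ℝ) * Λ ≤ Ha
  · -- the main case
    set U : Finset (FinitePlace K) := F0 \ S with hUdef
    have hUS : Disjoint U S := Finset.sdiff_disjoint
    obtain ⟨n, hn1, hn2, hn3⟩ := hcore Z hZne (fun w : InfinitePlace K => (w.mult : ℝ)) hmult1
      hmultD (fun w Y => totE w Res d μ e Y)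
      (fun (v : FinitePlace K) Y => totE v Res d μ e Y) lamw lam S U (by
        intro Y hY
        have h1 := hzero (S ∪ U) (by
          intro v hv
          by_cases hvS : v ∈ S
          · exact Finset.mem_union_left _ hvS
          · exact Finset.mem_union_right _ (Finset.mem_sdiff.mpr ⟨hv, hvS⟩)) Y hY
        rw [Finset.sum_union hUS.symm] at h1
        linarith) hlamw0 (by
        intro w Y hY
        refine ((hal w).1 Y hY).trans ?_
        have hell := ell_nonneg Y.card
        have h1 : 100 * d * (lamw w + Real.log 2) ≤ c * lamw w + c := by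
          have h2 : 100 * d * lamw w ≤ c * lamw w := by
            have := hlamw0 w
            gcongr
          have h3 : 100 * (d : ℝ) * Real.log 2 ≤ 100 * d * 1 := by gcongr
          linarith
        gcongr) (by
        intro w hw
        have hw1 : 819200 * d * Real.log 2 ≤ lamw w := by
          refine le_trans ?_ hw
          rw [hΛ]
          have : 819200 * (d : ℝ) * Real.log 2 ≤ 819200 * d * 1 := by gcongr
          linarith
        obtain ⟨cl, hcl⟩ := (hal w).2.2 (by linarith) hw1
        refine ⟨cl, fun Y hY o ho => (hcl Y hY o ho).trans ?_⟩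
        have hell := ell_nonneg Y.card
        have h2 : 2 * KC d 26 * ell Y.card ≤ c * ell Y.card := by
          have : 2 * KC d 26 ≤ c := by linarith
          gcongr
        have := hlamw0 w
        gcongr) hlam0 (by
        intro v _ Y hY
        refine ((hfl v).1 Y hY).trans ?_
        have hell := ell_nonneg Y.card
        have := hlam0 v
        gcongr) (by
        intro v _ hv
        obtain ⟨cl, hcl⟩ := (hfl v).2.2 hv
        refine ⟨cl, fun Y hY o ho => (hcl Y hY o ho).trans ?_⟩
        have hell := ell_nonneg Y.card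
        have := hlam0 v
        gcongr) (by
        intro v _ Y hY
        refine ((hfl v).1 Y hY).trans ?_
        have hell := ell_nonneg Y.card
        have := hlam0 v
        gcongr) (hUlam U hUS) hnt
    have h1 := hfin1 S.card n Z.card hn1 hn2 hn3
    calc (Z.card : ℝ) ≤ C1 * (S.card + 1) * Real.log (S.card + 2) := h1
      _ = C1 * ((S.card + 1) * Real.log (S.card + 2)) := by ring
      _ ≤ (C1 + C3 / Real.log 2) * ((S.card + 1) * Real.log (S.card + 2)) := by
          have : 0 ≤ (C3 : ℝ) / Real.log 2 := by positivity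
          have : C1 ≤ C1 + C3 / Real.log 2 := by linarith
          gcongr
      _ = _ := by ring
  · -- the case of bounded total weight
    rw [not_or] at hnt
    obtain ⟨hnt1, hnt2⟩ := hnt
    push Not at hnt1 hnt2
    have hUb : ∑ v ∈ F0 \ S, lam v ≤ B0 := by
      refine (hUlam _ Finset.sdiff_disjoint).trans ?_
      rw [hB0]
      have : 1 + HS + Ha ≤ 2 + 2 * D * Λ := by linarith
      gcongr
    have hFb : ∑ v ∈ S ∪ (F0 \ S), lam v ≤ 1 + B0 := by
      rw [Finset.sum_union Finset.disjoint_sdiff]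
      linarith
    obtain ⟨w0⟩ : Nonempty (InfinitePlace K) := inferInstance
    have hw0 : archWeight w0.embedding p q d ≤ 2 * D * Λ := by
      have h1 : (w0.mult : ℝ) * lamw w0 ≤ Ha :=
        Finset.single_le_sum (f := fun w : InfinitePlace K => (w.mult : ℝ) * lamw w)
          (fun w _ => by
            have := hmult1 w
            have := hlamw0 w
            positivity) (Finset.mem_univ w0)
      have h2 : 1 * lamw w0 ≤ (w0.mult : ℝ) * lamw w0 := by
        have := hmult1 w0
        have := hlamw0 w0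
        gcongr
      have h3 : lamw w0 = archWeight w0.embedding p q d := rfl
      linarith
    have hcard : Z.card ≤ C3 := by
      refine hC3 w0.embedding w0 (hvw w0) hp hq hres Z hdata hw0 ?_
      intro x hx y hy hxy
      have h1 := hpair (S ∪ (F0 \ S)) (by
        intro v hv
        by_cases hvS : v ∈ S
        · exact Finset.mem_union_left _ hvS
        · exact Finset.mem_union_right _ (Finset.mem_sdiff.mpr ⟨hv, hvS⟩)) x hx y hy hxy
      have h2 : ∑ v ∈ S ∪ (F0 \ S), prE v Res d μ e x y ≤ 4 * d * (1 + B0) := by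
        calc ∑ v ∈ S ∪ (F0 \ S), prE v Res d μ e x y ≤ ∑ v ∈ S ∪ (F0 \ S), 4 * d * lam v :=
              Finset.sum_le_sum (fun v _ => (hfl v).2.1 x hx y hy hxy)
          _ = 4 * d * ∑ v ∈ S ∪ (F0 \ S), lam v := by rw [Finset.mul_sum]
          _ ≤ _ := by gcongr
      have h3 : ∑ w ∈ univ.erase w0, (w.mult : ℝ) * prE w Res d μ e x y ≤
          4 * d * (2 * D * Λ) + (2 * d + 1) * D := by
        calc ∑ w ∈ univ.erase w0, (w.mult : ℝ) * prE w Res d μ e x y
            ≤ ∑ w ∈ univ.erase w0, (w.mult : ℝ) * (4 * d * lamw w + (2 * d + 1)) := by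
              apply Finset.sum_le_sum
              intro w _
              have h4 := (hal w).2.1 x hx y hy hxy
              have h5 : (2 * (d : ℝ) + 1) * Real.log 2 ≤ (2 * d + 1) * 1 := by gcongr
              have h6 := hmult1 w
              have h7 : prE w Res d μ e x y ≤ 4 * d * lamw w + (2 * d + 1) := by
                have : lamw w = archWeight w.embedding p q d := rfl
                rw [this]
                linarith
              gcongr
          _ ≤ ∑ w : InfinitePlace K, (w.mult : ℝ) * (4 * d * lamw w + (2 * d + 1)) := by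
              apply Finset.sum_le_sum_of_subset_of_nonneg (Finset.erase_subset _ _)
              intro w _ _
              have := hmult1 w
              have := hlamw0 w
              positivity
          _ = 4 * d * Ha + (2 * d + 1) * D := by
              rw [hHa, ← hmultD, Finset.mul_sum, Finset.mul_sum, ← Finset.sum_add_distrib]
              exact Finset.sum_congr rfl (fun w _ => by ring)
          _ ≤ _ := by gcongr
      rw [← Finset.add_sum_erase _ _ (Finset.mem_univ w0)] at h1
      have h4 : -B' ≤ (w0.mult : ℝ) * prE w0 Res d μ e x y := by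
        rw [hB']
        linarith
      by_contra hcon
      push Not at hcon
      have h5 := hmult1 w0
      nlinarith
    calc (Z.card : ℝ) ≤ C3 := by exact_mod_cast hcard
      _ = C3 / Real.log 2 * (1 * Real.log 2) := by field_simp
      _ ≤ C3 / Real.log 2 * ((S.card + 1) * Real.log (S.card + 2)) := by gcongr
      _ ≤ (C1 + C3 / Real.log 2) * ((S.card + 1) * Real.log (S.card + 2)) := by
          have : (C3 : ℝ) / Real.log 2 ≤ C1 + C3 / Real.log 2 := by linarith
          gcongr
      _ = _ := by ring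

end Pool.Agent.UBC90787a
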