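import Pool.Agent.Lib.MP_90787a_nt.RF.Shear

set_option autoImplicit false
set_option linter.unusedSectionVars false

/-!
The gain in the energy for points close to each other.
-/

namespace Pool.Agent.UBC90787a

open Finset

/-- The bound `m * a` for the size of a map of degree `m` is almost optimal. -/
def NearMin {L : Type} [NormedField L] (Ψ : L × L → L × L) (m : ℕ) (a : ℝ) : Prop :=
  ∀ A : (L × L) ≃ₗ[L] (L × L), (∀ x y, wd (A x) (A y) = wd x y) → ∀ b : ℝ,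
    Bd (fun x => A.symm (Ψ (A x))) m (m * b) → a ≤ 1.001 * b

/-- The constant of the gain. -/
noncomputable def KC (d n : ℕ) : ℝ := (40960 * (10000 * n * (d : ℝ) ^ 2)) ^ 2

section gain

variable {L : Type} [NormedField L] (G : Geo L) {Φ Ψ : L × L → L × L} {d m : ℕ}

/-- There are few bad base vectors. -/
lemma few_bad {a : ℝ} (h : UMap Ψ m) (hm : 1000 ≤ m) (hB : Bd Ψ m (m * a))
    (hmin : NearMin Ψ m a) (ha : 0 < a) (hka : 1024 * G.k ≤ a) {α : L × L} (hα : ‖α‖ = 1)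
    {T : ℕ} (hT : 16 ≤ T) {u : Fin T → L × L} (hu1 : ∀ j, ‖u j‖ = 1)
    (hu5 : ∀ s : Finset (Fin T), 16 ≤ T → T < 8 * s.card → ∃ i ∈ s, ∃ j ∈ s,
        Real.exp (-(4 * G.k)) ≤ ‖wd (u i) (u j)‖)
    {z : Fin T → Fin m → L × L} (hz1 : ∀ k l, Ψ (z k l) = u k)
    (hz2 : ∀ k x, ‖wd (Ψ x) (u k)‖ = ∏ l, ‖wd x (z k l)‖)
    {s : Finset (Fin T)} (hs : ∀ k ∈ s, 3 / 4 * (m : ℝ) ≤ ((univ.filter (fun l =>
      ‖wd (z k l) α‖ / (G.nrm (z k l) * G.nrm α) < Real.exp (-(a / 4)))).card : ℝ)) :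
    8 * s.card ≤ T := by
  by_contra hlt
  push Not at hlt
  have hk := G.k_nonneg
  obtain ⟨i, hi, j, hj, hij⟩ := hu5 s hT hlt
  obtain ⟨e, he1, he2⟩ := G.dense (Real.exp (-(a / 8))) (Real.exp (-(a / 9))) (Real.exp_pos _)
    (Real.exp_lt_exp.mpr (by linarith))
  have hepos : 0 < ‖e‖ := (Real.exp_pos _).trans he1
  set σ : ℝ := - Real.log ‖e‖ with hσ
  have hes : ‖e‖ = Real.exp (-σ) := by rw [hσ, neg_neg, Real.exp_log hepos]
  have hσ1 : a / 9 < σ := by
    rw [hes, Real.exp_lt_exp] at he2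
    linarith
  have hσ2 : σ < a / 8 := by
    rw [hes, Real.exp_lt_exp] at he1
    linarith
  obtain ⟨A, hA, hBA⟩ := bd_of_bad G h (by omega) hB hα (hu1 i) (hu1 j) hij (hz1 i) (hz1 j)
    (hz2 i) (hz2 j) hes (by linarith) hσ2.le (hs i hi) (hs j hj)
  have hmR : (1000 : ℝ) ≤ m := by exact_mod_cast hm
  have hm0 : (0 : ℝ) < m := by linarith
  have h1 := hmin A hA ((a + 3 * G.k - σ / 2) + (7 * G.k + σ) / m) (by
    have : (m : ℝ) * ((a + 3 * G.k - σ / 2) + (7 * G.k + σ) / m) =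
        m * (a + 3 * G.k - σ / 2) + (7 * G.k + σ) := by field_simp
    rw [this]
    exact hBA)
  have h2 : (7 * G.k + σ) / m ≤ (7 * G.k + σ) / 1000 := by
    have : 0 ≤ 7 * G.k + σ := by linarith
    gcongr
  have h3 : a ≤ 1.001 * ((a + 3 * G.k - σ / 2) + (7 * G.k + σ) / 1000) := by
    refine h1.trans ?_
    gcongr
  norm_num at h3
  linarith

/-- The energy of the difference of the two measures is bounded from below. -/
lemma energy_gap {a : ℝ} (ha : 0 < a) (hka : 1024 * G.k ≤ a) (hm : 1 ≤ m)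
    {α : L × L} (hα : ‖α‖ = 1) {T : ℕ} (hT : 16 ≤ T)
    {z : Fin T → Fin m → L × L} (hz0 : ∀ k l, z k l ≠ 0)
    (hbad : ∀ s : Finset (Fin T), (∀ k ∈ s, 3 / 4 * (m : ℝ) ≤ ((univ.filter (fun l =>
      ‖wd (z k l) α‖ / (G.nrm (z k l) * G.nrm α) < Real.exp (-(a / 4)))).card : ℝ)) →
      8 * s.card ≤ T)
    {I : Type} [DecidableEq I] {Y : Finset I} (hY : Y.Nonempty) {p : I → L × L}
    (hp : ∀ i ∈ Y, p i ≠ 0) (hclose : ∀ i ∈ Y, dl (p i) α ≤ Real.exp (-(a / 2)))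
    {ker : L × L → L × L → ℝ} {U : L × L → ℝ}
    (hK : ∀ i ∈ Y, ∀ k l, ker (z k l) (p i) = ker (p i) (z k l))
    (hU1 : ∀ p, p ≠ 0 → 0 ≤ U p ∧ U p ≤ a / 4 + 4 * G.k)
    (hU2 : ∀ p, p ≠ 0 → ‖wd p α‖ / (G.nrm p * G.nrm α) ≤ Real.exp (-(a / 2)) →
      a / 4 - 4 * G.k ≤ U p)
    (hU3 : ∀ p, p ≠ 0 → Real.exp (-(a / 4)) ≤ ‖wd p α‖ / (G.nrm p * G.nrm α) → U p ≤ 4 * G.k)
    (hU4 : ∀ (I : Type) (s : Finset I) (P : I → L × L) (σ : I → ℝ), (∀ i ∈ s, P i ≠ 0) →
        (∑ i ∈ s, σ i * U (P i)) ^ 2 ≤ (a / 4 + 4 * G.k) *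
          ∑ i ∈ s, ∑ j ∈ s, σ i * σ j * ker (P i) (P j)) :
    3 * a / 4096 ≤ (∑ i ∈ Y, ∑ j ∈ Y, ker (p i) (p j)) / (Y.card : ℝ) ^ 2 -
      2 * (∑ i ∈ Y, ∑ k, ∑ l, ker (p i) (z k l)) / (Y.card * (T * (m : ℝ))) +
      (∑ k, ∑ l, ∑ k', ∑ l', ker (z k l) (z k' l')) / (T * (m : ℝ)) ^ 2 := by
  classical
  have hk := G.k_nonneg
  have hN0 : (0 : ℝ) < Y.card := by exact_mod_cast hY.card_pos
  have hT0 : (0 : ℝ) < T := by exact_mod_cast (by omega : 0 < T)
  have hm0 : (0 : ℝ) < m := by exact_mod_cast (by omega : 0 < m)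
  have hα0 : α ≠ 0 := by rw [← norm_pos_iff, hα]; exact one_pos
  have h1 := hU4 (I ⊕ (Fin T × Fin m)) (Y.disjSum univ)
    (Sum.elim p (fun kl : Fin T × Fin m => z kl.1 kl.2))
    (Sum.elim (fun _ => 1 / (Y.card : ℝ)) (fun _ => - (1 / (T * (m : ℝ))))) (by
      intro i hi
      rcases i with i | i
      · exact hp i (by simpa using hi)
      · exact hz0 _ _)
  rw [quad_expand Y p z (K := ker) hK, lin_expand] at h1
  -- the first average
  have h2 : ∑ _i ∈ Y, (a / 4 - 4 * G.k) ≤ ∑ i ∈ Y, U (p i) := by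
    apply Finset.sum_le_sum
    intro i hi
    refine hU2 _ (hp i hi) ?_
    refine le_trans ?_ (hclose i hi)
    unfold dl
    have a1 := norm_pos_iff.mpr (hp i hi)
    have a2 := norm_pos_iff.mpr hα0
    have a3 := G.nrm_ge (p i)
    have a4 := G.nrm_ge α
    have a5 := G.nrm_pos (hp i hi)
    gcongr
  rw [Finset.sum_const, nsmul_eq_mul] at h2
  -- the second average
  set bad : Finset (Fin T) := univ.filter (fun k => 3 / 4 * (m : ℝ) ≤ ((univ.filter (fun l =>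
      ‖wd (z k l) α‖ / (G.nrm (z k l) * G.nrm α) < Real.exp (-(a / 4)))).card : ℝ)) with hbadd
  have h3 : 8 * bad.card ≤ T := hbad bad (fun k hk => (Finset.mem_filter.mp hk).2)
  have h3' : (8 : ℝ) * bad.card ≤ T := by exact_mod_cast h3
  have h4 : ∀ k, ∑ l, U (z k l) ≤ (m : ℝ) * (3 / 4 * (a / 4 + 4 * G.k) + 4 * G.k) +
      (if k ∈ bad then (m : ℝ) * (a / 4 + 4 * G.k) else 0) := by
    intro k
    by_cases hkb : k ∈ bad
    · rw [if_pos hkb]
      have h5 : ∑ l, U (z k l) ≤ ∑ _l : Fin m, (a / 4 + 4 * G.k) :=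
        Finset.sum_le_sum (fun l _ => (hU1 _ (hz0 k l)).2)
      rw [Finset.sum_const, Finset.card_univ, Fintype.card_fin, nsmul_eq_mul] at h5
      have h6 : 0 ≤ (m : ℝ) * (3 / 4 * (a / 4 + 4 * G.k) + 4 * G.k) := by positivity
      linarith
    · rw [if_neg hkb, add_zero]
      have hkb' : ((univ.filter (fun l => ‖wd (z k l) α‖ / (G.nrm (z k l) * G.nrm α) <
          Real.exp (-(a / 4)))).card : ℝ) < 3 / 4 * (m : ℝ) := by
        rw [hbadd, Finset.mem_filter] at hkb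
        push Not at hkb
        exact hkb (Finset.mem_univ _)
      have h5 : ∀ l, U (z k l) ≤ 4 * G.k + (if ‖wd (z k l) α‖ / (G.nrm (z k l) * G.nrm α) <
          Real.exp (-(a / 4)) then (a / 4 + 4 * G.k) else 0) := by
        intro l
        split_ifs with hl
        · have := (hU1 _ (hz0 k l)).2
          linarith
        · push Not at hl
          have := hU3 _ (hz0 k l) hl
          linarith
      have h6 := Finset.sum_le_sum (fun l (_ : l ∈ (univ : Finset (Fin m))) => h5 l)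
      simp only [Finset.sum_add_distrib, Finset.sum_const, Finset.card_univ, Fintype.card_fin,
        nsmul_eq_mul, ← Finset.sum_filter] at h6
      refine h6.trans ?_
      have h7 : ((univ.filter (fun l => ‖wd (z k l) α‖ / (G.nrm (z k l) * G.nrm α) <
          Real.exp (-(a / 4)))).card : ℝ) * (a / 4 + 4 * G.k) ≤
          3 / 4 * (m : ℝ) * (a / 4 + 4 * G.k) := by gcongr
      linarith
  have h5 := Finset.sum_le_sum (fun k (_ : k ∈ (univ : Finset (Fin T))) => h4 k)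
  simp only [Finset.sum_add_distrib, Finset.sum_const, Finset.card_univ, Fintype.card_fin,
    nsmul_eq_mul, ← Finset.sum_filter, Finset.filter_univ_mem] at h5
  have h6 : ∑ k, ∑ l, U (z k l) ≤ T * m * (7 / 8 * (a / 4 + 4 * G.k) + 4 * G.k) := by
    refine h5.trans ?_
    have h7 : (bad.card : ℝ) * (m * (a / 4 + 4 * G.k)) ≤ T / 8 * (m * (a / 4 + 4 * G.k)) := by
      have : (bad.card : ℝ) ≤ T / 8 := by linarith
      gcongr
    linarith
  -- the linear form
  have h7 : a / 64 ≤ 1 / (Y.card : ℝ) * (∑ i ∈ Y, U (p i)) +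
      -(1 / (T * (m : ℝ))) * (∑ k, ∑ l, U (z k l)) := by
    have h8 : a / 4 - 4 * G.k ≤ 1 / (Y.card : ℝ) * (∑ i ∈ Y, U (p i)) := by
      rw [one_div, ← div_eq_inv_mul, le_div_iff₀ hN0]
      linarith
    have h9 : 1 / (T * (m : ℝ)) * (∑ k, ∑ l, U (z k l)) ≤
        7 / 8 * (a / 4 + 4 * G.k) + 4 * G.k := by
      rw [one_div, ← div_eq_inv_mul, div_le_iff₀ (by positivity)]
      linarith
    linarith
  have h8 : (a / 64) ^ 2 ≤ (1 / (Y.card : ℝ) * (∑ i ∈ Y, U (p i)) +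
      -(1 / (T * (m : ℝ))) * (∑ k, ∑ l, U (z k l))) ^ 2 := by
    have : 0 ≤ a / 64 := by positivity
    gcongr
  have h9 := h8.trans h1
  set Q : ℝ := (∑ i ∈ Y, ∑ j ∈ Y, ker (p i) (p j)) / (Y.card : ℝ) ^ 2 -
      2 * (∑ i ∈ Y, ∑ k, ∑ l, ker (p i) (z k l)) / (Y.card * (T * (m : ℝ))) +
      (∑ k, ∑ l, ∑ k', ∑ l', ker (z k l) (z k' l')) / (T * (m : ℝ)) ^ 2 with hQ
  have h10 : (1 / (Y.card : ℝ)) ^ 2 * (∑ i ∈ Y, ∑ j ∈ Y, ker (p i) (p j)) +
      2 * (1 / (Y.card : ℝ) * -(1 / (T * (m : ℝ)))) * (∑ i ∈ Y, ∑ k, ∑ l, ker (p i) (z k l)) +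
      (-(1 / (T * (m : ℝ)))) ^ 2 * (∑ k, ∑ l, ∑ k', ∑ l', ker (z k l) (z k' l')) = Q := by
    rw [hQ]
    field_simp
    ring
  rw [h10] at h9
  have h11 : (a / 4 + 4 * G.k) ≤ a / 3 := by linarith
  have hQ0 : 0 < Q := by
    by_contra hneg
    push Not at hneg
    have h12 : (a / 4 + 4 * G.k) * Q ≤ 0 := mul_nonpos_of_nonneg_of_nonpos (by positivity) hneg
    have h13 : 0 < (a / 64) ^ 2 := by positivity
    linarith
  have h12 : (a / 64) ^ 2 ≤ a / 3 * Q := h9.trans (by gcongr)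
  have h13 : a * (3 * a / 4096) ≤ a * Q := by nlinarith
  exact le_of_mul_le_mul_left h13 ha

/-- Numerical estimate for the number of base vectors. -/
lemma T_bound {C2 : ℝ} (hC2 : 1 ≤ C2) {N T : ℕ} (_hN : 1 ≤ N)
    (hT : T = ⌈(40960 * C2) ^ 2 * (1 + Real.log N)⌉₊) :
    16 ≤ T ∧ C2 * (1 + Real.log T + Real.log N) ≤
      (40960 * C2) ^ 2 / 8192 * (1 + Real.log N) ∧
      (40960 * C2) ^ 2 * (1 + Real.log N) ≤ T := by
  have hlog : 0 ≤ Real.log N := Real.log_natCast_nonneg N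
  set K : ℝ := (40960 * C2) ^ 2 with hK
  have hs1 : 40960 ≤ 40960 * C2 := by linarith
  have hK1 : 40960 ^ 2 ≤ K := by
    rw [hK]
    gcongr
  have h1 : K * (1 + Real.log N) ≤ T := by
    rw [hT]
    exact Nat.le_ceil _
  have h2 : (T : ℝ) ≤ 2 * (K * (1 + Real.log N)) := by
    have h3 : (T : ℝ) < K * (1 + Real.log N) + 1 := by
      rw [hT]
      exact Nat.ceil_lt_add_one (by positivity)
    have h4 : K * 1 ≤ K * (1 + Real.log N) := by
      gcongr
      linarith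
    nlinarith
  have hT0 : (0 : ℝ) < T := by
    have : 0 < K * (1 + Real.log N) := by positivity
    linarith
  refine ⟨?_, ?_, h1⟩
  · have h4 : K * 1 ≤ K * (1 + Real.log N) := by
      gcongr
      linarith
    have h5 : (16 : ℝ) ≤ T := by nlinarith
    exact_mod_cast h5
  · have h3 : Real.log T ≤ Real.log (2 * K) + Real.log N := by
      have h4 := Real.log_le_log hT0 h2
      rw [← mul_assoc, Real.log_mul (by positivity) (by positivity)] at h4
      have h5 := Real.log_le_sub_one_of_pos (show (0 : ℝ) < 1 + Real.log N by positivity)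
      linarith
    have h4 : Real.log (2 * K) ≤ 3 * (40960 * C2) := by
      have h5 : (2 : ℝ) * K ≤ (3 / 2 * (40960 * C2)) ^ 2 := by
        rw [hK]
        nlinarith [sq_nonneg (40960 * C2)]
      have h6 := Real.log_le_log (by positivity) h5
      rw [Real.log_pow] at h6
      have h7 := Real.log_le_sub_one_of_pos (show (0 : ℝ) < 3 / 2 * (40960 * C2) by positivity)
      push_cast at h6
      linarith
    have h5 : 1 + Real.log T + Real.log N ≤ 5 * (40960 * C2) * (1 + Real.log N) := by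
      nlinarith
    calc C2 * (1 + Real.log T + Real.log N) ≤ C2 * (5 * (40960 * C2) * (1 + Real.log N)) := by
          gcongr
      _ = K / 8192 * (1 + Real.log N) := by
          rw [hK]
          ring

theorem gain_core (h : UMap Φ d) (hd : 2 ≤ d) {n : ℕ} (hn : 2 ≤ n)
    (hM : 10 ^ 7 * (d : ℝ) ^ 2 ≤ (d : ℝ) ^ n) {a R0 : ℝ} (ha : 0 < a) (hka : 1024 * G.k ≤ a)
    (hR0 : Bd Φ d R0) (hA : Bd (Φ^[n]) (d ^ n) ((d : ℝ) ^ n * a))
    (hmin : NearMin (Φ^[n]) (d ^ n) a)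
    {I : Type} [DecidableEq I] {Y : Finset I} {p : I → L × L}
    (hp : ∀ i ∈ Y, p i ≠ 0) (hpp : ∀ i ∈ Y, ∀ j ∈ Y, i ≠ j → wd (p i) (p j) ≠ 0)
    (hpre : ∀ i ∈ Y, Preper Φ (p i)) {α : L × L} (hα : ‖α‖ = 1)
    (hclose : ∀ i ∈ Y, dl (p i) α ≤ Real.exp (-(a / 2))) :
    en p Y ≤ - (a / 4096) * (Y.card : ℝ) ^ 2 + KC d n * a * (Y.card * (1 + Real.log Y.card)) := by
  classical
  have hk := G.k_nonneg
  have hdR : (2 : ℝ) ≤ d := by exact_mod_cast hd
  rcases Finset.eq_empty_or_nonempty Y with rfl | hY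
  · simp [en]
  have hN1' : 1 ≤ Y.card := hY.card_pos
  have hN1 : (1 : ℝ) ≤ Y.card := by exact_mod_cast hN1'
  have hlog : 0 ≤ Real.log Y.card := Real.log_nonneg hN1
  have hnR : (2 : ℝ) ≤ n := by exact_mod_cast hn
  have hd1 : 1 ≤ d := by omega
  -- rigidity
  set R : ℝ := 400 * d * (a + 4 * G.k) with hRdef
  obtain ⟨_, hB⟩ := rigidity G h hd hn hR0 hA
  rw [← hRdef] at hB
  have hR : 0 ≤ R := by positivity
  have hRa : R ≤ 402 * d * a := by
    rw [hRdef]
    have : a + 4 * G.k ≤ 1.005 * a := by linarith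
    calc 400 * (d : ℝ) * (a + 4 * G.k) ≤ 400 * d * (1.005 * a) := by gcongr
      _ = 402 * d * a := by ring
  -- number of base vectors
  set C2 : ℝ := 10000 * n * (d : ℝ) ^ 2 with hC2
  have hC21 : 1 ≤ C2 := by
    rw [hC2]
    nlinarith
  set T : ℕ := ⌈(40960 * C2) ^ 2 * (1 + Real.log Y.card)⌉₊ with hT
  obtain ⟨hT16, hTb, hTK⟩ := T_bound hC21 hN1' hT
  have hKC : KC d n = (40960 * C2) ^ 2 := by rw [KC, hC2]
  rw [← hKC] at hTb hTK
  set K : ℝ := KC d n with hK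
  have hK1 : 8192 ≤ K := by
    rw [hKC]
    nlinarith
  have hT1 : 1 ≤ T := by omega
  have hTR : (1 : ℝ) ≤ T := by exact_mod_cast hT1
  have hlogT : 0 ≤ Real.log T := Real.log_nonneg hTR
  obtain ⟨u, z, hu1, hu2, hu3, hu5, hz1, hz2, hsep⟩ := exists_config G h hd hR hB hp n T hT1
  set c1 : ℝ := d * G.k + R + (2 * d * R + d * G.k) with hc1
  have hc1n : 0 ≤ c1 := by positivity
  set g : ℝ := 8 * G.k * (1 + Real.log T + Real.log (Y.card + 1)) with hg
  have hlog1 : Real.log (Y.card + 1) ≤ 1 + Real.log Y.card := by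
    have h1 : Real.log ((Y.card : ℝ) + 1) ≤ Real.log (2 * Y.card) :=
      Real.log_le_log (by positivity) (by linarith)
    rw [Real.log_mul (by norm_num) (by positivity)] at h1
    have h2 := Real.log_two_lt_d9
    linarith
  have hlog1n : 0 ≤ Real.log ((Y.card : ℝ) + 1) := Real.log_nonneg (by linarith)
  have hgn : 0 ≤ g := by positivity
  set ε : ℝ := Real.exp (-(g + n * c1 + 2 * G.k + a / 2)) with hε
  have hε0 : 0 < ε := Real.exp_pos _
  have hε1 : ε ≤ 1 := by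
    rw [hε, Real.exp_le_one_iff]
    have : 0 ≤ g + n * c1 + 2 * G.k + a / 2 := by positivity
    linarith
  have hεsep : ε ≤ Real.exp (-(g + n * c1 + 2 * G.k)) := by
    rw [hε]
    apply Real.exp_le_exp.mpr
    linarith
  have hεa : ε ≤ Real.exp (-(a / 2)) := by
    rw [hε]
    apply Real.exp_le_exp.mpr
    have : 0 ≤ g + n * c1 + 2 * G.k := by positivity
    linarith
  obtain ⟨ker, k0, k1, k2, k3, _, k5⟩ := G.kernel ε Y.card hε0 hε1 hN1'
  obtain ⟨U, hU1, hU2, hU3, hU4⟩ := k5 (Real.exp (-(a / 4))) (Real.exp (-(a / 2))) hεa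
    (Real.exp_le_exp.mpr (by linarith)) (by rw [Real.exp_le_one_iff]; linarith) α
    (by rw [← norm_pos_iff, hα]; exact one_pos)
  have hloge : Real.log (Real.exp (-(a / 4)) / Real.exp (-(a / 2))) = a / 4 := by
    rw [← Real.exp_sub, Real.log_exp]
    ring
  rw [hloge] at hU1 hU2 hU4
  have hin : UMap (Φ^[n]) (d ^ n) := h.iter hd1 n
  have hM1 : 1 ≤ d ^ n := Nat.one_le_pow _ _ (by omega)
  have hu0 : ∀ j, u j ≠ 0 := fun j => by rw [← norm_pos_iff, hu1]; exact one_pos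
  have hz0 : ∀ k l, z k l ≠ 0 := fun k l => hin.pre_ne_zero hM1 (hu0 k) (hz1 k l)
  have hMc : ((d ^ n : ℕ) : ℝ) = (d : ℝ) ^ n := by push_cast; rfl
  have hM1000 : 1000 ≤ d ^ n := by
    have h1 : (1000 : ℝ) ≤ ((d ^ n : ℕ) : ℝ) := by
      rw [hMc]
      nlinarith
    exact_mod_cast h1
  -- lower bound for the energy
  have hgap := energy_gap G ha hka hM1 hα hT16 hz0 (fun s hs =>
    few_bad G hin hM1000 (by rw [hMc]; exact hA) hmin ha hka hα hT16 hu1 hu5 hz1 hz2 hs) hY hp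
    hclose (ker := ker) (U := U) (fun i hi k l => k0 _ _ (hz0 k l) (hp i hi)) hU1 hU2 hU3 hU4
  -- upper bound
  have hmaster := master G h hd hR hB hY hp hpp hpre hT1 hu1 hu2 hu3 hz1 hz2 hε0 k1 k2 k3
    (fun i hi k l => hεsep.trans (hsep i hi k l))
  rw [hMc] at hgap
  have h1 := hgap.trans hmaster
  set N : ℝ := (Y.card : ℝ) with hNdef
  have hN0 : (0 : ℝ) < N := by linarith
  set E : ℝ := - Real.log ε + 4 * G.k * (1 + Real.log N) with hE
  have hEv : E = g + n * c1 + 2 * G.k + a / 2 + 4 * G.k * (1 + Real.log N) := by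
    rw [hE, hε, Real.log_exp]
    ring
  have hE0 : 0 ≤ E := by rw [hEv]; positivity
  -- estimate of the constants
  set ℒ : ℝ := 1 + Real.log T + Real.log N with hℒ
  have hℒ1 : 1 ≤ ℒ := by linarith
  have hd2 : (d : ℝ) ≤ (d : ℝ) ^ 2 := by nlinarith
  have hc1a : c1 ≤ 1300 * (d : ℝ) ^ 2 * a := by
    have e1 : c1 = 2 * d * G.k + (2 * d + 1) * R := by rw [hc1]; ring
    have e2 : 2 * (d : ℝ) * G.k ≤ 2 * d * a := by
      have : G.k ≤ a := by linarith
      gcongr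
    have e3 : (2 * (d : ℝ) + 1) * R ≤ (3 * d) * (402 * d * a) := by
      have : 2 * (d : ℝ) + 1 ≤ 3 * d := by linarith
      gcongr
    have e4 : 2 * (d : ℝ) * a ≤ 2 * (d : ℝ) ^ 2 * a := by gcongr
    rw [e1]
    linarith
  have hER : E + 2 * R ≤ C2 * a * ℒ := by
    have e1 : g ≤ a * ℒ := by
      have : 1 + Real.log T + Real.log (N + 1) ≤ 2 * ℒ := by linarith
      calc g ≤ 8 * G.k * (2 * ℒ) := by rw [hg]; gcongr
        _ = (16 * G.k) * ℒ := by ring
        _ ≤ a * ℒ := by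
            have : 16 * G.k ≤ a := by linarith
            gcongr
    have e2 : n * c1 ≤ n * (1300 * (d : ℝ) ^ 2 * a) := by gcongr
    have e3 : 4 * G.k * (1 + Real.log N) ≤ a * ℒ := by
      have : 4 * G.k ≤ a := by linarith
      have : 1 + Real.log N ≤ ℒ := by linarith
      gcongr
    have e4 : 2 * R ≤ 804 * (d : ℝ) ^ 2 * a := by
      have : 804 * (d : ℝ) * a ≤ 804 * (d : ℝ) ^ 2 * a := by gcongr
      linarith
    have e5 : a * 1 ≤ a * ℒ := by gcongr
    have e6 : n * (1300 * (d : ℝ) ^ 2 * a) ≤ n * (1300 * (d : ℝ) ^ 2 * (a * ℒ)) := by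
      rw [mul_one] at e5
      gcongr
    have e7 : 804 * (d : ℝ) ^ 2 * a ≤ 804 * (d : ℝ) ^ 2 * (a * ℒ) := by
      rw [mul_one] at e5
      gcongr
    have e8 : (a * ℒ) * (3 + 804 * (d : ℝ) ^ 2) ≤ (a * ℒ) * (n * (8700 * (d : ℝ) ^ 2)) := by
      have : 3 + 804 * (d : ℝ) ^ 2 ≤ n * (8700 * (d : ℝ) ^ 2) := by nlinarith
      have : 0 ≤ a * ℒ := by positivity
      gcongr
    rw [hEv, hC2]
    nlinarith
  have hERK : E + 2 * R ≤ a * (K / 8192 * (1 + Real.log N)) := by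
    calc E + 2 * R ≤ C2 * a * ℒ := hER
      _ = a * (C2 * ℒ) := by ring
      _ ≤ _ := by gcongr
  have t1 : (E + 2 * R) / T ≤ a / 8192 := by
    rw [div_le_iff₀ (by linarith)]
    calc E + 2 * R ≤ a * (K / 8192 * (1 + Real.log N)) := hERK
      _ = a / 8192 * (K * (1 + Real.log N)) := by ring
      _ ≤ a / 8192 * T := by gcongr
  have t2 : 2 * (G.k + (2 * d * R + d * G.k)) / (d : ℝ) ^ n ≤ a / 6000 := by
    rw [div_le_iff₀ (by positivity)]
    have e1 : 2 * (G.k + (2 * d * R + d * G.k)) ≤ 1620 * (d : ℝ) ^ 2 * a := by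
      have e2 : 2 * d * R ≤ 2 * d * (402 * d * a) := by gcongr
      have e3 : (d : ℝ) * G.k ≤ (d : ℝ) ^ 2 * a := by
        have : G.k ≤ a := by linarith
        gcongr
      have e4 : G.k ≤ (d : ℝ) ^ 2 * a := by nlinarith
      nlinarith
    calc 2 * (G.k + (2 * d * R + d * G.k)) ≤ 1620 * (d : ℝ) ^ 2 * a := e1
      _ ≤ a / 6000 * (10 ^ 7 * (d : ℝ) ^ 2) := by
          have : 0 ≤ a * (d : ℝ) ^ 2 := by positivity
          norm_num
          linarith
      _ ≤ _ := by gcongr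
  have h2 : en p Y / N ^ 2 ≤ -(a / 4096) + (E + 2 * R + 8 * G.k) / N := by
    have e1 : (E + 2 * R + 8 * G.k) / N = (E + 2 * R) / N + 2 * (4 * G.k / N) := by ring
    have e2 : - en p Y / N ^ 2 = - (en p Y / N ^ 2) := by ring
    rw [e2] at h1
    rw [e1]
    linarith
  have h3 : en p Y ≤ -(a / 4096) * N ^ 2 + (E + 2 * R + 8 * G.k) * N := by
    rw [div_le_iff₀ (by positivity)] at h2
    refine h2.trans (le_of_eq ?_)
    field_simp
  refine h3.trans ?_
  have h4 : (E + 2 * R + 8 * G.k) * N ≤ K * a * (N * (1 + Real.log N)) := by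
    have e1 : E + 2 * R + 8 * G.k ≤ K * a * (1 + Real.log N) := by
      have e2 : 8 * G.k ≤ a * (K / 8192 * (1 + Real.log N)) := by
        have e3 : 8 * G.k ≤ a := by linarith
        have e4 : 1 ≤ K / 8192 * (1 + Real.log N) := by
          have : 1 ≤ K / 8192 := by linarith
          nlinarith
        nlinarith
      have e5 : 0 ≤ K * a * (1 + Real.log N) := by positivity
      nlinarith
    calc (E + 2 * R + 8 * G.k) * N ≤ (K * a * (1 + Real.log N)) * N := by gcongr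
      _ = _ := by ring
  linarith

/-- The gain for rational maps. -/
theorem rf_gain (h : UMap Φ d) (hd : 2 ≤ d) {n : ℕ} (hn : 2 ≤ n)
    (hM : 10 ^ 7 * (d : ℝ) ^ 2 ≤ (d : ℝ) ^ n) {a R0 : ℝ} (ha : 0 < a) (hka : 1024 * G.k ≤ a)
    (hR0 : Bd Φ d R0) (hA : Bd (Φ^[n]) (d ^ n) ((d : ℝ) ^ n * a))
    (hmin : NearMin (Φ^[n]) (d ^ n) a) :
    ∃ cl : L × L → Option (Fin (d ^ n)), ∀ {I : Type} [DecidableEq I] {Y : Finset I}
      {p : I → L × L} (_ : ∀ i ∈ Y, p i ≠ 0)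
      (_ : ∀ i ∈ Y, ∀ j ∈ Y, i ≠ j → wd (p i) (p j) ≠ 0)
      (_ : ∀ i ∈ Y, Preper Φ (p i)) (o : Option (Fin (d ^ n))) (_ : ∀ i ∈ Y, cl (p i) = o),
      en p Y ≤ - (a / 4096) * (Y.card : ℝ) ^ 2 +
        KC d n * a * (Y.card * (1 + Real.log Y.card)) := by
  classical
  have hk := G.k_nonneg
  have hdR : (2 : ℝ) ≤ d := by exact_mod_cast hd
  have hnR : (2 : ℝ) ≤ n := by exact_mod_cast hn
  have hd1 : 1 ≤ d := by omega
  have hd2 : (d : ℝ) ≤ (d : ℝ) ^ 2 := by nlinarith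
  set R : ℝ := 400 * d * (a + 4 * G.k) with hRdef
  obtain ⟨_, hB⟩ := rigidity G h hd hn hR0 hA
  rw [← hRdef] at hB
  have hR : 0 ≤ R := by positivity
  have hRa : R ≤ 402 * d * a := by
    rw [hRdef]
    have : a + 4 * G.k ≤ 1.005 * a := by linarith
    calc 400 * (d : ℝ) * (a + 4 * G.k) ≤ 400 * d * (1.005 * a) := by gcongr
      _ = 402 * d * a := by ring
  have hin : UMap (Φ^[n]) (d ^ n) := h.iter hd1 n
  have hM1 : 1 ≤ d ^ n := Nat.one_le_pow _ _ (by omega)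
  have hMc : ((d ^ n : ℕ) : ℝ) = (d : ℝ) ^ n := by push_cast; rfl
  -- the base vector with large preimages
  set e1 : L × L := (1, 0) with he1
  set e2 : L × L := (0, 1) with he2
  have hw : wd e1 e2 = 1 := by simp [wd, he1, he2]
  have hw0 : wd e1 e2 ≠ 0 := by rw [hw]; exact one_ne_zero
  have hn1 : ‖e1‖ = 1 := by simp [he1, Prod.norm_def]
  have hn2 : ‖e2‖ = 1 := by simp [he2, Prod.norm_def]
  obtain ⟨u, z, hu, hz1, hz2, hS⟩ : ∃ (u : L × L) (z : Fin (d ^ n) → L × L), ‖u‖ = 1 ∧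
      (∀ l, Φ^[n] (z l) = u) ∧ (∀ x, ‖wd (Φ^[n] x) u‖ = ∏ l, ‖wd x (z l)‖) ∧
      (d : ℝ) ^ n * (0.99 * a) ≤ ∑ l, Real.log ‖z l‖ := by
    obtain ⟨z, hz1, hz2⟩ := hin.pre e1 (left_ne_zero hw0)
    obtain ⟨z', hz1', hz2'⟩ := hin.pre e2 (right_ne_zero hw0)
    by_cases hc : (d : ℝ) ^ n * (0.99 * a) ≤ ∑ l, Real.log ‖z l‖
    · exact ⟨e1, z, hn1, hz1, hz2, hc⟩
    by_cases hc' : (d : ℝ) ^ n * (0.99 * a) ≤ ∑ l, Real.log ‖z' l‖
    · exact ⟨e2, z', hn2, hz1', hz2', hc'⟩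
    exfalso
    push Not at hc hc'
    have h1 := bd_of_preimages G (Ψ := Φ^[n]) (m := d ^ n) (LinearEquiv.refl L (L × L))
      (fun x y => rfl) hw0 (fun l => hin.pre_ne_zero hM1 (left_ne_zero hw0) (hz1 l))
      (fun l => hin.pre_ne_zero hM1 (right_ne_zero hw0) (hz1' l)) hz2 hz2'
      (S := (d : ℝ) ^ n * (0.99 * a)) (r := 0) (t := 0) (by simpa using hc.le)
      (by simpa using hc'.le) (by simp [hn1]) (by simp [hn2]) (by simp [hw])
    have h2 := hmin (LinearEquiv.refl L (L × L)) (fun x y => rfl) (G.k + 0.99 * a + G.k) (by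
      refine h1.mono ?_
      rw [hMc]
      have : G.k ≤ (d : ℝ) ^ n * G.k := by
        have : (1 : ℝ) ≤ (d : ℝ) ^ n := by exact_mod_cast hM1
        nlinarith
      linarith)
    norm_num at h2
    linarith
  have hu0 : u ≠ 0 := by rw [← norm_pos_iff, hu]; exact one_pos
  have hz0 : ∀ l, z l ≠ 0 := fun l => hin.pre_ne_zero hM1 hu0 (hz1 l)
  -- close preimages
  have hex : ∀ x : L × L, ∃ l : Fin (d ^ n), (x ≠ 0 → Preper Φ x → - (a / 4) < Real.log ‖x‖ →
      dl x (z l) ≤ Real.exp (-(a / 2))) := by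
    intro x
    by_contra hcon
    push Not at hcon
    obtain ⟨hx0, hxp, hxa, _⟩ := hcon ⟨0, hM1⟩
    have hfar : ∀ l, Real.exp (-(a / 2)) < dl x (z l) := fun l => (hcon l).2.2.2
    have hxpos := norm_pos_iff.mpr hx0
    have h1 : ∀ l, wd x (z l) ≠ 0 ∧
        -(a / 2) + Real.log ‖x‖ + Real.log ‖z l‖ ≤ Real.log ‖wd x (z l)‖ := by
      intro l
      have h2 := hfar l
      have hzpos := norm_pos_iff.mpr (hz0 l)
      unfold dl at h2
      rw [lt_div_iff₀ (by positivity)] at h2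
      have h3 : 0 < ‖wd x (z l)‖ := lt_of_le_of_lt (by positivity) h2
      refine ⟨norm_pos_iff.mp h3, ?_⟩
      have h4 := Real.log_le_log (by positivity) h2.le
      rw [Real.log_mul (Real.exp_pos _).ne' (by positivity), Real.log_exp,
        Real.log_mul hxpos.ne' hzpos.ne'] at h4
      linarith
    have h2 := Finset.sum_le_sum (fun l (_ : l ∈ (univ : Finset (Fin (d ^ n)))) => (h1 l).2)
    simp only [Finset.sum_add_distrib, Finset.sum_const, Finset.card_univ, Fintype.card_fin,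
      nsmul_eq_mul, hMc] at h2
    rw [← Real.log_prod (fun l _ => (norm_pos_iff.mpr (h1 l).1).ne'), ← hz2] at h2
    have hwd : wd (Φ^[n] x) u ≠ 0 := by
      rw [← norm_pos_iff, hz2]
      exact Finset.prod_pos (fun l _ => norm_pos_iff.mpr (h1 l).1)
    have h4 := G.log_wd_le hwd
    have h5 := h.log_le_of_preper G hd hR hB (left_ne_zero hwd) (hxp.iterate n)
    rw [hu, Real.log_one] at h4
    have h6 : G.k + (2 * d * R + d * G.k) ≤ 810 * (d : ℝ) ^ 2 * a := by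
      have e2 : 2 * d * R ≤ 2 * d * (402 * d * a) := by gcongr
      have e3 : (d : ℝ) * G.k ≤ (d : ℝ) ^ 2 * a := by
        have : G.k ≤ a := by linarith
        gcongr
      have e4 : G.k ≤ (d : ℝ) ^ 2 * a := by nlinarith
      nlinarith
    have h7 : 810 * (d : ℝ) ^ 2 * a ≤ (d : ℝ) ^ n * (0.1 * a) := by
      calc 810 * (d : ℝ) ^ 2 * a ≤ (10 ^ 7 * (d : ℝ) ^ 2) * (0.1 * a) := by
            have : 0 ≤ (d : ℝ) ^ 2 * a := by positivity
            norm_num
            linarith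
        _ ≤ _ := by gcongr
    have h8 : (d : ℝ) ^ n * (-(a / 4)) ≤ (d : ℝ) ^ n * Real.log ‖x‖ := by gcongr
    have h9 : 0 < (d : ℝ) ^ n * a := by positivity
    nlinarith
  choose pc hpc using hex
  refine ⟨fun x => if Real.log ‖x‖ ≤ -(a / 4) then none else some (pc x), ?_⟩
  intro I _ Y p hp hpp hpre o ho
  have hN0 : (0 : ℝ) ≤ Y.card := Nat.cast_nonneg _
  have hlog : 0 ≤ Real.log Y.card := Real.log_natCast_nonneg _
  rcases o with _ | l
  · -- the points of small size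
    have h1 : ∀ i ∈ Y, Real.log ‖p i‖ ≤ -(a / 4) := by
      intro i hi
      have h2 := ho i hi
      by_contra hcon
      simp only [if_neg hcon] at h2
      exact absurd h2 (by simp)
    have h2 : en p Y ≤ ∑ _q ∈ Y.offDiag, (-(a / 4)) := by
      unfold en
      apply Finset.sum_le_sum
      intro q hq
      have hq' := Finset.mem_offDiag.mp hq
      have h3 := G.log_wd_le (hpp _ hq'.1 _ hq'.2.1 hq'.2.2)
      have h4 := h1 _ hq'.1
      have h5 := h1 _ hq'.2.1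
      linarith
    rw [Finset.sum_const, nsmul_eq_mul, Finset.offDiag_card, Nat.cast_sub (by nlinarith [Nat.zero_le Y.card]),
      Nat.cast_mul] at h2
    have hKC : 1 ≤ KC d n := by
      rw [KC]
      have : (1 : ℝ) ≤ 10000 * n * (d : ℝ) ^ 2 := by nlinarith
      nlinarith
    have h3 : a * Y.card ≤ KC d n * a * (Y.card * (1 + Real.log Y.card)) := by
      have h4 : 1 * a * (Y.card * 1) ≤ KC d n * a * (Y.card * (1 + Real.log Y.card)) := by
        gcongr
        linarith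
      linarith
    nlinarith
  · -- the points close to one preimage
    obtain ⟨c, hc0, hc⟩ := exists_scalar (hz0 l)
    have hzpos := norm_pos_iff.mpr (hz0 l)
    refine gain_core G h hd hn hM ha hka hR0 hA hmin hp hpp hpre (α := c • z l) (by
      rw [norm_smul, hc, inv_mul_cancel₀ hzpos.ne']) ?_
    intro i hi
    have h2 := ho i hi
    by_cases hcon : Real.log ‖p i‖ ≤ -(a / 4)
    · simp only [if_pos hcon] at h2
      exact absurd h2 (by simp)
    · simp only [if_neg hcon, Option.some.injEq] at h2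
      have h3 := hpc (p i) (hp i hi) (hpre i hi) (by push Not at hcon; exact hcon)
      rw [h2] at h3
      have h4 : dl (p i) (c • z l) = dl (p i) (z l) := by
        unfold dl
        have hcpos : 0 < ‖c‖ := norm_pos_iff.mpr hc0
        have hppos := norm_pos_iff.mpr (hp i hi)
        rw [wd_smul_right, norm_mul, norm_smul]
        field_simp
      rw [h4]
      exact h3

end gain

end Pool.Agent.UBC90787a
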