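import Pool.Agent.Lib.MP_90787a_nt.RF.Gain
import Pool.Agent.Lib.MP_90787a_nt.Core

set_option autoImplicit false
set_option linter.unusedSectionVars false

/-!
Energy bounds in terms of the smallest size in all coordinates.
-/

namespace Pool.Agent.UBC90787a

open Finset

/-- The linear automorphisms of determinant one. -/
def SLin {L : Type} [Field L] (A : (L × L) ≃ₗ[L] (L × L)) : Prop :=
  ∀ x y, wd (A x) (A y) = wd x y

/-- The sizes of a map in all coordinates. -/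
def SizeSet {L : Type} [NormedField L] (Φ : L × L → L × L) (d : ℕ) : Set ℝ :=
  {ρ | 0 ≤ ρ ∧ ∃ A : (L × L) ≃ₗ[L] (L × L), SLin A ∧ Bd (fun x => A.symm (Φ (A x))) d ρ}

section local_size

variable {L : Type} [NormedField L] {Φ : L × L → L × L} {d : ℕ}

lemma sizeSet_bddBelow : BddBelow (SizeSet Φ d) := ⟨0, fun _ h => h.1⟩

lemma exists_size_of_gt (hne : (SizeSet Φ d).Nonempty) {R : ℝ} (hR : sInf (SizeSet Φ d) < R) :
    0 ≤ R ∧ ∃ A : (L × L) ≃ₗ[L] (L × L), SLin A ∧ Bd (fun x => A.symm (Φ (A x))) d R := by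
  obtain ⟨ρ, ⟨h1, A, h2, h3⟩, h4⟩ := exists_lt_of_csInf_lt hne hR
  exact ⟨h1.trans h4.le, A, h2, h3.mono h4.le⟩

lemma SLin.symm_wd {A : (L × L) ≃ₗ[L] (L × L)} (hA : SLin A) (x y : L × L) :
    wd (A.symm x) (A.symm y) = wd x y := wd_symm_symm A hA x y

lemma en_symm {A : (L × L) ≃ₗ[L] (L × L)} (hA : SLin A) {I : Type} [DecidableEq I]
    (p : I → L × L) (Y : Finset I) : en (fun i => A.symm (p i)) Y = en p Y := by
  unfold en
  simp only [hA.symm_wd]

lemma preper_conj (A : (L × L) ≃ₗ[L] (L × L)) {x : L × L} (h : Preper Φ x) :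
    Preper (fun y => A.symm (Φ (A y))) (A.symm x) := by
  obtain ⟨m, n, hmn, he⟩ := h
  refine ⟨m, n, hmn, ?_⟩
  rw [iterate_conj, iterate_conj]
  simp only [LinearEquiv.apply_symm_apply, he]

lemma conj_conj (A B : (L × L) ≃ₗ[L] (L × L)) :
    (fun x => B.symm ((fun y => A.symm (Φ (A y))) (B x))) =
      fun x => (B.trans A).symm (Φ ((B.trans A) x)) := by
  funext x
  simp

lemma SLin.trans {A B : (L × L) ≃ₗ[L] (L × L)} (hA : SLin A) (hB : SLin B) :
    SLin (B.trans A) := by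
  intro x y
  rw [LinearEquiv.trans_apply, LinearEquiv.trans_apply, hA, hB]

lemma le_mul_of_forall_gt {e c W : ℝ} (hc : 0 ≤ c) (h : ∀ R, W < R → e ≤ c * R) :
    e ≤ c * W := by
  rcases eq_or_lt_of_le hc with hc0 | hc0
  · have := h (W + 1) (by linarith)
    rw [← hc0, zero_mul] at this ⊢
    exact this
  · by_contra hcon
    push Not at hcon
    have h1 : W < (W + e / c) / 2 := by
      have : W < e / c := by rw [lt_div_iff₀ hc0]; linarith
      linarith
    have h2 := h _ h1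
    have h3 : c * ((W + e / c) / 2) = (c * W + e) / 2 := by field_simp
    rw [h3] at h2
    linarith

/-- The upper bound for the energy. -/
theorem size_baseline (G : Geo L) (h : UMap Φ d) (hd : 2 ≤ d) (hne : (SizeSet Φ d).Nonempty)
    {I : Type} [DecidableEq I] {Y : Finset I} {p : I → L × L}
    (hp : ∀ i ∈ Y, p i ≠ 0) (hpp : ∀ i ∈ Y, ∀ j ∈ Y, i ≠ j → wd (p i) (p j) ≠ 0)
    (hpre : ∀ i ∈ Y, Preper Φ (p i)) :
    en p Y ≤ 100 * d * (sInf (SizeSet Φ d) + G.k) * ell Y.card := by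
  have hell := ell_nonneg Y.card
  have hk := G.k_nonneg
  have key : en p Y - 100 * d * G.k * ell Y.card ≤
      (100 * d * ell Y.card) * sInf (SizeSet Φ d) := by
    apply le_mul_of_forall_gt (by positivity)
    intro R hR
    obtain ⟨hR0, A, hA, hB⟩ := exists_size_of_gt hne hR
    have h1 := rf_baseline G (h.conj A hA) hd hR0 hB (Y := Y) (p := fun i => A.symm (p i))
      (fun i hi h0 => hp i hi (by simpa using h0))
      (fun i hi j hj hij => by rw [hA.symm_wd]; exact hpp i hi j hj hij)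
      (fun i hi => preper_conj A (hpre i hi))
    rw [en_symm hA] at h1
    have e : (Y.card : ℝ) * (1 + Real.log Y.card) = ell Y.card := rfl
    rw [e] at h1
    linarith
  linarith

/-- The upper bound for pairs. -/
theorem size_pair (G : Geo L) (h : UMap Φ d) (hd : 2 ≤ d) (hne : (SizeSet Φ d).Nonempty)
    {x y : L × L} (hxy : wd x y ≠ 0) (hx : Preper Φ x) (hy : Preper Φ y) :
    Real.log ‖wd x y‖ ≤ 4 * d * sInf (SizeSet Φ d) + (2 * d + 1) * G.k := by
  have hx0 := left_ne_zero hxy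
  have hy0 := right_ne_zero hxy
  have key : Real.log ‖wd x y‖ - (2 * d + 1) * G.k ≤ (4 * d) * sInf (SizeSet Φ d) := by
    apply le_mul_of_forall_gt (by positivity)
    intro R hR
    obtain ⟨hR0, A, hA, hB⟩ := exists_size_of_gt hne hR
    have hc := h.conj A hA
    have hx0' : A.symm x ≠ 0 := by simpa using hx0
    have hy0' : A.symm y ≠ 0 := by simpa using hy0
    have h1 := hc.log_le_of_preper G hd hR0 hB hx0' (preper_conj A hx)
    have h2 := hc.log_le_of_preper G hd hR0 hB hy0' (preper_conj A hy)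
    have h3 : wd (A.symm x) (A.symm y) ≠ 0 := by rw [hA.symm_wd]; exact hxy
    have h4 := G.log_wd_le h3
    rw [hA.symm_wd] at h4
    linarith
  linarith

lemma lin_bound (B : (L × L) ≃ₗ[L] (L × L)) : ∃ c : ℝ, 0 < c ∧ ∀ x, ‖B x‖ ≤ c * ‖x‖ := by
  refine ⟨‖B (1, 0)‖ + ‖B (0, 1)‖ + 1, by positivity, ?_⟩
  intro x
  have h1 : x = x.1 • ((1, 0) : L × L) + x.2 • ((0, 1) : L × L) := by
    ext <;> simp
  have h2 : B x = x.1 • B (1, 0) + x.2 • B (0, 1) := by
    conv_lhs => rw [h1]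
    rw [map_add, map_smul, map_smul]
  rw [h2]
  refine (norm_add_le _ _).trans ?_
  rw [norm_smul, norm_smul]
  have h3 := norm_fst_le x
  have h4 := norm_snd_le x
  have h5 : ‖x.1‖ * ‖B (1, 0)‖ ≤ ‖x‖ * ‖B (1, 0)‖ := by gcongr
  have h6 : ‖x.2‖ * ‖B (0, 1)‖ ≤ ‖x‖ * ‖B (0, 1)‖ := by gcongr
  have h7 := norm_nonneg x
  nlinarith

lemma bd_conj {R : ℝ} (h : Bd Φ d R) (A : (L × L) ≃ₗ[L] (L × L)) :
    ∃ R', Bd (fun x => A.symm (Φ (A x))) d R' := by
  obtain ⟨c1, hc1, h1⟩ := lin_bound A.symm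
  obtain ⟨c2, hc2, h2⟩ := lin_bound A
  refine ⟨Real.log c1 + R + d * Real.log c2, ?_⟩
  intro x
  refine (h1 _).trans ?_
  have h3 := h (A x)
  have h4 : ‖Φ (A x)‖ ≤ Real.exp R * (c2 * ‖x‖) ^ d := by
    refine h3.trans ?_
    have := h2 x
    gcongr
  rw [Real.exp_add, Real.exp_add, Real.exp_log hc1, Real.exp_nat_mul, Real.exp_log hc2]
  calc c1 * ‖Φ (A x)‖ ≤ c1 * (Real.exp R * (c2 * ‖x‖) ^ d) := by gcongr
    _ = _ := by rw [mul_pow]; ring

lemma bd_all (hne : (SizeSet Φ d).Nonempty) (A : (L × L) ≃ₗ[L] (L × L)) :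
    ∃ R', Bd (fun x => A.symm (Φ (A x))) d R' := by
  obtain ⟨R, _, A1, _, hB⟩ := hne
  obtain ⟨R1, h1⟩ := bd_conj hB (A.trans A1.symm)
  refine ⟨R1, ?_⟩
  have e : (fun x => A.symm (Φ (A x))) = fun x => (A.trans A1.symm).symm
      ((fun y => A1.symm (Φ (A1 y))) ((A.trans A1.symm) x)) := by
    funext x
    simp
  rw [e]
  exact h1

/-- The gain on the classes of a partition. -/
theorem size_gain (G : Geo L) (h : UMap Φ d) (hd : 2 ≤ d) {n : ℕ} (hn : 2 ≤ n)
    (hM : 10 ^ 7 * (d : ℝ) ^ 2 ≤ (d : ℝ) ^ n) (hne : (SizeSet Φ d).Nonempty)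
    (hpos : 0 < sInf (SizeSet Φ d)) (hbig : 819200 * d * G.k ≤ sInf (SizeSet Φ d)) :
    ∃ cl : L × L → Option (Fin (d ^ n)), ∀ {I : Type} [DecidableEq I] {Y : Finset I}
      {p : I → L × L} (_ : ∀ i ∈ Y, p i ≠ 0)
      (_ : ∀ i ∈ Y, ∀ j ∈ Y, i ≠ j → wd (p i) (p j) ≠ 0)
      (_ : ∀ i ∈ Y, Preper Φ (p i)) (o : Option (Fin (d ^ n))) (_ : ∀ i ∈ Y, cl (p i) = o),
      en p Y ≤ sInf (SizeSet Φ d) * (- (1 / (3276800 * d)) * (Y.card : ℝ) ^ 2 +
        2 * KC d n * ell Y.card) := by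
  have hk := G.k_nonneg
  have hdR : (2 : ℝ) ≤ d := by exact_mod_cast hd
  have hd1 : 1 ≤ d := by omega
  have hd0 : (0 : ℝ) < d := by linarith
  have hM1 : (1 : ℝ) ≤ (d : ℝ) ^ n := one_le_pow₀ (by linarith)
  set W : ℝ := sInf (SizeSet Φ d) with hW
  set S : Set ℝ := {a | ∃ A : (L × L) ≃ₗ[L] (L × L), SLin A ∧
    Bd ((fun x => A.symm (Φ (A x)))^[n]) (d ^ n) ((d : ℝ) ^ n * a)} with hS
  have hrig : ∀ a ∈ S, -(2 * G.k) ≤ a ∧ W ≤ 400 * d * (a + 4 * G.k) := by
    rintro a ⟨A, hA, hB⟩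
    obtain ⟨R0, hR0⟩ := bd_all hne A
    obtain ⟨h1, h2⟩ := rigidity G (h.conj A hA) hd hn hR0 hB
    refine ⟨h1, ?_⟩
    apply csInf_le sizeSet_bddBelow
    refine ⟨?_, A, hA, h2⟩
    have : 0 ≤ a + 4 * G.k := by linarith
    positivity
  have hin : ∀ R, W < R → R ∈ S := by
    intro R hR
    obtain ⟨hR0, A, hA, hB⟩ := exists_size_of_gt hne hR
    refine ⟨A, hA, ?_⟩
    refine (Bd.iter (h.conj A hA) hd hR0 hB n).mono ?_
    nlinarith
  have hSne : S.Nonempty := ⟨W + 1, hin _ (by linarith)⟩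
  have hSbdd : BddBelow S := ⟨-(2 * G.k), fun a ha => (hrig a ha).1⟩
  set a0 : ℝ := sInf S with ha0
  have h1 : a0 ≤ W := by
    apply le_of_forall_gt_imp_ge_of_dense
    intro R hR
    exact csInf_le hSbdd (hin R hR)
  have h2 : W / (800 * d) ≤ a0 := by
    apply le_csInf hSne
    intro a ha
    have h3 := (hrig a ha).2
    have h4 : 819200 * d * G.k ≤ W := hbig
    rw [div_le_iff₀ (by positivity)]
    have h5 : 400 * d * (4 * G.k) ≤ W / 2 := by nlinarith
    nlinarith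
  have hWd : 0 < W / (800 * d) := by positivity
  have ha0pos : 0 < a0 := hWd.trans_le h2
  obtain ⟨a, ⟨A, hA, hB⟩, ha⟩ := exists_lt_of_csInf_lt hSne
    (show sInf S < 1.0005 * a0 by rw [← ha0]; norm_num; linarith)
  have haS : a ∈ S := ⟨A, hA, hB⟩
  have ha1 : a0 ≤ a := csInf_le hSbdd haS
  have hapos : 0 < a := ha0pos.trans_le ha1
  have hka : 1024 * G.k ≤ a := by
    have h3 : 1024 * G.k ≤ W / (800 * d) := by
      rw [le_div_iff₀ (by positivity)]
      have h4 : 819200 * d * G.k ≤ W := hbig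
      linarith
    linarith
  have hmin : NearMin ((fun x => A.symm (Φ (A x)))^[n]) (d ^ n) a := by
    intro B hBB b hb
    have hb' : b ∈ S := by
      refine ⟨B.trans A, hA.trans hBB, ?_⟩
      have e : (fun x => (B.trans A).symm (Φ ((B.trans A) x)))^[n] =
          fun x => B.symm ((fun x => A.symm (Φ (A x)))^[n] (B x)) := by
        rw [← conj_conj]
        exact iterate_conj (Φ := fun y => A.symm (Φ (A y))) B n
      rw [e]
      have hMc : ((d ^ n : ℕ) : ℝ) = (d : ℝ) ^ n := by push_cast; rfl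
      rw [hMc] at hb
      exact hb
    have h3 : a0 ≤ b := csInf_le hSbdd hb'
    norm_num at ha ⊢
    linarith
  obtain ⟨R0, hR0⟩ := bd_all hne A
  obtain ⟨cl, hcl⟩ := rf_gain G (h.conj A hA) hd hn hM hapos hka hR0 hB hmin
  refine ⟨fun x => cl (A.symm x), ?_⟩
  intro I _ Y p hp hpp hpre o ho
  have h3 := hcl (Y := Y) (p := fun i => A.symm (p i))
    (fun i hi h0 => hp i hi (by simpa using h0))
    (fun i hi j hj hij => by rw [hA.symm_wd]; exact hpp i hi j hj hij)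
    (fun i hi => preper_conj A (hpre i hi)) o ho
  rw [en_symm hA] at h3
  refine h3.trans ?_
  have e : (Y.card : ℝ) * (1 + Real.log Y.card) = ell Y.card := rfl
  rw [e]
  have hell := ell_nonneg Y.card
  have hKC : 0 ≤ KC d n := by unfold KC; positivity
  have h4 : W / (800 * d) ≤ a := h2.trans ha1
  have h5 : a ≤ 2 * W := by
    norm_num at ha
    linarith
  have h6 : W * (1 / (3276800 * d)) * (Y.card : ℝ) ^ 2 ≤ a / 4096 * (Y.card : ℝ) ^ 2 := by
    have h7 : W * (1 / (3276800 * d)) ≤ a / 4096 := by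
      have h8 : W * (1 / (3276800 * d)) = W / (800 * d) / 4096 := by
        rw [mul_one_div, div_div]
        congr 1
        ring
      rw [h8]
      gcongr
    gcongr
  have h7 : KC d n * a * ell Y.card ≤ KC d n * (2 * W) * ell Y.card := by gcongr
  have e2 : - (a / 4096) * (Y.card : ℝ) ^ 2 = - (a / 4096 * (Y.card : ℝ) ^ 2) := by ring
  rw [e2]
  calc -(a / 4096 * (Y.card : ℝ) ^ 2) + KC d n * a * ell Y.card
      ≤ -(W * (1 / (3276800 * d)) * (Y.card : ℝ) ^ 2) + KC d n * (2 * W) * ell Y.card := by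
        linarith
    _ = _ := by ring

end local_size

end Pool.Agent.UBC90787a
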