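import Pool.Agent.Lib.MP_90787a_nt.RF.Rigidity

set_option autoImplicit false
set_option linter.unusedSectionVars false

/-!
The master inequality comparing a finite set of preperiodic vectors with the preimages of
a system of base vectors.
-/

namespace Pool.Agent.UBC90787a

open Finset

/-- Energy of a family of vectors. -/
noncomputable def en {L : Type} [NormedField L] {I : Type} [DecidableEq I] (p : I → L × L)
    (Y : Finset I) : ℝ :=
  ∑ q ∈ Y.offDiag, Real.log ‖wd (p q.1) (p q.2)‖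

section aux

variable {I : Type} [DecidableEq I]

lemma sum_prod_eq_offDiag (Y : Finset I) (F : I → I → ℝ) :
    ∑ i ∈ Y, ∑ j ∈ Y, F i j = ∑ q ∈ Y.offDiag, F q.1 q.2 + ∑ i ∈ Y, F i i := by
  rw [← Finset.sum_product', ← Finset.diag_union_offDiag,
    Finset.sum_union (Finset.disjoint_diag_offDiag _), Finset.sum_diag]
  ring

lemma sum_offDiag_add (Y : Finset I) (g : I → ℝ) :
    ∑ q ∈ Y.offDiag, (g q.1 + g q.2) = 2 * ((Y.card : ℝ) - 1) * ∑ i ∈ Y, g i := by
  have h := sum_prod_eq_offDiag Y (fun i j => g i + g j)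
  have h1 : ∑ i ∈ Y, ∑ j ∈ Y, (g i + g j) = 2 * (Y.card : ℝ) * ∑ i ∈ Y, g i := by
    simp only [Finset.sum_add_distrib, Finset.sum_const, nsmul_eq_mul, ← Finset.mul_sum]
    ring
  have h2 : ∑ i ∈ Y, (g i + g i) = 2 * ∑ i ∈ Y, g i := by
    rw [Finset.sum_add_distrib]
    ring
  rw [h1, h2] at h
  linarith

end aux

section master

variable {L : Type} [NormedField L] (G : Geo L) {Φ : L × L → L × L} {d : ℕ}

lemma Geo.neg_log_eq {p q : L × L} (h : wd p q ≠ 0) :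
    - Real.log (‖wd p q‖ / (G.nrm p * G.nrm q)) =
      - Real.log ‖wd p q‖ + Real.log (G.nrm p) + Real.log (G.nrm q) := by
  have hp := G.nrm_pos (left_ne_zero h)
  have hq := G.nrm_pos (right_ne_zero h)
  rw [Real.log_div (norm_pos_iff.mpr h).ne' (by positivity), Real.log_mul hp.ne' hq.ne']
  ring

theorem master (h : UMap Φ d) (hd : 2 ≤ d) {R : ℝ} (hR : 0 ≤ R) (hB : Bd Φ d R)
    {I : Type} [DecidableEq I] {Y : Finset I} (hY : Y.Nonempty) {p : I → L × L}
    (hp : ∀ i ∈ Y, p i ≠ 0) (hpp : ∀ i ∈ Y, ∀ j ∈ Y, i ≠ j → wd (p i) (p j) ≠ 0)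
    (hpre : ∀ i ∈ Y, Preper Φ (p i)) {n T : ℕ} (hT : 1 ≤ T) {u : Fin T → L × L}
    (hu1 : ∀ j, ‖u j‖ = 1) (hu2 : ∀ i j, i ≠ j → wd (u i) (u j) ≠ 0)
    (hu3 : ∀ i, 0 ≤ ∑ j ∈ univ.erase i, Real.log ‖wd (u i) (u j)‖)
    {z : Fin T → Fin (d ^ n) → L × L} (hz1 : ∀ k l, Φ^[n] (z k l) = u k)
    (hz2 : ∀ k x, ‖wd (Φ^[n] x) (u k)‖ = ∏ l, ‖wd x (z k l)‖) {ε E τ : ℝ} (hε : 0 < ε)
    {ker : L × L → L × L → ℝ}
    (k1 : ∀ p q, wd p q ≠ 0 → ker p q ≤ - Real.log (‖wd p q‖ / (G.nrm p * G.nrm q)))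
    (k2 : ∀ p q, p ≠ 0 → q ≠ 0 → ker p q ≤ E)
    (k3 : ∀ p q, p ≠ 0 → q ≠ 0 → ε ≤ ‖wd p q‖ / (G.nrm p * G.nrm q) →
      - Real.log (‖wd p q‖ / (G.nrm p * G.nrm q)) - τ ≤ ker p q)
    (hsep : ∀ i ∈ Y, ∀ k l, ε ≤ ‖wd (p i) (z k l)‖ / (G.nrm (p i) * G.nrm (z k l))) :
    (∑ i ∈ Y, ∑ j ∈ Y, ker (p i) (p j)) / (Y.card : ℝ) ^ 2 -
      2 * (∑ i ∈ Y, ∑ k, ∑ l, ker (p i) (z k l)) / (Y.card * (T * (d : ℝ) ^ n)) +
      (∑ k, ∑ l, ∑ k', ∑ l', ker (z k l) (z k' l')) / (T * (d : ℝ) ^ n) ^ 2 ≤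
    - en p Y / (Y.card : ℝ) ^ 2 + (E + 2 * R) / Y.card + (E + 2 * R) / T + 2 * τ +
      2 * (G.k + (2 * d * R + d * G.k)) / (d : ℝ) ^ n := by
  classical
  have hk := G.k_nonneg
  have hd1 : 1 ≤ d := by omega
  have hdR : (2 : ℝ) ≤ d := by exact_mod_cast hd
  have hin : UMap (Φ^[n]) (d ^ n) := h.iter hd1 n
  have hM1 : 1 ≤ d ^ n := Nat.one_le_pow _ _ (by omega)
  set M : ℝ := (d : ℝ) ^ n with hM
  have hMc : ((d ^ n : ℕ) : ℝ) = M := by rw [hM]; push_cast; rfl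
  have hMpos : 0 < M := by positivity
  have hN0 : (0 : ℝ) < Y.card := by exact_mod_cast hY.card_pos
  have hN1 : (1 : ℝ) ≤ Y.card := by exact_mod_cast hY.card_pos
  set N : ℝ := (Y.card : ℝ) with hN
  have hT0 : (0 : ℝ) < T := by exact_mod_cast hT
  have hT1 : (1 : ℝ) ≤ T := by exact_mod_cast hT
  have hu0 : ∀ j, u j ≠ 0 := fun j => by rw [← norm_pos_iff, hu1]; exact one_pos
  have hz0 : ∀ k l, z k l ≠ 0 := fun k l => hin.pre_ne_zero hM1 (hu0 k) (hz1 k l)
  set ℓ : L × L → ℝ := fun q => Real.log (G.nrm q) with hℓ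
  set Sp : ℝ := ∑ i ∈ Y, ℓ (p i) with hSp
  set Sz : ℝ := ∑ k, ∑ l, ℓ (z k l) with hSz
  set C0 : ℝ := G.k + (2 * d * R + d * G.k) with hC0
  -- size of the points
  have hpl : ∀ i ∈ Y, -R ≤ ℓ (p i) := fun i hi =>
    (h.log_ge_of_preper hd hR hB (hp i hi) (hpre i hi)).trans (G.log_nrm_ge (hp i hi))
  have hSpR : -(N * R) ≤ Sp := by
    have h1 := Finset.card_nsmul_le_sum Y (fun i => ℓ (p i)) (-R) hpl
    rw [nsmul_eq_mul] at h1
    linarith
  have hBn := Bd.iter h hd hR hB n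
  have hzl : ∀ k l, -R ≤ ℓ (z k l) := by
    intro k l
    refine le_trans ?_ (G.log_nrm_ge (hz0 k l))
    have h1 := hBn.log_le (hz0 k l) (by rw [hz1]; exact hu0 k)
    rw [hz1, hu1, Real.log_one, hMc, ← hM] at h1
    by_contra hlt
    push Not at hlt
    nlinarith
  have hSzR : -(T * M * R) ≤ Sz := by
    have h1 : ∑ _k : Fin T, ∑ _l : Fin (d ^ n), (-R) ≤ Sz :=
      Finset.sum_le_sum (fun k _ => Finset.sum_le_sum (fun l _ => hzl k l))
    simp only [Finset.sum_const, Finset.card_univ, Fintype.card_fin, nsmul_eq_mul, hMc] at h1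
    linarith
  -- first term
  have hA : ∑ i ∈ Y, ∑ j ∈ Y, ker (p i) (p j) ≤ - en p Y + 2 * (N - 1) * Sp + N * E := by
    rw [sum_prod_eq_offDiag]
    have h1 : ∑ q ∈ Y.offDiag, ker (p q.1) (p q.2) ≤
        ∑ q ∈ Y.offDiag, (- Real.log ‖wd (p q.1) (p q.2)‖ + (ℓ (p q.1) + ℓ (p q.2))) := by
      apply Finset.sum_le_sum
      intro q hq
      have hq' := Finset.mem_offDiag.mp hq
      have h2 := hpp _ hq'.1 _ hq'.2.1 hq'.2.2
      refine (k1 _ _ h2).trans (le_of_eq ?_)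
      rw [G.neg_log_eq h2]
      ring
    rw [Finset.sum_add_distrib, sum_offDiag_add Y (fun i => ℓ (p i)),
      Finset.sum_neg_distrib] at h1
    have h2 : ∑ i ∈ Y, ker (p i) (p i) ≤ N * E := by
      have h3 := Finset.sum_le_card_nsmul Y (fun i => ker (p i) (p i)) E
        (fun i hi => k2 _ _ (hp i hi) (hp i hi))
      rw [nsmul_eq_mul] at h3
      exact h3
    unfold en
    linarith
  -- second term
  have hBt : - (N * T * C0) + T * M * Sp + N * Sz - N * T * M * τ ≤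
      ∑ i ∈ Y, ∑ k, ∑ l, ker (p i) (z k l) := by
    have h1 : ∀ i ∈ Y, ∀ k, - C0 + M * ℓ (p i) + ∑ l, ℓ (z k l) - M * τ ≤
        ∑ l, ker (p i) (z k l) := by
      intro i hi k
      have hne : ∀ l, wd (p i) (z k l) ≠ 0 := by
        intro l h0
        have := hsep i hi k l
        rw [h0, norm_zero, zero_div] at this
        linarith
      have h2 : ∑ l, (- Real.log ‖wd (p i) (z k l)‖ + ℓ (p i) + ℓ (z k l) - τ) ≤
          ∑ l, ker (p i) (z k l) := by
        apply Finset.sum_le_sum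
        intro l _
        have h3 := k3 _ _ (hp i hi) (hz0 k l) (hsep i hi k l)
        rw [G.neg_log_eq (hne l)] at h3
        exact h3
      have h3 : ∑ l, Real.log ‖wd (p i) (z k l)‖ ≤ C0 := by
        rw [← Real.log_prod (fun l _ => (norm_pos_iff.mpr (hne l)).ne'), ← hz2]
        have hwd : wd (Φ^[n] (p i)) (u k) ≠ 0 := by
          rw [← norm_pos_iff, hz2]
          exact Finset.prod_pos (fun l _ => norm_pos_iff.mpr (hne l))
        have h4 := G.log_wd_le hwd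
        have h5 := h.log_le_of_preper G hd hR hB (left_ne_zero hwd) ((hpre i hi).iterate n)
        rw [hu1, Real.log_one] at h4
        linarith
      simp only [Finset.sum_add_distrib, Finset.sum_sub_distrib, Finset.sum_neg_distrib,
        Finset.sum_const, Finset.card_univ, Fintype.card_fin, nsmul_eq_mul, hMc] at h2
      linarith
    have h2 : ∑ i ∈ Y, ∑ k : Fin T, (- C0 + M * ℓ (p i) + ∑ l, ℓ (z k l) - M * τ) ≤
        ∑ i ∈ Y, ∑ k, ∑ l, ker (p i) (z k l) :=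
      Finset.sum_le_sum (fun i hi => Finset.sum_le_sum (fun k _ => h1 i hi k))
    refine le_trans (le_of_eq ?_) h2
    simp only [Finset.sum_add_distrib, Finset.sum_sub_distrib,
        Finset.sum_const, Finset.card_univ, Fintype.card_fin, nsmul_eq_mul, ← Finset.mul_sum]
    ring
  -- third term
  have hCt : ∑ k, ∑ l, ∑ k', ∑ l', ker (z k l) (z k' l') ≤
      2 * (T - 1) * M * Sz + T * M ^ 2 * E := by
    have h1 : ∀ k k', k' ≠ k → ∑ l, ∑ l', ker (z k l) (z k' l') ≤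
        - (M * Real.log ‖wd (u k) (u k')‖) + M * ∑ l, ℓ (z k l) + M * ∑ l', ℓ (z k' l') := by
      intro k k' hkk
      obtain ⟨h2, h3⟩ := sum_pairs_eq hin (hu2 k k' (Ne.symm hkk)) (hz1 k) (hz2 k')
      have h4 : ∑ l, ∑ l', ker (z k l) (z k' l') ≤
          ∑ l, ∑ l', (- Real.log ‖wd (z k l) (z k' l')‖ + ℓ (z k l) + ℓ (z k' l')) := by
        apply Finset.sum_le_sum
        intro l _
        apply Finset.sum_le_sum
        intro l' _
        refine (k1 _ _ (h2 l l')).trans (le_of_eq ?_)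
        rw [G.neg_log_eq (h2 l l')]
      refine h4.trans (le_of_eq ?_)
      simp only [Finset.sum_add_distrib, Finset.sum_neg_distrib, h3,
        Finset.sum_const, Finset.card_univ, Fintype.card_fin, nsmul_eq_mul, hMc, ← Finset.mul_sum]
    have h2 : ∀ k, ∑ l, ∑ l', ker (z k l) (z k l') ≤ M ^ 2 * E := by
      intro k
      have h3 : ∑ l, ∑ l', ker (z k l) (z k l') ≤
          ∑ _l : Fin (d ^ n), ∑ _l' : Fin (d ^ n), E :=
        Finset.sum_le_sum (fun l _ => Finset.sum_le_sum (fun l' _ => k2 _ _ (hz0 k l) (hz0 k l')))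
      refine h3.trans (le_of_eq ?_)
      simp only [Finset.sum_const, Finset.card_univ, Fintype.card_fin, nsmul_eq_mul, hMc]
      ring
    have h3 : ∀ k, ∑ l, ∑ k', ∑ l', ker (z k l) (z k' l') ≤
        M * ((T - 1) * ∑ l, ℓ (z k l)) + M * (Sz - ∑ l, ℓ (z k l)) + M ^ 2 * E := by
      intro k
      rw [Finset.sum_comm, ← Finset.add_sum_erase _ _ (Finset.mem_univ k)]
      have h4 : ∑ k' ∈ univ.erase k, ∑ l, ∑ l', ker (z k l) (z k' l') ≤
          ∑ k' ∈ univ.erase k, (- (M * Real.log ‖wd (u k) (u k')‖) + M * ∑ l, ℓ (z k l) +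
            M * ∑ l', ℓ (z k' l')) :=
        Finset.sum_le_sum (fun k' hk' => h1 k k' (Finset.ne_of_mem_erase hk'))
      simp only [Finset.sum_add_distrib, Finset.sum_neg_distrib, ← Finset.mul_sum,
        Finset.sum_const, Finset.card_erase_of_mem (Finset.mem_univ k), Finset.card_univ,
        Fintype.card_fin, nsmul_eq_mul, Nat.cast_sub hT, Nat.cast_one] at h4
      have h5 : ∑ k' ∈ univ.erase k, ∑ l', ℓ (z k' l') = Sz - ∑ l, ℓ (z k l) := by
        rw [hSz, ← Finset.add_sum_erase _ (fun k => ∑ l, ℓ (z k l)) (Finset.mem_univ k)]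
        ring
      rw [h5] at h4
      have h6 : 0 ≤ M * ∑ k' ∈ univ.erase k, Real.log ‖wd (u k) (u k')‖ :=
        mul_nonneg hMpos.le (hu3 k)
      have h7 := h2 k
      linarith
    have h4 := Finset.sum_le_sum (fun k (_ : k ∈ (univ : Finset (Fin T))) => h3 k)
    refine h4.trans (le_of_eq ?_)
    simp only [Finset.sum_add_distrib, Finset.sum_sub_distrib, ← Finset.mul_sum,
      Finset.sum_const, Finset.card_univ, Fintype.card_fin, nsmul_eq_mul]
    rw [← hSz]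
    ring
  -- conclusion
  have c1 : (∑ i ∈ Y, ∑ j ∈ Y, ker (p i) (p j)) / N ^ 2 ≤
      (- en p Y + 2 * (N - 1) * Sp + N * E) / N ^ 2 := by gcongr
  have c2 : 2 * (- (N * T * C0) + T * M * Sp + N * Sz - N * T * M * τ) / (N * (T * M)) ≤
      2 * (∑ i ∈ Y, ∑ k, ∑ l, ker (p i) (z k l)) / (N * (T * M)) := by gcongr
  have c3 : (∑ k, ∑ l, ∑ k', ∑ l', ker (z k l) (z k' l')) / (T * M) ^ 2 ≤
      (2 * (T - 1) * M * Sz + T * M ^ 2 * E) / (T * M) ^ 2 := by gcongr
  have c4 : (- en p Y + 2 * (N - 1) * Sp + N * E) / N ^ 2 =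
      - en p Y / N ^ 2 + 2 * Sp / N - 2 * Sp / N ^ 2 + E / N := by
    field_simp
    ring
  have c5 : 2 * (- (N * T * C0) + T * M * Sp + N * Sz - N * T * M * τ) / (N * (T * M)) =
      - (2 * C0 / M) + 2 * Sp / N + 2 * Sz / (T * M) - 2 * τ := by
    field_simp
  have c6 : (2 * (T - 1) * M * Sz + T * M ^ 2 * E) / (T * M) ^ 2 =
      2 * Sz / (T * M) - 2 * Sz / (T ^ 2 * M) + E / T := by
    field_simp
  have c7 : - (2 * Sp / N ^ 2) ≤ 2 * R / N := by
    rw [neg_le_iff_add_nonneg, div_add_div _ _ (by positivity) (by positivity)]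
    apply div_nonneg _ (by positivity)
    nlinarith
  have c8 : - (2 * Sz / (T ^ 2 * M)) ≤ 2 * R / T := by
    rw [neg_le_iff_add_nonneg, div_add_div _ _ (by positivity) (by positivity)]
    apply div_nonneg _ (by positivity)
    nlinarith
  have c9 : (E + 2 * R) / N = E / N + 2 * R / N := add_div _ _ _
  have c10 : (E + 2 * R) / T = E / T + 2 * R / T := add_div _ _ _
  rw [c4] at c1
  rw [c5] at c2
  rw [c6] at c3
  rw [c9, c10]
  linarith

end master

end Pool.Agent.UBC90787a
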