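import Pool.Agent.Lib.MP_90787a_nt.RF.UMap

set_option autoImplicit false
set_option linter.unusedSectionVars false

/-!
The size of an iterate controls the size of the map.
-/

namespace Pool.Agent.UBC90787a

open Finset

section pairs

variable {L : Type} [NormedField L] (G : Geo L) {Φ : L × L → L × L} {d : ℕ}

/-- The mutual energy of two families of preimages. -/
lemma sum_pairs_eq (_h : UMap Φ d) {u u' : L × L} (huu : wd u u' ≠ 0)
    {z z' : Fin d → L × L} (hz : ∀ i, Φ (z i) = u)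
    (hz' : ∀ x, ‖wd (Φ x) u'‖ = ∏ i, ‖wd x (z' i)‖) :
    (∀ i j, wd (z i) (z' j) ≠ 0) ∧
    ∑ i, ∑ j, Real.log ‖wd (z i) (z' j)‖ = d * Real.log ‖wd u u'‖ := by
  have h1 : ∀ i, ∏ j, ‖wd (z i) (z' j)‖ = ‖wd u u'‖ := fun i => by rw [← hz', hz]
  have h2 : ∀ i j, wd (z i) (z' j) ≠ 0 := by
    intro i j h0
    have h3 := h1 i
    rw [Finset.prod_eq_zero (Finset.mem_univ j) (by rw [h0, norm_zero])] at h3
    exact huu (norm_eq_zero.mp h3.symm)
  refine ⟨h2, ?_⟩
  have h3 : ∀ i, ∑ j, Real.log ‖wd (z i) (z' j)‖ = Real.log ‖wd u u'‖ := by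
    intro i
    rw [← h1 i, Real.log_prod (fun j _ => (norm_pos_iff.mpr (h2 i j)).ne')]
  rw [Finset.sum_congr rfl (fun i _ => h3 i), Finset.sum_const, Finset.card_univ,
    Fintype.card_fin, nsmul_eq_mul]

include G in
lemma sum_pairs_le (h : UMap Φ d) (hd : 1 ≤ d) {u u' : L × L} (huu : wd u u' ≠ 0)
    {z z' : Fin d → L × L} (hz : ∀ i, Φ (z i) = u)
    (hz' : ∀ x, ‖wd (Φ x) u'‖ = ∏ i, ‖wd x (z' i)‖) :
    Real.log ‖wd u u'‖ ≤ d * G.k + ∑ i, Real.log ‖z i‖ + ∑ j, Real.log ‖z' j‖ := by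
  obtain ⟨h1, h2⟩ := sum_pairs_eq h huu hz hz'
  have h3 : ∑ i, ∑ j, Real.log ‖wd (z i) (z' j)‖ ≤
      ∑ i, ∑ j, (G.k + Real.log ‖z i‖ + Real.log ‖z' j‖) :=
    Finset.sum_le_sum (fun i _ => Finset.sum_le_sum (fun j _ => G.log_wd_le (h1 i j)))
  have h4 : ∑ i : Fin d, ∑ j : Fin d, (G.k + Real.log ‖z i‖ + Real.log ‖z' j‖) =
      d * (d * G.k + ∑ i, Real.log ‖z i‖ + ∑ j, Real.log ‖z' j‖) := by
    simp only [Finset.sum_add_distrib, Finset.sum_const, Finset.card_univ, Fintype.card_fin,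
      nsmul_eq_mul, ← Finset.mul_sum]
    ring
  rw [h2, h4] at h3
  have hd0 : (0 : ℝ) < d := by exact_mod_cast hd
  exact le_of_mul_le_mul_left h3 hd0

end pairs

section rigidity

variable {L : Type} [NormedField L] (G : Geo L) {Φ : L × L → L × L} {d : ℕ}

include G in
/-- Lower bound for the size. -/
lemma bd_ge (h : UMap Φ d) (hd : 1 ≤ d) {R : ℝ} (hB : Bd Φ d R) : -(d + 1) * G.k ≤ R := by
  have hk := G.k_nonneg
  set e1 : L × L := (1, 0) with he1
  set e2 : L × L := (0, 1) with he2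
  have hw : wd e1 e2 = 1 := by simp [wd, he1, he2]
  have h1 : wd e1 e2 ≠ 0 := by rw [hw]; exact one_ne_zero
  have hn1 : ‖e1‖ = 1 := by simp [he1, Prod.norm_def]
  have hn2 : ‖e2‖ = 1 := by simp [he2, Prod.norm_def]
  have h10 : e1 ≠ 0 := left_ne_zero h1
  have h20 : e2 ≠ 0 := right_ne_zero h1
  obtain ⟨z, hz1, hz2⟩ := h.pre e1 h10
  obtain ⟨z', hz1', hz2'⟩ := h.pre e2 h20
  have h2 := sum_pairs_le G h hd h1 hz1 hz2'
  have h3 := sum_log_le G hB h10 (fun i => h.pre_ne_zero hd h10 (hz1 i)) hz2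
  have h4 := sum_log_le G hB h20 (fun i => h.pre_ne_zero hd h20 (hz1' i)) hz2'
  rw [hw, norm_one, Real.log_one] at h2
  rw [hn1, Real.log_one] at h3
  rw [hn2, Real.log_one] at h4
  nlinarith

/-- Two unit vectors whose preimages are not too small. -/
lemma exists_two (h : UMap Φ d) (hd : 1 ≤ d) : ∃ u u' : L × L, ‖u‖ = 1 ∧ ‖u'‖ = 1 ∧
    ‖wd u u'‖ = 1 ∧ ∃ z z' : Fin d → L × L, (∀ i, Φ (z i) = u) ∧ (∀ i, Φ (z' i) = u') ∧
      (∀ x, ‖wd (Φ x) u‖ = ∏ i, ‖wd x (z i)‖) ∧ (∀ x, ‖wd (Φ x) u'‖ = ∏ i, ‖wd x (z' i)‖) ∧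
      -(d * G.k) ≤ ∑ i, Real.log ‖z i‖ ∧ -(d * G.k) ≤ ∑ i, Real.log ‖z' i‖ := by
  have hk := G.k_nonneg
  set e1 : L × L := (1, 0) with he1
  set e2 : L × L := (0, 1) with he2
  set e3 : L × L := (1, 1) with he3
  have w12 : ‖wd e1 e2‖ = 1 := by simp [wd, he1, he2]
  have w13 : ‖wd e1 e3‖ = 1 := by simp [wd, he1, he3]
  have w23 : ‖wd e2 e3‖ = 1 := by simp [wd, he2, he3]
  have hn1 : ‖e1‖ = 1 := by simp [he1, Prod.norm_def]
  have hn2 : ‖e2‖ = 1 := by simp [he2, Prod.norm_def]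
  have hn3 : ‖e3‖ = 1 := by simp [he3, Prod.norm_def]
  have ne : ∀ {p q : L × L}, ‖wd p q‖ = 1 → wd p q ≠ 0 := by
    intro p q hpq h0
    rw [h0, norm_zero] at hpq
    exact zero_ne_one hpq
  obtain ⟨z1, a1, b1⟩ := h.pre e1 (left_ne_zero (ne w12))
  obtain ⟨z2, a2, b2⟩ := h.pre e2 (left_ne_zero (ne w23))
  obtain ⟨z3, a3, b3⟩ := h.pre e3 (right_ne_zero (ne w23))
  have s12 := sum_pairs_le G h hd (ne w12) a1 b2
  have s13 := sum_pairs_le G h hd (ne w13) a1 b3
  have s23 := sum_pairs_le G h hd (ne w23) a2 b3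
  rw [w12, Real.log_one] at s12
  rw [w13, Real.log_one] at s13
  rw [w23, Real.log_one] at s23
  have hdk : 0 ≤ (d : ℝ) * G.k := by positivity
  by_cases c1 : -(d * G.k) ≤ ∑ i, Real.log ‖z1 i‖
  · by_cases c2 : -(d * G.k) ≤ ∑ i, Real.log ‖z2 i‖
    · exact ⟨e1, e2, hn1, hn2, w12, z1, z2, a1, a2, b1, b2, c1, c2⟩
    · push Not at c2
      exact ⟨e1, e3, hn1, hn3, w13, z1, z3, a1, a3, b1, b3, c1, by linarith⟩
  · push Not at c1
    exact ⟨e2, e3, hn2, hn3, w23, z2, z3, a2, a3, b2, b3, by linarith, by linarith⟩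

include G in
/-- Nearness to a common direction. -/
lemma dl_le_of_common {s p q : L × L} (hs : s ≠ 0) (hp : p ≠ 0) (hq : q ≠ 0) {ρ : ℝ}
    (h1 : dl s p ≤ ρ) (h2 : dl s q ≤ ρ) : dl p q ≤ Real.exp G.k * ρ := by
  have hsp := norm_pos_iff.mpr hs
  have hpp := norm_pos_iff.mpr hp
  have hqp := norm_pos_iff.mpr hq
  have h3 : ‖wd p q‖ * ‖s‖ ≤ Real.exp G.k * (ρ * ‖s‖ * ‖p‖ * ‖q‖) := by
    rw [← norm_smul, plucker p q s]
    refine (G.sub_le' _ _).trans ?_
    have h4 : max ‖wd s q • p‖ ‖wd s p • q‖ ≤ ρ * ‖s‖ * ‖p‖ * ‖q‖ := by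
      unfold dl at h1 h2
      rw [div_le_iff₀ (by positivity)] at h1 h2
      apply max_le
      · rw [norm_smul]
        calc ‖wd s q‖ * ‖p‖ ≤ (ρ * (‖s‖ * ‖q‖)) * ‖p‖ := by gcongr
          _ = ρ * ‖s‖ * ‖p‖ * ‖q‖ := by ring
      · rw [norm_smul]
        calc ‖wd s p‖ * ‖q‖ ≤ (ρ * (‖s‖ * ‖p‖)) * ‖q‖ := by gcongr
          _ = ρ * ‖s‖ * ‖p‖ * ‖q‖ := by ring
    gcongr
  unfold dl
  rw [div_le_iff₀ (by positivity)]
  refine le_of_mul_le_mul_right ?_ hsp
  calc ‖wd p q‖ * ‖s‖ ≤ Real.exp G.k * (ρ * ‖s‖ * ‖p‖ * ‖q‖) := h3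
    _ = Real.exp G.k * ρ * (‖p‖ * ‖q‖) * ‖s‖ := by ring

open Classical in
include G in
theorem rigidity (h : UMap Φ d) (hd : 2 ≤ d) {n : ℕ} (hn : 2 ≤ n) {a R0 : ℝ}
    (hR0 : Bd Φ d R0) (hA : Bd (Φ^[n]) (d ^ n) ((d : ℝ) ^ n * a)) :
    -(2 * G.k) ≤ a ∧ Bd Φ d (400 * d * (a + 4 * G.k)) := by
  have hk := G.k_nonneg
  have hd1 : 1 ≤ d := by omega
  have hdR : (2 : ℝ) ≤ d := by exact_mod_cast hd
  have hin : UMap (Φ^[n]) (d ^ n) := h.iter hd1 n
  have hM1 : 1 ≤ d ^ n := Nat.one_le_pow _ _ (by omega)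
  set M : ℝ := (d : ℝ) ^ n with hM
  have hMc : ((d ^ n : ℕ) : ℝ) = M := by rw [hM]; push_cast; rfl
  have hM4 : (4 : ℝ) ≤ M := by
    calc (4 : ℝ) = 2 ^ 2 := by norm_num
      _ ≤ (d : ℝ) ^ 2 := by gcongr
      _ ≤ M := pow_le_pow_right₀ (by linarith) hn
  have hM0 : 0 < M := by linarith
  obtain ⟨u, u', hu, hu', huu, y, y', a1, a1', b1, b1', c1, c1'⟩ := exists_two G hin hM1
  rw [hMc] at c1 c1'
  have huu0 : wd u u' ≠ 0 := by
    rw [← norm_pos_iff, huu]; exact one_pos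
  have hu0 : u ≠ 0 := left_ne_zero huu0
  have hu0' : u' ≠ 0 := right_ne_zero huu0
  have hy0 : ∀ i, y i ≠ 0 := fun i => hin.pre_ne_zero hM1 hu0 (a1 i)
  have hy0' : ∀ i, y' i ≠ 0 := fun i => hin.pre_ne_zero hM1 hu0' (a1' i)
  have hS := sum_log_le G hA hu0 hy0 b1
  have hS' := sum_log_le G hA hu0' hy0' b1'
  rw [hu, Real.log_one, add_zero] at hS
  rw [hu', Real.log_one, add_zero] at hS'
  have ha : -(2 * G.k) ≤ a := by
    have h1 : -(M * G.k) ≤ M * a + G.k := by linarith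
    by_contra hlt
    push Not at hlt
    nlinarith
  refine ⟨ha, ?_⟩
  -- the sharp bound
  set B : Set ℝ := {R : ℝ | Bd Φ d R} with hBdef
  have hBne : B.Nonempty := ⟨R0, hR0⟩
  have hBbdd : BddBelow B := ⟨-(d + 1) * G.k, fun R hR => bd_ge G h hd1 hR⟩
  set Rs : ℝ := sInf B with hRs
  have hRsB : Bd Φ d Rs := by
    intro x
    have h1 : ∀ η : ℝ, 0 < η → ‖Φ x‖ ≤ Real.exp (Rs + η) * ‖x‖ ^ d := by
      intro η hη
      obtain ⟨R, hR, hRlt⟩ := exists_lt_of_csInf_lt hBne (show sInf B < Rs + η by linarith)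
      exact (hR.mono hRlt.le) x
    have h2 : Filter.Tendsto (fun η : ℝ => Real.exp (Rs + η) * ‖x‖ ^ d) (nhdsWithin 0 (Set.Ioi 0))
        (nhds (Real.exp (Rs + 0) * ‖x‖ ^ d)) := by
      apply Filter.Tendsto.mono_left _ nhdsWithin_le_nhds
      have hcont : Continuous (fun η : ℝ => Real.exp (Rs + η) * ‖x‖ ^ d) := by fun_prop
      exact hcont.tendsto 0
    rw [add_zero] at h2
    refine ge_of_tendsto h2 ?_
    filter_upwards [self_mem_nhdsWithin] with η hη
    exact h1 η hη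
  suffices hmain : ∀ η : ℝ, 0 < η → Rs ≤ 400 * d * (a + 4 * G.k) + 4 * η by
    apply hRsB.mono
    apply le_of_forall_pos_le_add
    intro ε hε
    have := hmain (ε / 4) (by positivity)
    linarith
  intro η hη
  rcases le_or_gt Rs 0 with hRs0 | hRs0
  · have : 0 ≤ a + 4 * G.k := by linarith
    have : 0 ≤ 400 * d * (a + 4 * G.k) := by positivity
    linarith
  -- a vector with a large value
  obtain ⟨x0, hx0⟩ : ∃ x0, Real.exp (Rs - η) * ‖x0‖ ^ d < ‖Φ x0‖ := by
    by_contra hcon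
    push Not at hcon
    have h1 : Rs - η ∈ B := fun x => hcon x
    have h2 := csInf_le hBbdd h1
    linarith
  have hΦx0 : Φ x0 ≠ 0 := by
    rw [← norm_pos_iff]
    exact lt_of_le_of_lt (by positivity) hx0
  have hx0ne : x0 ≠ 0 := by
    rintro rfl
    exact hΦx0 (h.map_zero hd1)
  set s : L × L := Φ x0 with hs
  have hslog : Rs - η + d * Real.log ‖x0‖ ≤ Real.log ‖s‖ := by
    have h1 := Real.log_le_log (by
      have := norm_pos_iff.mpr hx0ne
      positivity) hx0.le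
    rwa [Real.log_mul (Real.exp_pos _).ne' (pow_pos (norm_pos_iff.mpr hx0ne) _).ne', Real.log_exp,
      Real.log_pow] at h1
  -- one-step preimages
  have hpre : ∀ w : L × L, w ≠ 0 → ∃ z : Fin d → L × L, (∀ j, z j ≠ 0) ∧
      (∀ x, ‖wd (Φ x) w‖ = ∏ j, ‖wd x (z j)‖) ∧
      Real.log ‖w‖ - (d + 1) * G.k - Rs ≤ ∑ j, Real.log ‖z j‖ ∧
      (Real.exp (-(Rs / 4)) < dl s w →
        3 / 4 * Rs - η - d * G.k + Real.log ‖w‖ ≤ ∑ j, Real.log ‖z j‖) := by
    intro w hw
    obtain ⟨z, hz1, hz2⟩ := h.pre w hw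
    have hz0 : ∀ j, z j ≠ 0 := fun j => h.pre_ne_zero hd1 hw (hz1 j)
    refine ⟨z, hz0, hz2, ?_, ?_⟩
    · obtain ⟨c, hc0, hc1⟩ := exists_scalar (x := w) hw
      have hwn : 0 < ‖w‖ := norm_pos_iff.mpr hw
      have hcw : ‖c • w‖ = 1 := by rw [norm_smul, hc1, inv_mul_cancel₀ hwn.ne']
      obtain ⟨β, hβ1, hβ2⟩ := exists_partner hcw
      have hβ0 : β ≠ 0 := by rw [← norm_pos_iff, hβ1]; exact one_pos
      have hβw : ‖wd w β‖ = ‖w‖ := by
        rw [wd_smul_right] at hβ2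
        have h1 : ‖c‖ * ‖wd β w‖ = 1 := by rw [← norm_mul, hβ2, norm_one]
        rw [wd_comm, norm_neg]
        rw [hc1] at h1
        field_simp at h1
        linarith
      have hwβ0 : wd w β ≠ 0 := by rw [← norm_pos_iff, hβw]; exact hwn
      obtain ⟨z', hz1', hz2'⟩ := h.pre β hβ0
      have h2 := sum_pairs_le G h hd1 hwβ0 hz1 hz2'
      have h3 := sum_log_le G hRsB hβ0 (fun i => h.pre_ne_zero hd1 hβ0 (hz1' i)) hz2'
      rw [hβ1, Real.log_one] at h3
      rw [hβw] at h2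
      linarith
    · intro hdl
      have hdl0 : 0 < dl s w := lt_trans (Real.exp_pos _) hdl
      have hwd0 : wd s w ≠ 0 := by
        intro h0
        unfold dl at hdl0
        rw [h0, norm_zero, zero_div] at hdl0
        exact lt_irrefl _ hdl0
      have h1 : Real.log ‖wd s w‖ = ∑ j, Real.log ‖wd x0 (z j)‖ := by
        rw [hs, hz2, Real.log_prod]
        intro j _
        have : wd x0 (z j) ≠ 0 := by
          intro h0
          have h2 := hz2 x0
          rw [Finset.prod_eq_zero (Finset.mem_univ j) (by rw [h0, norm_zero])] at h2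
          exact hwd0 (norm_eq_zero.mp h2)
        exact (norm_pos_iff.mpr this).ne'
      have h2 : ∑ j, Real.log ‖wd x0 (z j)‖ ≤ ∑ j, (G.k + Real.log ‖x0‖ + Real.log ‖z j‖) := by
        apply Finset.sum_le_sum
        intro j _
        apply G.log_wd_le
        intro h0
        have h2 := hz2 x0
        rw [Finset.prod_eq_zero (Finset.mem_univ j) (by rw [h0, norm_zero])] at h2
        exact hwd0 (norm_eq_zero.mp h2)
      have h3 : ∑ j : Fin d, (G.k + Real.log ‖x0‖ + Real.log ‖z j‖) =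
          d * G.k + d * Real.log ‖x0‖ + ∑ j, Real.log ‖z j‖ := by
        simp only [Finset.sum_add_distrib, Finset.sum_const, Finset.card_univ, Fintype.card_fin,
          nsmul_eq_mul]
      have h4 : Real.log ‖wd s w‖ = Real.log (dl s w) + Real.log ‖s‖ + Real.log ‖w‖ := by
        unfold dl
        have hsn := norm_pos_iff.mpr (left_ne_zero hwd0)
        have hwn := norm_pos_iff.mpr (right_ne_zero hwd0)
        rw [Real.log_div (norm_pos_iff.mpr hwd0).ne' (by positivity),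
          Real.log_mul hsn.ne' hwn.ne']
        ring
      have h5 : -(Rs / 4) < Real.log (dl s w) := by
        rw [← Real.log_exp (-(Rs / 4))]
        exact Real.log_lt_log (Real.exp_pos _) hdl
      linarith
  -- the bound for the next iterate
  have hA1 : Bd (Φ^[n] ∘ Φ) (d ^ n * d) (Rs + d * (M * a)) := by
    intro x
    rw [Function.comp_apply, ← Function.iterate_succ_apply, Function.iterate_succ_apply']
    refine (hRsB _).trans ?_
    have h1 := hA x
    calc Real.exp Rs * ‖Φ^[n] x‖ ^ d ≤ Real.exp Rs * (Real.exp (M * a) * ‖x‖ ^ (d ^ n)) ^ d := by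
          gcongr
      _ = Real.exp (Rs + d * (M * a)) * ‖x‖ ^ (d ^ n * d) := by
          rw [mul_pow, ← Real.exp_nat_mul, ← mul_assoc, ← Real.exp_add, ← pow_mul]
  -- the count of preimages close to `s`
  have hcount : ∀ (v : L × L), ‖v‖ = 1 → ∀ y : Fin (d ^ n) → L × L, (∀ i, y i ≠ 0) →
      (∀ x, ‖wd (Φ^[n] x) v‖ = ∏ i, ‖wd x (y i)‖) → -(M * G.k) ≤ ∑ i, Real.log ‖y i‖ →
      (7 * ((univ.filter (fun i => dl s (y i) ≤ Real.exp (-(Rs / 4)))).card : ℝ) ≤ M →
        Rs ≤ 400 * d * (a + 4 * G.k) + 4 * η) := by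
    intro v hv y hy0 hy2 hSy hle
    have hv0 : v ≠ 0 := by rw [← norm_pos_iff, hv]; exact one_pos
    choose z hz0 hz2 hz3 hz4 using fun i => hpre (y i) (hy0 i)
    have h1 : ∑ i, ∑ j, Real.log ‖z i j‖ ≤ (Rs + d * (M * a)) + G.k := by
      have h2 := sum_log_le G hA1 (u := v) hv0
        (z := fun j => z (finProdFinEquiv.symm j).1 (finProdFinEquiv.symm j).2)
        (fun j => hz0 _ _) (by
          intro x
          rw [Function.comp_apply, hy2]
          simp only [hz2]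
          have e1 := Fintype.prod_prod_type' (fun i j => ‖wd x (z i j)‖)
          have e2 := Fintype.prod_equiv finProdFinEquiv.symm
            (fun j => ‖wd x (z (finProdFinEquiv.symm j).1 (finProdFinEquiv.symm j).2)‖)
            (fun p : Fin (d ^ n) × Fin d => ‖wd x (z p.1 p.2)‖) (fun j => rfl)
          rw [← e1, ← e2])
      rw [hv, Real.log_one, add_zero] at h2
      have e1 := Fintype.sum_prod_type' (fun i j => Real.log ‖z i j‖)
      have e2 := Fintype.sum_equiv finProdFinEquiv.symm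
            (fun j => Real.log ‖z (finProdFinEquiv.symm j).1 (finProdFinEquiv.symm j).2‖)
            (fun p : Fin (d ^ n) × Fin d => Real.log ‖z p.1 p.2‖) (fun j => rfl)
      rw [← e1, ← e2]
      exact h2
    set mc : ℝ := ((univ.filter (fun i => dl s (y i) ≤ Real.exp (-(Rs / 4)))).card : ℝ) with hmc
    have hmc0 : 0 ≤ mc := Nat.cast_nonneg _
    have h3 : ∀ i, Real.log ‖y i‖ + (if dl s (y i) ≤ Real.exp (-(Rs / 4)) then
        -((d + 1) * G.k) - Rs else 3 / 4 * Rs - η - d * G.k) ≤ ∑ j, Real.log ‖z i j‖ := by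
      intro i
      split_ifs with hc
      · have := hz3 i
        linarith
      · push Not at hc
        have := hz4 i hc
        linarith
    have h4 := Finset.sum_le_sum (fun i (_ : i ∈ univ) => h3 i)
    rw [Finset.sum_add_distrib, Finset.sum_ite, Finset.sum_const, Finset.sum_const, nsmul_eq_mul,
      nsmul_eq_mul] at h4
    have h5 : ((univ.filter (fun i => ¬ dl s (y i) ≤ Real.exp (-(Rs / 4)))).card : ℝ) =
        M - mc := by
      have h6 := Finset.card_filter_add_card_filter_not (s := (univ : Finset (Fin (d ^ n))))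
        (fun i => dl s (y i) ≤ Real.exp (-(Rs / 4)))
      rw [Finset.card_univ, Fintype.card_fin] at h6
      have h7 : mc + ((univ.filter (fun i => ¬ dl s (y i) ≤ Real.exp (-(Rs / 4)))).card : ℝ) =
          M := by
        rw [hmc, ← hMc]
        exact_mod_cast h6
      linarith
    rw [h5] at h4
    -- combine
    have h6 : -(M * G.k) + (mc * (-((d + 1) * G.k) - Rs) +
        (M - mc) * (3 / 4 * Rs - η - d * G.k)) ≤ Rs + d * (M * a) + G.k := by linarith
    have h7 : mc * (-((d + 1) * G.k) - Rs) + (M - mc) * (3 / 4 * Rs - η - d * G.k) =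
        (3 / 4 * M - 7 / 4 * mc) * Rs - (M - mc) * η - M * (d * G.k) - mc * G.k := by ring
    rw [h7] at h6
    have h8 : M / 2 * Rs ≤ (3 / 4 * M - 7 / 4 * mc) * Rs := by
      have : M / 2 ≤ 3 / 4 * M - 7 / 4 * mc := by linarith
      gcongr
    have h9 : (M - mc) * η ≤ M * η := by nlinarith
    have h10 : mc * G.k ≤ M * G.k := by
      have : mc ≤ M := by linarith
      gcongr
    have h11 : M / 4 * Rs ≤ (M / 2 - 1) * Rs := by
      have : M / 4 ≤ M / 2 - 1 := by linarith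
      gcongr
    have h12 : G.k ≤ M * G.k := by nlinarith
    have h13 : M * Rs ≤ M * (4 * (d * a) + 4 * η + 4 * ((d + 3) * G.k)) := by linarith
    have h14 := le_of_mul_le_mul_left h13 hM0
    have h15 : 4 * (d * a) + 4 * ((d + 3) * G.k) ≤ 400 * d * (a + 4 * G.k) := by
      have e1 : 0 ≤ d * (a + 2 * G.k) := by
        have : 0 ≤ a + 2 * G.k := by linarith
        positivity
      have e2 : 0 ≤ (d : ℝ) * G.k := by positivity
      have e3 : 12 * G.k ≤ 6 * (d * G.k) := by nlinarith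
      nlinarith
    linarith
  by_cases hc1 : 7 * ((univ.filter (fun i => dl s (y i) ≤ Real.exp (-(Rs / 4)))).card : ℝ) ≤ M
  · exact hcount u hu y hy0 b1 c1 hc1
  by_cases hc2 : 7 * ((univ.filter (fun i => dl s (y' i) ≤ Real.exp (-(Rs / 4)))).card : ℝ) ≤ M
  · exact hcount u' hu' y' hy0' b1' c1' hc2
  push Not at hc1 hc2
  -- both families have many members close to `s`
  obtain ⟨hne, hsum⟩ := sum_pairs_eq hin huu0 a1 b1'
  rw [huu, Real.log_one, mul_zero] at hsum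
  set F1 : Finset (Fin (d ^ n)) := univ.filter (fun i => dl s (y i) ≤ Real.exp (-(Rs / 4))) with hF1
  set F2 : Finset (Fin (d ^ n)) := univ.filter (fun i => dl s (y' i) ≤ Real.exp (-(Rs / 4)))
    with hF2
  have hs0 : s ≠ 0 := hΦx0
  have hpt : ∀ i j, Real.log ‖wd (y i) (y' j)‖ ≤ Real.log ‖y i‖ + Real.log ‖y' j‖ +
      (G.k - (if i ∈ F1 then (1 : ℝ) else 0) * (if j ∈ F2 then (1 : ℝ) else 0) * (Rs / 4)) := by
    intro i j
    by_cases hi : i ∈ F1
    · by_cases hj : j ∈ F2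
      · rw [if_pos hi, if_pos hj]
        have h1 := dl_le_of_common G hs0 (hy0 i) (hy0' j) (Finset.mem_filter.mp hi).2
          (Finset.mem_filter.mp hj).2
        have hyn := norm_pos_iff.mpr (hy0 i)
        have hyn' := norm_pos_iff.mpr (hy0' j)
        have hwn := norm_pos_iff.mpr (hne i j)
        unfold dl at h1
        have h2 := Real.log_le_log (by positivity) h1
        rw [Real.log_div hwn.ne' (by positivity), Real.log_mul hyn.ne' hyn'.ne',
          Real.log_mul (Real.exp_pos _).ne' (Real.exp_pos _).ne', Real.log_exp, Real.log_exp] at h2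
        linarith
      · rw [if_neg hj]
        have := G.log_wd_le (hne i j)
        linarith
    · rw [if_neg hi]
      have := G.log_wd_le (hne i j)
      linarith
  have h1 := Finset.sum_le_sum (fun i (_ : i ∈ univ) =>
    Finset.sum_le_sum (fun j (_ : j ∈ univ) => hpt i j))
  rw [hsum] at h1
  have h2 : ∑ i : Fin (d ^ n), ∑ j : Fin (d ^ n), (Real.log ‖y i‖ + Real.log ‖y' j‖ +
      (G.k - (if i ∈ F1 then (1 : ℝ) else 0) * (if j ∈ F2 then (1 : ℝ) else 0) * (Rs / 4))) =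
      M * ∑ i, Real.log ‖y i‖ + M * ∑ j, Real.log ‖y' j‖ + M * (M * G.k) -
        (F1.card : ℝ) * F2.card * (Rs / 4) := by
    have e1 : ∑ i : Fin (d ^ n), (if i ∈ F1 then (1 : ℝ) else 0) = F1.card := by
      rw [Finset.sum_boole]
      congr 2
      ext i
      simp
    have e2 : ∑ i : Fin (d ^ n), (if i ∈ F2 then (1 : ℝ) else 0) = F2.card := by
      rw [Finset.sum_boole]
      congr 2
      ext i
      simp
    simp only [Finset.sum_add_distrib, Finset.sum_sub_distrib, Finset.sum_const, Finset.card_univ,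
      Fintype.card_fin, nsmul_eq_mul, hMc, ← Finset.mul_sum, ← Finset.sum_mul, e1, e2]
    ring
  rw [h2] at h1
  have h3 : M * M / 49 ≤ (F1.card : ℝ) * F2.card := by nlinarith
  have h4 : M * M / 49 * (Rs / 4) ≤ (F1.card : ℝ) * F2.card * (Rs / 4) := by gcongr
  have h5 : M * ∑ i, Real.log ‖y i‖ ≤ M * (M * a + G.k) := by gcongr
  have h6 : M * ∑ i, Real.log ‖y' i‖ ≤ M * (M * a + G.k) := by gcongr
  have h7 : M * G.k ≤ M * M * G.k / 4 := by
    have e1 : 4 * (M * G.k) ≤ M * (M * G.k) := by gcongr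
    linarith
  have h8 : M * M * Rs ≤ M * M * (392 * a + 294 * G.k) := by nlinarith
  have h9 := le_of_mul_le_mul_left h8 (by positivity)
  have h15 : 392 * a + 294 * G.k ≤ 400 * d * (a + 4 * G.k) := by
    have e1 : 0 ≤ ((d : ℝ) - 2) * (a + 4 * G.k) := by
      have : 0 ≤ a + 4 * G.k := by linarith
      have : 0 ≤ (d : ℝ) - 2 := by linarith
      positivity
    nlinarith
  linarith

end rigidity

end Pool.Agent.UBC90787a
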