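import Pool.Agent.Lib.MP_90787a_nt.RF.Baseline

set_option autoImplicit false
set_option linter.unusedSectionVars false

/-!
Changes of coordinates and the lower bound for the size of most preimages.
-/

namespace Pool.Agent.UBC90787a

open Finset

section shear

variable {L : Type} [NormedField L]

/-- The linear map with matrix `[β, α]` times `diag(e, e⁻¹)`. -/
noncomputable def shear (α β : L × L) (hαβ : wd β α = 1) (e : L) (he : e ≠ 0) :
    (L × L) ≃ₗ[L] (L × L) where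
  toFun x := (e * x.1) • β + (e⁻¹ * x.2) • α
  map_add' x y := by
    ext
    · simp only [Prod.fst_add, Prod.snd_add, Prod.smul_fst, smul_eq_mul]; ring
    · simp only [Prod.fst_add, Prod.snd_add, Prod.smul_snd, smul_eq_mul]; ring
  map_smul' t x := by
    ext
    · simp only [Prod.fst_add, Prod.smul_fst, Prod.smul_snd, smul_eq_mul, RingHom.id_apply]
      ring
    · simp only [Prod.snd_add, Prod.smul_fst, Prod.smul_snd, smul_eq_mul, RingHom.id_apply]
      ring
  invFun z := (e⁻¹ * wd z α, e * wd β z)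
  left_inv x := by
    have h1 : wd ((e * x.1) • β + (e⁻¹ * x.2) • α) α = e * x.1 := by
      have : wd ((e * x.1) • β + (e⁻¹ * x.2) • α) α = (e * x.1) * wd β α := by
        unfold wd
        simp only [Prod.fst_add, Prod.snd_add, Prod.smul_fst, Prod.smul_snd, smul_eq_mul]
        ring
      rw [this, hαβ, mul_one]
    have h2 : wd β ((e * x.1) • β + (e⁻¹ * x.2) • α) = e⁻¹ * x.2 := by
      have : wd β ((e * x.1) • β + (e⁻¹ * x.2) • α) = (e⁻¹ * x.2) * wd β α := by
        unfold wd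
        simp only [Prod.fst_add, Prod.snd_add, Prod.smul_fst, Prod.smul_snd, smul_eq_mul]
        ring
      rw [this, hαβ, mul_one]
    ext
    · simp only [h1]
      field_simp
    · simp only [h2]
      field_simp
  right_inv z := by
    have h := plucker β α z
    rw [hαβ, one_smul, wd_comm z β] at h
    have h1 : (e * (e⁻¹ * wd z α)) = wd z α := by field_simp
    have h2 : (e⁻¹ * (e * wd β z)) = wd β z := by field_simp
    simp only [h1, h2]
    rw [neg_smul, sub_neg_eq_add] at h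
    exact h.symm

lemma wd_shear (α β : L × L) (hαβ : wd β α = 1) (e : L) (he : e ≠ 0) (x y : L × L) :
    wd (shear α β hαβ e he x) (shear α β hαβ e he y) = wd x y := by
  show wd ((e * x.1) • β + (e⁻¹ * x.2) • α) ((e * y.1) • β + (e⁻¹ * y.2) • α) = wd x y
  have h : wd ((e * x.1) • β + (e⁻¹ * x.2) • α) ((e * y.1) • β + (e⁻¹ * y.2) • α) =
      (e * e⁻¹) * (x.1 * y.2 - x.2 * y.1) * wd β α := by
    unfold wd
    simp only [Prod.fst_add, Prod.snd_add, Prod.smul_fst, Prod.smul_snd, smul_eq_mul]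
    ring
  rw [h, hαβ, mul_inv_cancel₀ he]
  unfold wd
  ring

lemma shear_symm_apply (α β : L × L) (hαβ : wd β α = 1) (e : L) (he : e ≠ 0) (z : L × L) :
    (shear α β hαβ e he).symm z = (e⁻¹ * wd z α, e * wd β z) := rfl

end shear

section geo

variable {L : Type} [NormedField L] (G : Geo L) {Ψ : L × L → L × L} {m : ℕ}

lemma wd_symm_left (A : (L × L) ≃ₗ[L] (L × L)) (hA : ∀ x y, wd (A x) (A y) = wd x y)
    (p q : L × L) : wd (A.symm p) q = wd p (A q) := by
  rw [← hA, LinearEquiv.apply_symm_apply]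

lemma wd_symm_right (A : (L × L) ≃ₗ[L] (L × L)) (hA : ∀ x y, wd (A x) (A y) = wd x y)
    (p q : L × L) : wd p (A.symm q) = wd (A p) q := by
  rw [← hA, LinearEquiv.apply_symm_apply]

lemma wd_symm_symm (A : (L × L) ≃ₗ[L] (L × L)) (hA : ∀ x y, wd (A x) (A y) = wd x y)
    (p q : L × L) : wd (A.symm p) (A.symm q) = wd p q := by
  rw [wd_symm_left A hA, LinearEquiv.apply_symm_apply]

include G in
/-- The size of the map from the sizes of the preimages of two vectors. -/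
lemma bd_of_preimages (A : (L × L) ≃ₗ[L] (L × L)) (hA : ∀ x y, wd (A x) (A y) = wd x y)
    {u u' : L × L} (huu : wd u u' ≠ 0) {z z' : Fin m → L × L}
    (hz0 : ∀ l, z l ≠ 0) (hz0' : ∀ l, z' l ≠ 0)
    (hz : ∀ x, ‖wd (Ψ x) u‖ = ∏ l, ‖wd x (z l)‖)
    (hz' : ∀ x, ‖wd (Ψ x) u'‖ = ∏ l, ‖wd x (z' l)‖) {S r t : ℝ}
    (hS : ∑ l, Real.log ‖A.symm (z l)‖ ≤ S) (hS' : ∑ l, Real.log ‖A.symm (z' l)‖ ≤ S)
    (hr : ‖A.symm u‖ ≤ Real.exp r) (hr' : ‖A.symm u'‖ ≤ Real.exp r)
    (ht : Real.exp (-t) ≤ ‖wd u u'‖) :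
    Bd (fun x => A.symm (Ψ (A x))) m (m * G.k + S + G.k + r + t) := by
  intro x
  have key : ∀ (u : L × L) (z : Fin m → L × L), (∀ l, z l ≠ 0) →
      (∀ x, ‖wd (Ψ x) u‖ = ∏ l, ‖wd x (z l)‖) → ∑ l, Real.log ‖A.symm (z l)‖ ≤ S →
      ‖wd (A.symm (Ψ (A x))) (A.symm u)‖ ≤ Real.exp (m * G.k + S) * ‖x‖ ^ m := by
    intro u z hz0 hz hS
    rw [wd_symm_symm A hA, hz]
    have h1 : ∀ l ∈ (univ : Finset (Fin m)), ‖wd (A x) (z l)‖ ≤
        Real.exp G.k * ‖x‖ * Real.exp (Real.log ‖A.symm (z l)‖) := by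
      intro l _
      have h2 : A.symm (z l) ≠ 0 := by simpa using hz0 l
      rw [← wd_symm_right A hA, Real.exp_log (norm_pos_iff.mpr h2)]
      exact G.wd_le' _ _
    refine (Finset.prod_le_prod (fun l _ => norm_nonneg _) h1).trans ?_
    rw [Finset.prod_mul_distrib, Finset.prod_const, Finset.card_univ, Fintype.card_fin,
      ← Real.exp_sum, mul_pow, ← Real.exp_nat_mul, Real.exp_add]
    have h3 := Real.exp_le_exp.mpr hS
    calc Real.exp (m * G.k) * ‖x‖ ^ m * Real.exp (∑ l, Real.log ‖A.symm (z l)‖)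
        ≤ Real.exp (m * G.k) * ‖x‖ ^ m * Real.exp S := by gcongr
      _ = _ := by ring
  have h1 := key u z hz0 hz hS
  have h2 := key u' z' hz0' hz' hS'
  have h3 : wd (A.symm u) (A.symm u') ≠ 0 := by rw [wd_symm_symm A hA]; exact huu
  refine (G.norm_le_of_wd h3 h1 h2).trans ?_
  rw [wd_symm_symm A hA]
  have h4 : max ‖A.symm u‖ ‖A.symm u'‖ ≤ Real.exp r := max_le hr hr'
  have h5 : 0 < ‖wd u u'‖ := norm_pos_iff.mpr huu
  rw [div_le_iff₀ h5]
  have h6 : Real.exp (m * G.k + S + G.k + r + t) =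
      Real.exp (m * G.k + S) * Real.exp G.k * Real.exp r * Real.exp t := by
    rw [← Real.exp_add, ← Real.exp_add, ← Real.exp_add]
  have h7 : 1 ≤ Real.exp t * ‖wd u u'‖ := by
    calc (1 : ℝ) = Real.exp t * Real.exp (-t) := by rw [← Real.exp_add]; simp
      _ ≤ Real.exp t * ‖wd u u'‖ := by gcongr
  calc Real.exp G.k * (Real.exp (m * G.k + S) * ‖x‖ ^ m * max ‖A.symm u‖ ‖A.symm u'‖)
      ≤ Real.exp G.k * (Real.exp (m * G.k + S) * ‖x‖ ^ m * Real.exp r) * 1 := by
        rw [mul_one]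
        gcongr
    _ ≤ Real.exp G.k * (Real.exp (m * G.k + S) * ‖x‖ ^ m * Real.exp r) *
        (Real.exp t * ‖wd u u'‖) := by gcongr
    _ = _ := by rw [h6]; ring

/-- If most preimages of two base vectors are close to one point then the size of the map
can be decreased. -/
lemma bd_of_bad {a s : ℝ} (h : UMap Ψ m) (hm : 1 ≤ m) (hB : Bd Ψ m (m * a)) {α : L × L}
    (hα : ‖α‖ = 1) {u u' : L × L} (hu : ‖u‖ = 1) (hu' : ‖u'‖ = 1)
    (huu : Real.exp (-(4 * G.k)) ≤ ‖wd u u'‖) {z z' : Fin m → L × L}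
    (hz1 : ∀ l, Ψ (z l) = u) (hz1' : ∀ l, Ψ (z' l) = u')
    (hz : ∀ x, ‖wd (Ψ x) u‖ = ∏ l, ‖wd x (z l)‖)
    (hz' : ∀ x, ‖wd (Ψ x) u'‖ = ∏ l, ‖wd x (z' l)‖)
    {e : L} (he : ‖e‖ = Real.exp (-s)) (hs0 : 0 ≤ s) (hsa : s ≤ a / 8)
    (hbad : 3 / 4 * (m : ℝ) ≤ ((univ.filter (fun l => ‖wd (z l) α‖ / (G.nrm (z l) * G.nrm α) <
      Real.exp (-(a / 4)))).card : ℝ))
    (hbad' : 3 / 4 * (m : ℝ) ≤ ((univ.filter (fun l => ‖wd (z' l) α‖ /
      (G.nrm (z' l) * G.nrm α) < Real.exp (-(a / 4)))).card : ℝ)) :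
    ∃ A : (L × L) ≃ₗ[L] (L × L), (∀ x y, wd (A x) (A y) = wd x y) ∧
      Bd (fun x => A.symm (Ψ (A x))) m (m * (a + 3 * G.k - s / 2) + (7 * G.k + s)) := by
  classical
  have hk := G.k_nonneg
  obtain ⟨β, hβ, hβα⟩ := exists_partner hα
  have he0 : e ≠ 0 := by
    rw [← norm_pos_iff, he]; exact Real.exp_pos _
  have hu0 : u ≠ 0 := by rw [← norm_pos_iff, hu]; exact one_pos
  have hu0' : u' ≠ 0 := by rw [← norm_pos_iff, hu']; exact one_pos
  set A := shear α β hβα e he0 with hA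
  have hAwd : ∀ x y, wd (A x) (A y) = wd x y := wd_shear α β hβα e he0
  refine ⟨A, hAwd, ?_⟩
  have hwd0 : wd u u' ≠ 0 := by
    rw [← norm_pos_iff]
    exact lt_of_lt_of_le (Real.exp_pos _) huu
  -- size of the new vectors
  have hsz : ∀ w : L × L, ‖A.symm w‖ ≤ Real.exp (s + G.k) * ‖w‖ := by
    intro w
    rw [hA, shear_symm_apply, Prod.norm_def]
    apply max_le
    · show ‖e⁻¹ * wd w α‖ ≤ _
      rw [norm_mul, norm_inv, he, ← Real.exp_neg, neg_neg, Real.exp_add]
      have := G.wd_le' w α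
      rw [hα, mul_one] at this
      calc Real.exp s * ‖wd w α‖ ≤ Real.exp s * (Real.exp G.k * ‖w‖) := by gcongr
        _ = _ := by ring
    · show ‖e * wd β w‖ ≤ _
      rw [norm_mul, he, Real.exp_add]
      have := G.wd_le' β w
      rw [hβ, mul_one] at this
      have h1 : Real.exp (-s) ≤ Real.exp s := Real.exp_le_exp.mpr (by linarith)
      calc Real.exp (-s) * ‖wd β w‖ ≤ Real.exp s * (Real.exp G.k * ‖w‖) := by gcongr
        _ = _ := by ring
  have hsz2 : ∀ w : L × L, w ≠ 0 → ‖wd w α‖ / (G.nrm w * G.nrm α) < Real.exp (-(a / 4)) →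
      ‖A.symm w‖ ≤ Real.exp (2 * G.k - s) * ‖w‖ := by
    intro w hw hwα
    have hα0 : α ≠ 0 := by rw [← norm_pos_iff, hα]; exact one_pos
    have h1 := G.nrm_pos hw
    have h2 := G.nrm_pos hα0
    rw [div_lt_iff₀ (by positivity)] at hwα
    have h3 : ‖wd w α‖ ≤ Real.exp (-(a / 4)) * ((Real.exp G.k * ‖w‖) * (Real.exp G.k * 1)) := by
      refine hwα.le.trans ?_
      have h4 := G.nrm_le w
      have h5 := G.nrm_le α
      rw [hα] at h5
      gcongr
    rw [hA, shear_symm_apply, Prod.norm_def]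
    apply max_le
    · show ‖e⁻¹ * wd w α‖ ≤ _
      rw [norm_mul, norm_inv, he, ← Real.exp_neg, neg_neg]
      calc Real.exp s * ‖wd w α‖ ≤ Real.exp s * (Real.exp (-(a / 4)) *
            ((Real.exp G.k * ‖w‖) * (Real.exp G.k * 1))) := by gcongr
        _ = Real.exp (s - a / 4 + 2 * G.k) * ‖w‖ := by
            rw [show s - a / 4 + 2 * G.k = s + -(a / 4) + G.k + G.k by ring, Real.exp_add,
              Real.exp_add, Real.exp_add]
            ring
        _ ≤ Real.exp (2 * G.k - s) * ‖w‖ := by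
            have : Real.exp (s - a / 4 + 2 * G.k) ≤ Real.exp (2 * G.k - s) :=
              Real.exp_le_exp.mpr (by linarith)
            gcongr
    · show ‖e * wd β w‖ ≤ _
      rw [norm_mul, he]
      have h4 := G.wd_le' β w
      rw [hβ, mul_one] at h4
      calc Real.exp (-s) * ‖wd β w‖ ≤ Real.exp (-s) * (Real.exp G.k * ‖w‖) := by gcongr
        _ = Real.exp (G.k - s) * ‖w‖ := by
            rw [show G.k - s = -s + G.k by ring, Real.exp_add]
            ring
        _ ≤ Real.exp (2 * G.k - s) * ‖w‖ := by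
            have : Real.exp (G.k - s) ≤ Real.exp (2 * G.k - s) :=
              Real.exp_le_exp.mpr (by linarith)
            gcongr
  -- the sums
  have hsum : ∀ (u : L × L) (z : Fin m → L × L), ‖u‖ = 1 → (∀ l, Ψ (z l) = u) →
      (∀ x, ‖wd (Ψ x) u‖ = ∏ l, ‖wd x (z l)‖) →
      3 / 4 * (m : ℝ) ≤ ((univ.filter (fun l => ‖wd (z l) α‖ / (G.nrm (z l) * G.nrm α) <
        Real.exp (-(a / 4)))).card : ℝ) →
      ∑ l, Real.log ‖A.symm (z l)‖ ≤ m * (a + 2 * G.k - s / 2) + G.k := by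
    intro u z hu hz1 hz hbad
    have hu0 : u ≠ 0 := by rw [← norm_pos_iff, hu]; exact one_pos
    have hz0 : ∀ l, z l ≠ 0 := fun l => h.pre_ne_zero hm hu0 (hz1 l)
    have h1 := sum_log_le G hB hu0 hz0 hz
    rw [hu, Real.log_one, add_zero] at h1
    have h2 : ∀ l, Real.log ‖A.symm (z l)‖ ≤ Real.log ‖z l‖ + 2 * G.k + s -
        (if ‖wd (z l) α‖ / (G.nrm (z l) * G.nrm α) < Real.exp (-(a / 4)) then 2 * s else 0) := by
      intro l
      have h3 : A.symm (z l) ≠ 0 := by simpa using hz0 l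
      have h4 : 0 < ‖A.symm (z l)‖ := norm_pos_iff.mpr h3
      have h5 : 0 < ‖z l‖ := norm_pos_iff.mpr (hz0 l)
      split_ifs with hl
      · have h6 := Real.log_le_log h4 (hsz2 _ (hz0 l) hl)
        rw [Real.log_mul (Real.exp_pos _).ne' h5.ne', Real.log_exp] at h6
        linarith
      · have h6 := Real.log_le_log h4 (hsz (z l))
        rw [Real.log_mul (Real.exp_pos _).ne' h5.ne', Real.log_exp] at h6
        linarith
    have h3 := Finset.sum_le_sum (fun l (_ : l ∈ (univ : Finset (Fin m))) => h2 l)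
    simp only [Finset.sum_add_distrib, Finset.sum_sub_distrib, Finset.sum_const,
      Finset.card_univ, Fintype.card_fin, nsmul_eq_mul, ← Finset.sum_filter] at h3
    nlinarith
  have hz0 : ∀ l, z l ≠ 0 := fun l => h.pre_ne_zero hm hu0 (hz1 l)
  have hz0' : ∀ l, z' l ≠ 0 := fun l => h.pre_ne_zero hm hu0' (hz1' l)
  have hr : ‖A.symm u‖ ≤ Real.exp (s + G.k) := by
    have := hsz u
    rwa [hu, mul_one] at this
  have hr' : ‖A.symm u'‖ ≤ Real.exp (s + G.k) := by
    have := hsz u'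
    rwa [hu', mul_one] at this
  have hfin := bd_of_preimages G A hAwd hwd0 hz0 hz0' hz hz' (hsum u z hu hz1 hz hbad)
    (hsum u' z' hu' hz1' hz' hbad') hr hr' huu
  refine hfin.mono ?_
  nlinarith

end geo

end Pool.Agent.UBC90787a
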