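import Pool.Agent.Lib.MP_90787a_nt.RF.Wedge
import Pool.Agent.Lib.MP_90787a_nt.Radius

set_option autoImplicit false
set_option linter.unusedSectionVars false

/-!
Homogeneous maps of the plane whose resultant is a unit.
-/

namespace Pool.Agent.UBC90787a

open Finset

/-- A homogeneous map of degree `d` with the factorisation property of maps of unit resultant. -/
structure UMap {L : Type} [NormedField L] (Φ : L × L → L × L) (d : ℕ) : Prop where
  hom : ∀ (t : L) (x : L × L), Φ (t • x) = t ^ d • Φ x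
  pre : ∀ u : L × L, u ≠ 0 → ∃ z : Fin d → L × L, (∀ i, Φ (z i) = u) ∧
    ∀ x, ‖wd (Φ x) u‖ = ∏ i, ‖wd x (z i)‖

/-- Upper bound for a homogeneous map. -/
def Bd {L : Type} [NormedField L] (Φ : L × L → L × L) (d : ℕ) (R : ℝ) : Prop :=
  ∀ x, ‖Φ x‖ ≤ Real.exp R * ‖x‖ ^ d

section basic

variable {L : Type} [NormedField L] {Φ Ψ : L × L → L × L} {d e : ℕ}

lemma UMap.map_zero (h : UMap Φ d) (hd : 1 ≤ d) : Φ 0 = 0 := by
  have := h.hom 0 0
  rw [zero_smul, zero_pow (by omega), zero_smul] at this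
  exact this

lemma UMap.pre_ne_zero (h : UMap Φ d) (hd : 1 ≤ d) {u z : L × L} (hu : u ≠ 0)
    (hz : Φ z = u) : z ≠ 0 := by
  rintro rfl
  rw [h.map_zero hd] at hz
  exact hu hz.symm

lemma UMap.ne_zero (h : UMap Φ d) (_hd : 1 ≤ d) {x : L × L} (hx : x ≠ 0) : Φ x ≠ 0 := by
  intro h0
  have he : ((1, 0) : L × L) ≠ 0 := by
    intro h1
    have := congrArg Prod.fst h1
    simp at this
  obtain ⟨z, hz1, hz2⟩ := h.pre (1, 0) he
  have h1 := hz2 x
  rw [h0, wd_zero_left, norm_zero] at h1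
  obtain ⟨i, _, hi⟩ := Finset.prod_eq_zero_iff.mp h1.symm
  obtain ⟨c, hc⟩ := exists_smul_of_wd_eq_zero hx (norm_eq_zero.mp hi)
  have h2 := hz1 i
  rw [hc, h.hom, h0, smul_zero] at h2
  exact he h2.symm

lemma UMap.comp (h : UMap Φ d) (h' : UMap Ψ e) (hd : 1 ≤ d) :
    UMap (Φ ∘ Ψ) (d * e) := by
  refine ⟨?_, ?_⟩
  · intro t x
    rw [Function.comp_apply, h'.hom, h.hom, Function.comp_apply, ← pow_mul, mul_comm e d]
  · intro u hu
    obtain ⟨z, hz1, hz2⟩ := h.pre u hu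
    have hz0 : ∀ i, z i ≠ 0 := fun i => h.pre_ne_zero hd hu (hz1 i)
    choose y hy1 hy2 using fun i => h'.pre (z i) (hz0 i)
    refine ⟨fun j => y (finProdFinEquiv.symm j).1 (finProdFinEquiv.symm j).2, ?_, ?_⟩
    · intro j
      rw [Function.comp_apply, hy1, hz1]
    · intro x
      rw [Function.comp_apply, hz2]
      have e1 : ∀ i, ‖wd (Ψ x) (z i)‖ = ∏ j, ‖wd x (y i j)‖ := fun i => hy2 i x
      simp only [e1]
      rw [← Fintype.prod_prod_type']
      exact (Fintype.prod_equiv finProdFinEquiv.symm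
        (fun j => ‖wd x (y (finProdFinEquiv.symm j).1 (finProdFinEquiv.symm j).2)‖)
        (fun p : Fin d × Fin e => ‖wd x (y p.1 p.2)‖) (fun j => rfl)).symm

lemma UMap.id : UMap (id : L × L → L × L) 1 := by
  refine ⟨fun t x => by simp, fun u _ => ⟨fun _ => u, fun _ => rfl, fun x => by simp⟩⟩

lemma UMap.iter (h : UMap Φ d) (hd : 1 ≤ d) (n : ℕ) : UMap (Φ^[n]) (d ^ n) := by
  induction n with
  | zero => simpa using UMap.id
  | succ n ih =>
    rw [Function.iterate_succ, pow_succ]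
    exact ih.comp h (Nat.one_le_pow _ _ (by omega))

lemma UMap.conj (h : UMap Φ d) (A : (L × L) ≃ₗ[L] (L × L))
    (hA : ∀ x y, wd (A x) (A y) = wd x y) : UMap (fun x => A.symm (Φ (A x))) d := by
  refine ⟨?_, ?_⟩
  · intro t x
    simp only [map_smul, h.hom]
  · intro u hu
    have hu' : A u ≠ 0 := by
      intro h0
      exact hu (by simpa using h0)
    obtain ⟨z, hz1, hz2⟩ := h.pre (A u) hu'
    refine ⟨fun i => A.symm (z i), ?_, ?_⟩
    · intro i
      simp only [LinearEquiv.apply_symm_apply, hz1, LinearEquiv.symm_apply_apply]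
    · intro x
      have e1 : ∀ p q, wd (A.symm p) q = wd p (A q) := by
        intro p q
        rw [← hA, LinearEquiv.apply_symm_apply]
      have e2 : ∀ p q, wd p (A.symm q) = wd (A p) q := by
        intro p q
        rw [← hA, LinearEquiv.apply_symm_apply]
      rw [e1, hz2]
      exact Finset.prod_congr rfl (fun i _ => by rw [e2])

lemma iterate_conj (A : (L × L) ≃ₗ[L] (L × L)) (n : ℕ) :
    (fun x => A.symm (Φ (A x)))^[n] = fun x => A.symm (Φ^[n] (A x)) := by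
  induction n with
  | zero =>
    funext x
    simp
  | succ n ih =>
    funext x
    rw [Function.iterate_succ_apply', ih, Function.iterate_succ_apply']
    simp

lemma Bd.mono {R R' : ℝ} (h : Bd Φ d R) (hR : R ≤ R') : Bd Φ d R' := by
  intro x
  refine (h x).trans ?_
  have := Real.exp_le_exp.mpr hR
  gcongr

lemma Bd.iter (_h : UMap Φ d) (hd : 2 ≤ d) {R : ℝ} (hR : 0 ≤ R) (hB : Bd Φ d R) (n : ℕ) :
    Bd (Φ^[n]) (d ^ n) (R * ((d : ℝ) ^ n - 1)) := by
  induction n with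
  | zero =>
    intro x
    simp
  | succ n ih =>
    intro x
    rw [Function.iterate_succ_apply']
    refine (hB _).trans ?_
    have h1 := ih x
    have hdR : (2 : ℝ) ≤ d := by exact_mod_cast hd
    calc Real.exp R * ‖Φ^[n] x‖ ^ d
        ≤ Real.exp R * (Real.exp (R * ((d : ℝ) ^ n - 1)) * ‖x‖ ^ (d ^ n)) ^ d := by gcongr
      _ = Real.exp (R + d * (R * ((d : ℝ) ^ n - 1))) * ‖x‖ ^ (d ^ (n + 1)) := by
          rw [mul_pow, ← Real.exp_nat_mul, ← mul_assoc, ← Real.exp_add, ← pow_mul, pow_succ]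
      _ ≤ Real.exp (R * ((d : ℝ) ^ (n + 1) - 1)) * ‖x‖ ^ (d ^ (n + 1)) := by
          have h2 : R + d * (R * ((d : ℝ) ^ n - 1)) ≤ R * ((d : ℝ) ^ (n + 1) - 1) := by
            rw [pow_succ]
            nlinarith
          gcongr

lemma Bd.log_le {R : ℝ} (hB : Bd Φ d R) {x : L × L} (hx : x ≠ 0) (hΦ : Φ x ≠ 0) :
    Real.log ‖Φ x‖ ≤ R + d * Real.log ‖x‖ := by
  have h1 := Real.log_le_log (norm_pos_iff.mpr hΦ) (hB x)
  rwa [Real.log_mul (Real.exp_pos _).ne' (pow_pos (norm_pos_iff.mpr hx) _).ne', Real.log_exp,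
    Real.log_pow] at h1

end basic

section geo

variable {L : Type} [NormedField L] (G : Geo L) {Φ : L × L → L × L} {d : ℕ}

/-- The total size of the preimages of a vector. -/
lemma sum_log_le {D m : ℕ} {A : ℝ} (hB : Bd Φ D A) {u : L × L} (_hu : u ≠ 0)
    {z : Fin m → L × L} (hz0 : ∀ i, z i ≠ 0) (hz : ∀ x, ‖wd (Φ x) u‖ = ∏ i, ‖wd x (z i)‖) :
    ∑ i, Real.log ‖z i‖ ≤ A + G.k + Real.log ‖u‖ := by
  apply le_of_forall_pos_le_add
  intro η hη
  obtain ⟨x, hx1, hx2, hx3⟩ := G.generic m z hz0 η hη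
  have hprod : 0 < ∏ i, ‖wd x (z i)‖ :=
    Finset.prod_pos (fun i _ => norm_pos_iff.mpr (hx2 i))
  have hwd : wd (Φ x) u ≠ 0 := by
    rw [← norm_pos_iff, hz]
    exact hprod
  have h1 : ∑ i, Real.log ‖wd x (z i)‖ = Real.log ‖wd (Φ x) u‖ := by
    rw [hz, Real.log_prod (fun i _ => (norm_pos_iff.mpr (hx2 i)).ne')]
  have h2 := G.log_wd_le hwd
  have hx0 : x ≠ 0 := by
    rw [← norm_pos_iff, hx1]; exact one_pos
  have h3 := hB.log_le hx0 (left_ne_zero hwd)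
  rw [hx1, Real.log_one, mul_zero, add_zero] at h3
  linarith

/-- A preimage of `Φ x` parallel to `x` has the same norm as `x`. -/
lemma UMap.exists_parallel (h : UMap Φ d) (hd : 1 ≤ d) {x : L × L} (hx : x ≠ 0)
    {z : Fin d → L × L} (hz1 : ∀ i, Φ (z i) = Φ x)
    (hz2 : ∀ y, ‖wd (Φ y) (Φ x)‖ = ∏ i, ‖wd y (z i)‖) :
    ∃ i, ∃ c : L, ‖c‖ = 1 ∧ z i = c • x := by
  have h1 := hz2 x
  rw [wd_self, norm_zero] at h1
  obtain ⟨i, _, hi⟩ := Finset.prod_eq_zero_iff.mp h1.symm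
  obtain ⟨c, hc⟩ := exists_smul_of_wd_eq_zero hx (norm_eq_zero.mp hi)
  refine ⟨i, c, ?_, hc⟩
  have h2 := hz1 i
  rw [hc, h.hom] at h2
  have hΦ := h.ne_zero hd hx
  have h3 : c ^ d = 1 := by
    have h4 : (c ^ d - 1) • Φ x = 0 := by
      rw [sub_smul, h2, one_smul, sub_self]
    rcases smul_eq_zero.mp h4 with h5 | h5
    · exact sub_eq_zero.mp h5
    · exact absurd h5 hΦ
  have h4 : ‖c‖ ^ d = 1 := by rw [← norm_pow, h3, norm_one]
  exact (pow_eq_one_iff_of_nonneg (norm_nonneg c) (by omega)).mp h4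

include G in
/-- Lower bound for the size of the values. -/
lemma UMap.log_ge (h : UMap Φ d) (hd : 1 ≤ d) {R : ℝ} (hB : Bd Φ d R) {x : L × L} (hx : x ≠ 0) :
    d * Real.log ‖x‖ - ((2 * d - 1) * R + d * G.k) ≤ Real.log ‖Φ x‖ := by
  have hΦ := h.ne_zero hd hx
  obtain ⟨z, hz1, hz2⟩ := h.pre (Φ x) hΦ
  have hz0 : ∀ i, z i ≠ 0 := fun i => h.pre_ne_zero hd hΦ (hz1 i)
  obtain ⟨i, c, hc1, hc2⟩ := h.exists_parallel hd hx hz1 hz2
  have h1 := sum_log_le G hB hΦ hz0 hz2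
  rw [← Finset.add_sum_erase _ _ (Finset.mem_univ i)] at h1
  have h2 : Real.log ‖z i‖ = Real.log ‖x‖ := by
    rw [hc2, norm_smul, hc1, one_mul]
  have hdR : (1 : ℝ) ≤ d := by exact_mod_cast hd
  have hd0 : (0 : ℝ) < d := by linarith
  have h3 : ∀ j ∈ univ.erase i, (Real.log ‖Φ x‖ - R) / d ≤ Real.log ‖z j‖ := by
    intro j _
    have h4 := hB.log_le (hz0 j) (by rw [hz1]; exact hΦ)
    rw [hz1] at h4
    rw [div_le_iff₀ hd0]
    linarith
  have h4 := Finset.card_nsmul_le_sum _ _ _ h3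
  rw [Finset.card_erase_of_mem (Finset.mem_univ i), Finset.card_univ, Fintype.card_fin,
    nsmul_eq_mul, Nat.cast_sub hd, Nat.cast_one] at h4
  have h5 : Real.log ‖x‖ + ((d : ℝ) - 1) * ((Real.log ‖Φ x‖ - R) / d) ≤
      R + G.k + Real.log ‖Φ x‖ := by linarith
  have h6 : d * (Real.log ‖x‖ + ((d : ℝ) - 1) * ((Real.log ‖Φ x‖ - R) / d)) =
      d * Real.log ‖x‖ + (d - 1) * (Real.log ‖Φ x‖ - R) := by
    field_simp
  have h7 := mul_le_mul_of_nonneg_left h5 hd0.le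
  rw [h6] at h7
  linarith

/-- The projective distance. -/
noncomputable def dl (p q : L × L) : ℝ := ‖wd p q‖ / (‖p‖ * ‖q‖)

lemma dl_nonneg (p q : L × L) : 0 ≤ dl p q := by unfold dl; positivity

include G in
/-- Lipschitz estimate. -/
lemma UMap.dl_le (h : UMap Φ d) (hd : 1 ≤ d) {R : ℝ} (hR : 0 ≤ R) (hB : Bd Φ d R) {x y : L × L}
    (hx : x ≠ 0) (hy : y ≠ 0) :
    dl (Φ x) (Φ y) ≤ dl x y * Real.exp (d * G.k + R + (2 * d * R + d * G.k)) := by
  have hΦx := h.ne_zero hd hx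
  have hΦy := h.ne_zero hd hy
  have hxp := norm_pos_iff.mpr hx
  have hyp := norm_pos_iff.mpr hy
  have hΦxp := norm_pos_iff.mpr hΦx
  have hΦyp := norm_pos_iff.mpr hΦy
  obtain ⟨z, hz1, hz2⟩ := h.pre (Φ y) hΦy
  have hz0 : ∀ i, z i ≠ 0 := fun i => h.pre_ne_zero hd hΦy (hz1 i)
  obtain ⟨i, c, hc1, hc2⟩ := h.exists_parallel hd hy hz1 hz2
  have h1 := sum_log_le G hB hΦy hz0 hz2
  -- product of the norms
  have hprod : ∏ j, ‖z j‖ ≤ Real.exp (R + G.k) * ‖Φ y‖ := by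
    have h2 : Real.log (∏ j, ‖z j‖) ≤ R + G.k + Real.log ‖Φ y‖ := by
      rw [Real.log_prod (fun j _ => (norm_pos_iff.mpr (hz0 j)).ne')]
      exact h1
    have h3 : 0 < ∏ j, ‖z j‖ := Finset.prod_pos (fun j _ => norm_pos_iff.mpr (hz0 j))
    rw [← Real.exp_log h3]
    calc Real.exp (Real.log (∏ j, ‖z j‖)) ≤ Real.exp (R + G.k + Real.log ‖Φ y‖) :=
          Real.exp_le_exp.mpr h2
      _ = Real.exp (R + G.k) * ‖Φ y‖ := by rw [Real.exp_add, Real.exp_log hΦyp]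
  have h2 : ‖wd (Φ x) (Φ y)‖ ≤ ‖wd x y‖ * ∏ j ∈ univ.erase i, (Real.exp G.k * ‖x‖ * ‖z j‖) := by
    rw [hz2 x, ← Finset.mul_prod_erase _ _ (Finset.mem_univ i)]
    have e1 : ‖wd x (z i)‖ = ‖wd x y‖ := by
      rw [hc2, wd_smul_right, norm_mul, hc1, one_mul]
    rw [e1]
    apply mul_le_mul_of_nonneg_left _ (norm_nonneg _)
    exact Finset.prod_le_prod (fun j _ => norm_nonneg _) (fun j _ => G.wd_le' _ _)
  have h3 : ∏ j ∈ univ.erase i, (Real.exp G.k * ‖x‖ * ‖z j‖) =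
      (Real.exp G.k * ‖x‖) ^ (d - 1) * ((∏ j, ‖z j‖) / ‖y‖) := by
    rw [Finset.prod_mul_distrib, Finset.prod_const, Finset.card_erase_of_mem (Finset.mem_univ i),
      Finset.card_univ, Fintype.card_fin, ← Finset.mul_prod_erase _ (fun j => ‖z j‖)
      (Finset.mem_univ i), hc2, norm_smul, hc1, one_mul, mul_div_cancel_left₀ _ hyp.ne']
  rw [h3] at h2
  have h4 : ‖x‖ ^ d ≤ Real.exp (2 * d * R + d * G.k) * ‖Φ x‖ := by
    have h5 := h.log_ge G hd hB hx
    have hdR : (1 : ℝ) ≤ d := by exact_mod_cast hd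
    have h6 : d * Real.log ‖x‖ ≤ (2 * d * R + d * G.k) + Real.log ‖Φ x‖ := by
      nlinarith
    have h7 := Real.exp_le_exp.mpr h6
    rw [Real.exp_add, Real.exp_log hΦxp, Real.exp_nat_mul, Real.exp_log hxp] at h7
    exact h7
  have hk := G.k_nonneg
  unfold dl
  rw [div_mul_eq_mul_div, div_le_div_iff₀ (by positivity) (by positivity)]
  have h8 : (Real.exp G.k) ^ (d - 1) ≤ Real.exp (((d : ℝ) - 1) * G.k) := by
    rw [← Real.exp_nat_mul, Nat.cast_sub hd, Nat.cast_one]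
  have hdd : ‖x‖ ^ (d - 1) * ‖x‖ = ‖x‖ ^ d := by
    rw [← pow_succ]
    congr 1
    omega
  calc ‖wd (Φ x) (Φ y)‖ * (‖x‖ * ‖y‖)
      ≤ (‖wd x y‖ * ((Real.exp G.k * ‖x‖) ^ (d - 1) * ((∏ j, ‖z j‖) / ‖y‖))) * (‖x‖ * ‖y‖) := by
        gcongr
    _ = ‖wd x y‖ * ((Real.exp G.k) ^ (d - 1) * (‖x‖ ^ (d - 1) * ‖x‖) * (∏ j, ‖z j‖)) := by
        rw [mul_pow]
        field_simp
    _ ≤ ‖wd x y‖ * (Real.exp (((d : ℝ) - 1) * G.k) *
        (Real.exp (2 * d * R + d * G.k) * ‖Φ x‖) * (Real.exp (R + G.k) * ‖Φ y‖)) := by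
        rw [hdd]
        gcongr
    _ = ‖wd x y‖ * Real.exp (d * G.k + R + (2 * d * R + d * G.k)) * (‖Φ x‖ * ‖Φ y‖) := by
        have e1 : Real.exp (d * G.k + R + (2 * d * R + d * G.k)) =
            Real.exp (((d : ℝ) - 1) * G.k) * Real.exp (2 * d * R + d * G.k) *
              Real.exp (R + G.k) := by
          rw [← Real.exp_add, ← Real.exp_add]
          congr 1
          ring
        rw [e1]
        ring

include G in
lemma UMap.dl_iter_le (h : UMap Φ d) (hd : 1 ≤ d) {R : ℝ} (hR : 0 ≤ R) (hB : Bd Φ d R)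
    (n : ℕ) {x y : L × L} (hx : x ≠ 0) (hy : y ≠ 0) :
    dl (Φ^[n] x) (Φ^[n] y) ≤ dl x y * Real.exp (n * (d * G.k + R + (2 * d * R + d * G.k))) := by
  have hne : ∀ (n : ℕ) {x : L × L}, x ≠ 0 → Φ^[n] x ≠ 0 := by
    intro n x hx
    exact (h.iter hd n).ne_zero (Nat.one_le_pow _ _ (by omega)) hx
  induction n with
  | zero => simp
  | succ n ih =>
    rw [Function.iterate_succ_apply', Function.iterate_succ_apply']
    refine (h.dl_le G hd hR hB (hne n hx) (hne n hy)).trans ?_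
    calc dl (Φ^[n] x) (Φ^[n] y) * Real.exp (d * G.k + R + (2 * d * R + d * G.k))
        ≤ (dl x y * Real.exp (n * (d * G.k + R + (2 * d * R + d * G.k)))) *
          Real.exp (d * G.k + R + (2 * d * R + d * G.k)) := by gcongr
      _ = _ := by
          rw [mul_assoc, ← Real.exp_add]
          congr 2
          push_cast
          ring

include G in
/-- Preperiodic vectors are bounded. -/
lemma UMap.log_le_of_preper (h : UMap Φ d) (hd : 2 ≤ d) {R : ℝ} (hR : 0 ≤ R) (hB : Bd Φ d R)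
    {x : L × L} (hx : x ≠ 0) (hp : Preper Φ x) : Real.log ‖x‖ ≤ 2 * d * R + d * G.k := by
  have hk := G.k_nonneg
  have hdR : (2 : ℝ) ≤ d := by exact_mod_cast hd
  set c : ℝ := 2 * d * R + d * G.k with hc
  have hc0 : 0 ≤ c := by positivity
  by_contra hlt
  push Not at hlt
  refine not_preper_of_expanding (φ := Φ) (h := fun y => Real.log ‖y‖)
    (S := {y | y ≠ 0 ∧ c < Real.log ‖y‖}) ?_ ?_ ⟨hx, hlt⟩ hp
  · rintro y ⟨hy0, hy⟩
    refine ⟨h.ne_zero (by omega) hy0, ?_⟩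
    have h1 := h.log_ge G (by omega) hB hy0
    nlinarith
  · rintro y ⟨hy0, hy⟩
    have h1 := h.log_ge G (by omega) hB hy0
    nlinarith

/-- Preperiodic vectors are not too small. -/
lemma UMap.log_ge_of_preper (h : UMap Φ d) (hd : 2 ≤ d) {R : ℝ} (hR : 0 ≤ R) (hB : Bd Φ d R)
    {x : L × L} (hx : x ≠ 0) (hp : Preper Φ x) : - R ≤ Real.log ‖x‖ := by
  have hdR : (2 : ℝ) ≤ d := by exact_mod_cast hd
  by_contra hlt
  push Not at hlt
  refine not_preper_of_expanding (φ := Φ) (h := fun y => - Real.log ‖y‖)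
    (S := {y | y ≠ 0 ∧ Real.log ‖y‖ < - R}) ?_ ?_ ⟨hx, hlt⟩ hp
  · rintro y ⟨hy0, hy⟩
    refine ⟨h.ne_zero (by omega) hy0, ?_⟩
    have h1 := hB.log_le hy0 (h.ne_zero (by omega) hy0)
    nlinarith
  · rintro y ⟨hy0, hy⟩
    have h1 := hB.log_le hy0 (h.ne_zero (by omega) hy0)
    show - Real.log ‖y‖ < - Real.log ‖Φ y‖
    nlinarith

end geo

end Pool.Agent.UBC90787a
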