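import Mathlib

set_option autoImplicit false
set_option linter.unusedSectionVars false

/-!
The determinant pairing on pairs, and the metric properties of the ground field.
-/

namespace Pool.Agent.UBC90787a

open Finset

section wd

variable {L : Type*} [Field L]

/-- The determinant of two vectors. -/
def wd (p q : L × L) : L := p.1 * q.2 - p.2 * q.1

lemma wd_self (p : L × L) : wd p p = 0 := by unfold wd; ring

lemma wd_comm (p q : L × L) : wd p q = - wd q p := by unfold wd; ring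

lemma wd_smul_left (t : L) (p q : L × L) : wd (t • p) q = t * wd p q := by
  unfold wd; simp only [Prod.smul_fst, Prod.smul_snd, smul_eq_mul]; ring

lemma wd_smul_right (t : L) (p q : L × L) : wd p (t • q) = t * wd p q := by
  unfold wd; simp only [Prod.smul_fst, Prod.smul_snd, smul_eq_mul]; ring

lemma wd_zero_left (q : L × L) : wd 0 q = 0 := by unfold wd; simp

lemma wd_zero_right (p : L × L) : wd p 0 = 0 := by unfold wd; simp

/-- The Plücker relation. -/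
lemma plucker (p q w : L × L) : wd p q • w = wd w q • p - wd w p • q := by
  unfold wd
  ext
  · simp only [Prod.smul_fst, Prod.fst_sub, smul_eq_mul]; ring
  · simp only [Prod.smul_snd, Prod.snd_sub, smul_eq_mul]; ring

lemma left_ne_zero {p q : L × L} (h : wd p q ≠ 0) : p ≠ 0 := by
  rintro rfl
  exact h (wd_zero_left q)

lemma right_ne_zero {p q : L × L} (h : wd p q ≠ 0) : q ≠ 0 := by
  rintro rfl
  exact h (wd_zero_right p)

/-- Parallel vectors are proportional. -/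
lemma exists_smul_of_wd_eq_zero {p q : L × L} (hp : p ≠ 0) (h : wd p q = 0) :
    ∃ c : L, q = c • p := by
  unfold wd at h
  by_cases h1 : p.1 = 0
  · have h2 : p.2 ≠ 0 := by
      intro h2
      exact hp (Prod.ext h1 h2)
    refine ⟨q.2 / p.2, ?_⟩
    rw [h1, zero_mul, zero_sub, neg_eq_zero, mul_eq_zero] at h
    have h3 : q.1 = 0 := h.resolve_left h2
    ext
    · simp [h1, h3]
    · simp [h2]
  · refine ⟨q.1 / p.1, ?_⟩
    have h3 : q.2 = p.2 * q.1 / p.1 := by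
      rw [eq_div_iff h1]
      linear_combination h
    ext
    · simp [h1]
    · simp only [Prod.smul_snd, smul_eq_mul, h3]
      ring

end wd

/-- The metric properties of the ground field: `k = 0` in the ultrametric case. -/
structure Geo (L : Type) [NormedField L] where
  /-- the constant in the triangle inequality -/
  k : ℝ
  k_nonneg : 0 ≤ k
  add_le : ∀ a b : L, ‖a + b‖ ≤ Real.exp k * max ‖a‖ ‖b‖
  /-- the norm used for the kernel -/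
  nrm : L × L → ℝ
  nrm_ge : ∀ p, ‖p‖ ≤ nrm p
  nrm_le : ∀ p, nrm p ≤ Real.exp k * ‖p‖
  wd_le : ∀ p q, ‖wd p q‖ ≤ nrm p * nrm q
  generic : ∀ (n : ℕ) (z : Fin n → L × L), (∀ i, z i ≠ 0) → ∀ η : ℝ, 0 < η →
    ∃ x : L × L, ‖x‖ = 1 ∧ (∀ i, wd x (z i) ≠ 0) ∧
      ∑ i, Real.log ‖z i‖ - η ≤ ∑ i, Real.log ‖wd x (z i)‖
  dense : ∀ a b : ℝ, 0 < a → a < b → ∃ e : L, a < ‖e‖ ∧ ‖e‖ < b
  base : ∀ (T N : ℕ), 1 ≤ T → ∀ x : Fin N → L × L, (∀ i, x i ≠ 0) →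
    ∃ u : Fin T → L × L, (∀ j, ‖u j‖ = 1) ∧ (∀ i j, i ≠ j → wd (u i) (u j) ≠ 0) ∧
      (∀ i, 0 ≤ ∑ j ∈ univ.erase i, Real.log ‖wd (u i) (u j)‖) ∧
      (∀ i j, Real.exp (-(8 * k * (1 + Real.log T + Real.log (N + 1)))) * ‖x i‖ ≤
        ‖wd (x i) (u j)‖) ∧
      (∀ s : Finset (Fin T), 16 ≤ T → T < 8 * s.card → ∃ i ∈ s, ∃ j ∈ s,
        Real.exp (-(4 * k)) ≤ ‖wd (u i) (u j)‖)
  kernel : ∀ (ε : ℝ) (N : ℕ), 0 < ε → ε ≤ 1 → 1 ≤ N → ∃ ker : L × L → L × L → ℝ,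
    (∀ p q, p ≠ 0 → q ≠ 0 → ker p q = ker q p) ∧
    (∀ p q, wd p q ≠ 0 → ker p q ≤ - Real.log (‖wd p q‖ / (nrm p * nrm q))) ∧
    (∀ p q, p ≠ 0 → q ≠ 0 → ker p q ≤ - Real.log ε + 4 * k * (1 + Real.log N)) ∧
    (∀ p q, p ≠ 0 → q ≠ 0 → ε ≤ ‖wd p q‖ / (nrm p * nrm q) →
      - Real.log (‖wd p q‖ / (nrm p * nrm q)) - 4 * k / N ≤ ker p q) ∧
    (∀ (I : Type) (s : Finset I) (P : I → L × L) (σ : I → ℝ), (∀ i ∈ s, P i ≠ 0) →
      0 ≤ ∑ i ∈ s, ∑ j ∈ s, σ i * σ j * ker (P i) (P j)) ∧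
    (∀ (ε1 ε2 : ℝ), ε ≤ ε2 → ε2 ≤ ε1 → ε1 ≤ 1 → ∀ α : L × L, α ≠ 0 → ∃ U : L × L → ℝ,
      (∀ p, p ≠ 0 → 0 ≤ U p ∧ U p ≤ Real.log (ε1 / ε2) + 4 * k) ∧
      (∀ p, p ≠ 0 → ‖wd p α‖ / (nrm p * nrm α) ≤ ε2 → Real.log (ε1 / ε2) - 4 * k ≤ U p) ∧
      (∀ p, p ≠ 0 → ε1 ≤ ‖wd p α‖ / (nrm p * nrm α) → U p ≤ 4 * k) ∧
      (∀ (I : Type) (s : Finset I) (P : I → L × L) (σ : I → ℝ), (∀ i ∈ s, P i ≠ 0) →
        (∑ i ∈ s, σ i * U (P i)) ^ 2 ≤ (Real.log (ε1 / ε2) + 4 * k) *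
          ∑ i ∈ s, ∑ j ∈ s, σ i * σ j * ker (P i) (P j)))

section geo

variable {L : Type} [NormedField L] (G : Geo L)

include G

lemma Geo.wd_le' (p q : L × L) : ‖wd p q‖ ≤ Real.exp G.k * ‖p‖ * ‖q‖ := by
  unfold wd
  rw [sub_eq_add_neg]
  refine (G.add_le _ _).trans ?_
  rw [mul_assoc]
  have h : max ‖p.1 * q.2‖ ‖-(p.2 * q.1)‖ ≤ ‖p‖ * ‖q‖ := by
    apply max_le
    · rw [norm_mul]
      exact mul_le_mul (norm_fst_le p) (norm_snd_le q) (norm_nonneg _) (norm_nonneg _)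
    · rw [norm_neg, norm_mul]
      exact mul_le_mul (norm_snd_le p) (norm_fst_le q) (norm_nonneg _) (norm_nonneg _)
  gcongr

lemma Geo.add_le' (p q : L × L) : ‖p + q‖ ≤ Real.exp G.k * max ‖p‖ ‖q‖ := by
  rw [Prod.norm_def]
  apply max_le
  · refine (G.add_le _ _).trans ?_
    have h : max ‖p.1‖ ‖q.1‖ ≤ max ‖p‖ ‖q‖ := max_le_max (norm_fst_le p) (norm_fst_le q)
    gcongr
  · refine (G.add_le _ _).trans ?_
    have h : max ‖p.2‖ ‖q.2‖ ≤ max ‖p‖ ‖q‖ := max_le_max (norm_snd_le p) (norm_snd_le q)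
    gcongr

lemma Geo.sub_le' (p q : L × L) : ‖p - q‖ ≤ Real.exp G.k * max ‖p‖ ‖q‖ := by
  rw [sub_eq_add_neg]
  refine (G.add_le' _ _).trans ?_
  rw [norm_neg]

lemma Geo.log_wd_le {p q : L × L} (h : wd p q ≠ 0) :
    Real.log ‖wd p q‖ ≤ G.k + Real.log ‖p‖ + Real.log ‖q‖ := by
  have hp : 0 < ‖p‖ := norm_pos_iff.mpr (left_ne_zero h)
  have hq : 0 < ‖q‖ := norm_pos_iff.mpr (right_ne_zero h)
  have h1 := Real.log_le_log (norm_pos_iff.mpr h) (G.wd_le' p q)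
  rwa [Real.log_mul (by positivity) hq.ne', Real.log_mul (Real.exp_pos _).ne' hp.ne',
    Real.log_exp] at h1

lemma Geo.nrm_pos {p : L × L} (hp : p ≠ 0) : 0 < G.nrm p :=
  (norm_pos_iff.mpr hp).trans_le (G.nrm_ge p)

lemma Geo.log_nrm_ge {p : L × L} (hp : p ≠ 0) : Real.log ‖p‖ ≤ Real.log (G.nrm p) :=
  Real.log_le_log (norm_pos_iff.mpr hp) (G.nrm_ge p)

lemma Geo.log_nrm_le {p : L × L} (hp : p ≠ 0) : Real.log (G.nrm p) ≤ G.k + Real.log ‖p‖ := by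
  have h := Real.log_le_log (G.nrm_pos hp) (G.nrm_le p)
  rwa [Real.log_mul (Real.exp_pos _).ne' (norm_pos_iff.mpr hp).ne', Real.log_exp] at h

/-- Solving a linear system. -/
lemma Geo.norm_le_of_wd {p q w : L × L} (hpq : wd p q ≠ 0) {B : ℝ} (h1 : ‖wd w p‖ ≤ B)
    (h2 : ‖wd w q‖ ≤ B) : ‖w‖ ≤ Real.exp G.k * (B * max ‖p‖ ‖q‖) / ‖wd p q‖ := by
  have hpos : 0 < ‖wd p q‖ := norm_pos_iff.mpr hpq
  rw [le_div_iff₀ hpos, mul_comm, ← norm_smul, plucker p q w]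
  refine (G.sub_le' _ _).trans ?_
  have hB : 0 ≤ B := (norm_nonneg _).trans h1
  have h : max ‖wd w q • p‖ ‖wd w p • q‖ ≤ B * max ‖p‖ ‖q‖ := by
    apply max_le
    · rw [norm_smul]
      exact mul_le_mul h2 (le_max_left _ _) (norm_nonneg _) hB
    · rw [norm_smul]
      exact mul_le_mul h1 (le_max_right _ _) (norm_nonneg _) hB
  gcongr

omit G in
/-- Unit vectors have unimodular partners. -/
lemma exists_partner {α : L × L} (hα : ‖α‖ = 1) : ∃ β : L × L, ‖β‖ = 1 ∧ wd β α = 1 := by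
  rw [Prod.norm_def] at hα
  rcases max_choice ‖α.1‖ ‖α.2‖ with h | h
  · rw [h] at hα
    have h0 : α.1 ≠ 0 := by
      rw [← norm_pos_iff, hα]; exact one_pos
    refine ⟨(0, -α.1⁻¹), ?_, ?_⟩
    · rw [Prod.norm_def]
      simp [hα]
    · unfold wd
      simp [h0]
  · rw [h] at hα
    have h0 : α.2 ≠ 0 := by
      rw [← norm_pos_iff, hα]; exact one_pos
    refine ⟨(α.2⁻¹, 0), ?_, ?_⟩
    · rw [Prod.norm_def]
      simp [hα]
    · unfold wd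
      simp [h0]

omit G in
/-- The value of the norm of a vector is attained by a scalar. -/
lemma exists_scalar {x : L × L} (hx : x ≠ 0) : ∃ c : L, c ≠ 0 ∧ ‖c‖ = ‖x‖⁻¹ := by
  rw [Prod.norm_def]
  rcases max_choice ‖x.1‖ ‖x.2‖ with h | h
  · refine ⟨x.1⁻¹, ?_, ?_⟩
    · intro h0
      rw [inv_eq_zero] at h0
      rw [h0, norm_zero] at h
      have h2 : ‖x.2‖ ≤ 0 := by rw [← h]; exact le_max_right _ _
      have h3 : x.2 = 0 := norm_le_zero_iff.mp h2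
      exact hx (Prod.ext h0 h3)
    · rw [h, norm_inv]
  · refine ⟨x.2⁻¹, ?_, ?_⟩
    · intro h0
      rw [inv_eq_zero] at h0
      rw [h0, norm_zero] at h
      have h2 : ‖x.1‖ ≤ 0 := by rw [← h]; exact le_max_left _ _
      have h3 : x.1 = 0 := norm_le_zero_iff.mp h2
      exact hx (Prod.ext h3 h0)
    · rw [h, norm_inv]

end geo

end Pool.Agent.UBC90787a
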